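import Mathlib
import Pool.Agent.H761R3.CQ.All

set_option autoImplicit false

/-!
Positions of the Maker-Breaker game on the pairs of a finite vertex set, and the reduction of
their analysis to the deterministic part of the analysis of clique queries.
-/

namespace Pool.Agent.W316.MN

open Finset H761CQ

variable {n : ℕ}

/-- no pair of Breaker inside `K`, at most `u` pairs of `K` are missing -/
def okP (M B : Finset (Sym2 (Fin n))) (u : ℕ) (K : Finset (Fin n)) : Prop :=
  Disjoint (prs K) B ∧ (prs K \ M).card ≤ u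

open Classical in
/-- the `k`-sets with no pair of Breaker and exactly `u` missing pairs -/
noncomputable def famP (M B : Finset (Sym2 (Fin n))) (u k : ℕ) : Finset (Finset (Fin n)) :=
  univ.filter fun K => K.card = k ∧ Disjoint (prs K) B ∧ (prs K \ M).card = u

/-- the query algorithm which asks the pairs of a list one after another -/
noncomputable def algOf (l : List (Sym2 (Fin n))) (e0 : Sym2 (Fin n)) : Alg n where
  next a := l.getD a.length e0
  out _ := ∅

lemma ans_length (A : Alg n) (G : Sym2 (Fin n) → Bool) (t : ℕ) : (ans A G t).length = t := by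
  induction t with
  | zero => rfl
  | succ t ih => simp [ans, ih]

lemma qd_algOf (l : List (Sym2 (Fin n))) (e0 : Sym2 (Fin n)) (G : Sym2 (Fin n) → Bool) :
    qd (algOf l e0) G l.length = l.toFinset := by
  ext e
  simp only [qd, algOf, mem_image, mem_range, ans_length, List.mem_toFinset]
  constructor
  · rintro ⟨i, hi, rfl⟩
    rw [List.getD_eq_getElem _ _ hi]
    exact List.getElem_mem hi
  · intro he
    obtain ⟨i, hi, rfl⟩ := List.mem_iff_getElem.1 he
    exact ⟨i, hi, List.getD_eq_getElem _ _ hi⟩

lemma alive_iff {M B : Finset (Sym2 (Fin n))} (h : Disjoint M B) (P : Finset (Sym2 (Fin n))) :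
    (∀ e ∈ P, e ∈ M ∪ B → decide (e ∈ M) = true) ↔ Disjoint P B := by
  rw [Finset.disjoint_left]
  constructor
  · intro h1 e he heB
    have h2 := h1 e he (mem_union_right _ heB)
    exact (Finset.disjoint_left.1 h) (of_decide_eq_true h2) heB
  · intro h1 e he hMB
    rcases mem_union.1 hMB with h2 | h2
    · exact decide_eq_true h2
    · exact absurd h2 (h1 he)

lemma sdiff_alive {M B P : Finset (Sym2 (Fin n))} (h : Disjoint P B) : P \ (M ∪ B) = P \ M := by
  ext e
  simp only [mem_sdiff, mem_union, not_or]
  constructor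
  · rintro ⟨h1, h2, -⟩
    exact ⟨h1, h2⟩
  · rintro ⟨h1, h2⟩
    exact ⟨h1, h2, Finset.disjoint_left.1 h h1⟩

/-- The deterministic core for positions of the game. -/
theorem core_pos {δ : ℝ} {A m1 l : ℕ} (hp : Par δ A m1) (hb : Big δ A m1 l) {n k : ℕ}
    {M B : Finset (Sym2 (Fin n))} (hMB : Disjoint M B) (hn : n ≤ 2 ^ (2 * A * l))
    (hq : (M ∪ B).card ≤ 2 ^ (2 * A * l))
    (hk1 : (3 / 2 + δ) * (2 * A * l) ≤ k) (hk2 : k ≤ 3 * (2 * A * l))
    (hP : PropP n (5 * (2 * A * l)) (uu δ A l) (2 * A * l + 1) (okP M B (uu δ A l)))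
    (hD : PropD n (2 * A * l) (3 * (2 * A * l) * (2 * A * l) + 5 * (2 * A * l)) (uu δ A l)
      (5 * (2 * A * l)) (okP M B (uu δ A l))) :
    2 ^ (3 * (2 * A * l)) * (famP M B (uu δ A l) k).card < 2 ^ (uu δ A l) := by
  classical
  by_contra hcon
  push Not at hcon
  have hE0 : Nonempty (Sym2 (Fin n)) ∨ n = 0 := by
    rcases Nat.eq_zero_or_pos n with h | h
    · exact Or.inr h
    · exact Or.inl ⟨s(⟨0, h⟩, ⟨0, h⟩)⟩
  rcases hE0 with ⟨⟨e0⟩⟩ | h0
  · set ls := (M ∪ B).toList with hls
    set G : Sym2 (Fin n) → Bool := fun e => decide (e ∈ M) with hG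
    have hlen : ls.length = (M ∪ B).card := Finset.length_toList _
    have hqd : qd (algOf ls e0) G ls.length = M ∪ B := by
      rw [qd_algOf, hls, Finset.toList_toFinset]
    have hok : okk (algOf ls e0) G ls.length (uu δ A l) = okP M B (uu δ A l) := by
      funext K
      apply propext
      unfold okk okP
      rw [hqd, hG]
      constructor
      · rintro ⟨h1, h2⟩
        have h3 := (alive_iff hMB _).1 h1
        rw [sdiff_alive h3] at h2
        exact ⟨h3, h2⟩
      · rintro ⟨h1, h2⟩
        refine ⟨(alive_iff hMB _).2 h1, ?_⟩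
        rw [sdiff_alive h1]
        exact h2
    have hfam : fam (algOf ls e0) G ls.length (uu δ A l) k = famP M B (uu δ A l) k := by
      unfold fam famP
      apply Finset.filter_congr
      intro K _
      rw [hqd, hG]
      constructor
      · rintro ⟨h0, h1, h2⟩
        have h3 := (alive_iff hMB _).1 h1
        rw [sdiff_alive h3] at h2
        exact ⟨h0, h3, h2⟩
      · rintro ⟨h0, h1, h2⟩
        refine ⟨h0, (alive_iff hMB _).2 h1, ?_⟩
        rw [sdiff_alive h1]
        exact h2
    refine core_det taskE4 (taskStep taskE1 taskE2 taskE3 taskE4 taskE5 taskE6) taskK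
      V444.taskV taskR hp hb (A' := algOf ls e0) (G := G) (t := ls.length) hn
      (q := ls.length) ?_ le_rfl hk1 hk2 ?_ ?_ ?_
    · rw [hlen]
      exact hq.trans (Nat.pow_le_pow_right (by norm_num) (by omega))
    · rw [hok]; exact hP
    · rw [hok]; exact hD
    · rw [hfam]; exact hcon
  · -- no vertices
    subst h0
    have hk0 : famP M B (uu δ A l) k = ∅ := by
      unfold famP
      rw [Finset.filter_eq_empty_iff]
      rintro K - ⟨hK, -, -⟩
      have hK0 : K.card = 0 := by
        rw [Finset.card_eq_zero]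
        exact Finset.eq_empty_of_isEmpty K
      have h1 : (0 : ℝ) < (3 / 2 + δ) * (2 * A * l) := by
        have h2 := hp.hδ
        have h3 : (1 : ℝ) ≤ A := by exact_mod_cast hp.hA
        have h4 : (1000 : ℝ) ≤ l := by exact_mod_cast hb.e0
        positivity
      have h5 : (0 : ℝ) < k := lt_of_lt_of_le h1 hk1
      have h6 : 0 < k := by exact_mod_cast h5
      omega
    rw [hk0, Finset.card_empty, mul_zero] at hcon
    exact absurd hcon (not_le.2 (by positivity))

end Pool.Agent.W316.MN
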