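import Mathlib
import Pool.Agent.W316.Pos

set_option autoImplicit false

/-!
Potentials of positions.
-/

namespace Pool.Agent.W316.MN

open Finset H761CQ

section Wgt

variable {E : Type*} [DecidableEq E]

/-- weight of a set of points in a position -/
noncomputable def wgt (M B P : Finset E) : ℝ :=
  if Disjoint P B then (1 / 2 : ℝ) ^ (P \ M).card else 0

lemma wgt_nonneg (M B P : Finset E) : 0 ≤ wgt M B P := by
  unfold wgt; split_ifs <;> positivity

lemma wgt_empty (P : Finset E) : wgt ∅ ∅ P = (1 / 2 : ℝ) ^ P.card := by
  simp [wgt]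

lemma wgt_insert_M {M B P : Finset E} {e : E} (he : e ∉ M) :
    wgt (insert e M) B P = wgt M B P + if e ∈ P then wgt M B P else 0 := by
  unfold wgt
  by_cases hd : Disjoint P B
  · simp only [if_pos hd]
    by_cases heP : e ∈ P
    · rw [if_pos heP]
      have h1 : (P \ insert e M).card + 1 = (P \ M).card := by
        have h2 : P \ insert e M = (P \ M).erase e := by
          ext x; simp only [mem_sdiff, mem_insert, mem_erase]; tauto
        rw [h2, Finset.card_erase_add_one]
        exact mem_sdiff.2 ⟨heP, he⟩
      rw [← h1, pow_succ]; ring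
    · rw [if_neg heP, add_zero]
      congr 2
      ext x
      simp only [mem_sdiff, mem_insert, not_or]
      constructor
      · rintro ⟨h1, -, h2⟩; exact ⟨h1, h2⟩
      · rintro ⟨h1, h2⟩
        exact ⟨h1, fun h => heP (h ▸ h1), h2⟩
  · simp [if_neg hd]

lemma wgt_insert_B {M B P : Finset E} {g : E} :
    wgt M (insert g B) P = if g ∈ P then 0 else wgt M B P := by
  unfold wgt
  by_cases hg : g ∈ P
  · rw [if_pos hg, if_neg]
    intro h
    exact Finset.disjoint_left.1 h hg (mem_insert_self _ _)
  · rw [if_neg hg]
    have h1 : Disjoint P (insert g B) ↔ Disjoint P B := by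
      rw [Finset.disjoint_insert_right]
      exact ⟨fun h => h.2, fun h => ⟨hg, h⟩⟩
    by_cases hd : Disjoint P B
    · rw [if_pos hd, if_pos (h1.2 hd)]
    · rw [if_neg hd, if_neg (fun h => hd (h1.1 h))]

lemma wgt_step {M B : Finset E} {e g : E} (heM : e ∉ M) (P : Finset E) :
    wgt (insert e M) (insert g B) P ≤ wgt M B P + (if e ∈ P then wgt M B P else 0) -
      (if g ∈ P then wgt M B P else 0) := by
  have h0 := wgt_nonneg M B P
  rw [wgt_insert_B, wgt_insert_M heM]
  split_ifs <;> linarith

variable [Fintype E]

/-- potential with coefficients `C` -/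
noncomputable def pot (C : Finset E → ℝ) (M B : Finset E) : ℝ := ∑ P, C P * wgt M B P

/-- danger of a point -/
noncomputable def dang (C : Finset E → ℝ) (M B : Finset E) (g : E) : ℝ :=
  ∑ P, C P * (if g ∈ P then wgt M B P else 0)

lemma pot_nonneg {C : Finset E → ℝ} (hC : ∀ P, 0 ≤ C P) (M B : Finset E) : 0 ≤ pot C M B :=
  Finset.sum_nonneg fun P _ => mul_nonneg (hC P) (wgt_nonneg _ _ _)

lemma pot_step {C : Finset E → ℝ} (hC : ∀ P, 0 ≤ C P) {M B : Finset E} {e g : E} (heM : e ∉ M) :
    pot C (insert e M) (insert g B) ≤ pot C M B + dang C M B e - dang C M B g := by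
  unfold pot dang
  rw [← Finset.sum_add_distrib, ← Finset.sum_sub_distrib]
  refine Finset.sum_le_sum fun P _ => ?_
  have h1 := mul_le_mul_of_nonneg_left (wgt_step (B := B) (g := g) heM P) (hC P)
  linarith

lemma pot_first {C : Finset E → ℝ} (hC : ∀ P, 0 ≤ C P) {M B : Finset E} {e : E} (heM : e ∉ M) :
    pot C (insert e M) B ≤ 2 * pot C M B := by
  unfold pot
  rw [Finset.mul_sum]
  refine Finset.sum_le_sum fun P _ => ?_
  have h1 := mul_nonneg (hC P) (wgt_nonneg M B P)
  rw [wgt_insert_M heM]
  split_ifs <;> linarith

lemma pot_add (C D : Finset E → ℝ) (M B : Finset E) :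
    pot (fun P => C P + D P) M B = pot C M B + pot D M B := by
  unfold pot
  rw [← Finset.sum_add_distrib]
  exact Finset.sum_congr rfl fun P _ => by ring

end Wgt

section Act

variable {n : ℕ}

open Classical in
/-- the sets of size `k` with at most `u` missing pairs -/
noncomputable def cand (M : Finset (Sym2 (Fin n))) (u k : ℕ) : Finset (Finset (Fin n)) :=
  univ.filter fun K => K.card = k ∧ (prs K \ M).card ≤ u

/-- total weight of the active sets -/
noncomputable def act (u k : ℕ) (M B : Finset (Sym2 (Fin n))) : ℝ :=
  ∑ K ∈ cand M u k, wgt M B (prs K)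

/-- danger of a pair with respect to the active sets -/
noncomputable def dact (u k : ℕ) (M B : Finset (Sym2 (Fin n))) (g : Sym2 (Fin n)) : ℝ :=
  ∑ K ∈ cand M u k, if g ∈ prs K then wgt M B (prs K) else 0

lemma act_nonneg (u k : ℕ) (M B : Finset (Sym2 (Fin n))) : 0 ≤ act u k M B :=
  Finset.sum_nonneg fun _ _ => wgt_nonneg _ _ _

lemma act_step (u k : ℕ) {M B : Finset (Sym2 (Fin n))} {e g : Sym2 (Fin n)} (heM : e ∉ M) :
    act u k (insert e M) (insert g B) ≤ act u k M B + dact u k M B e - dact u k M B g +
      (famP (insert e M) (insert g B) u k).card * (1 / 2 : ℝ) ^ u := by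
  classical
  have h1 : act u k (insert e M) (insert g B) ≤
      ∑ K ∈ cand M u k, wgt (insert e M) (insert g B) (prs K) +
        ∑ K ∈ famP (insert e M) (insert g B) u k, (1 / 2 : ℝ) ^ u := by
    unfold act
    rw [← Finset.sum_filter_add_sum_filter_not (cand (insert e M) u k) (fun K => K ∈ cand M u k)]
    refine add_le_add ?_ ?_
    · refine Finset.sum_le_sum_of_subset_of_nonneg (fun K hK => (mem_filter.1 hK).2)
        fun _ _ _ => wgt_nonneg _ _ _
    · have h2 : ∀ K ∈ (cand (insert e M) u k).filter (fun K => ¬ K ∈ cand M u k),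
          wgt (insert e M) (insert g B) (prs K) ≤
            if K ∈ famP (insert e M) (insert g B) u k then (1 / 2 : ℝ) ^ u else 0 := by
        intro K hK
        rw [mem_filter] at hK
        obtain ⟨hK1, hK2⟩ := hK
        unfold cand at hK1 hK2
        rw [mem_filter] at hK1 hK2
        push Not at hK2
        have h3 := hK2 (mem_univ _) hK1.2.1
        have h4 : (prs K \ M).card ≤ (prs K \ insert e M).card + 1 := by
          have h5 : prs K \ M ⊆ insert e (prs K \ insert e M) := by
            intro x hx
            rw [mem_sdiff] at hx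
            rw [mem_insert, mem_sdiff, mem_insert, not_or]
            by_cases hxe : x = e
            · exact Or.inl hxe
            · exact Or.inr ⟨hx.1, hxe, hx.2⟩
          exact (card_le_card h5).trans (card_insert_le _ _)
        have h6 : (prs K \ insert e M).card = u := by
          have := hK1.2.2
          omega
        unfold wgt
        by_cases hd : Disjoint (prs K) (insert g B)
        · rw [if_pos hd, if_pos, h6]
          unfold famP
          rw [mem_filter]
          exact ⟨mem_univ _, hK1.2.1, hd, h6⟩
        · rw [if_neg hd]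
          split_ifs
          · positivity
          · exact le_rfl
      refine (Finset.sum_le_sum h2).trans ?_
      rw [← Finset.sum_filter]
      refine Finset.sum_le_sum_of_subset_of_nonneg (fun K hK => (mem_filter.1 hK).2)
        fun _ _ _ => by positivity
  have h3 : ∑ K ∈ cand M u k, wgt (insert e M) (insert g B) (prs K) ≤
      act u k M B + dact u k M B e - dact u k M B g := by
    unfold act dact
    rw [← Finset.sum_add_distrib, ← Finset.sum_sub_distrib]
    exact Finset.sum_le_sum fun K _ => wgt_step heM _
  rw [Finset.sum_const, nsmul_eq_mul] at h1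
  linarith

lemma one_le_act {u k : ℕ} {M B : Finset (Sym2 (Fin n))} (hMB : Disjoint M B)
    {K : Finset (Fin n)} (hK : K.card = k) (hKM : prs K ⊆ M) : 1 ≤ act u k M B := by
  classical
  have h1 : K ∈ cand M u k := by
    unfold cand
    rw [mem_filter]
    refine ⟨mem_univ _, hK, ?_⟩
    rw [sdiff_eq_empty_iff_subset.2 hKM]
    simp
  have h2 : wgt M B (prs K) = 1 := by
    unfold wgt
    rw [if_pos (Finset.disjoint_of_subset_left hKM hMB), sdiff_eq_empty_iff_subset.2 hKM]
    simp
  rw [← h2]
  exact Finset.single_le_sum (f := fun K => wgt M B (prs K)) (fun _ _ => wgt_nonneg _ _ _) h1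

lemma act_eq_zero {u k : ℕ} {M B : Finset (Sym2 (Fin n))}
    (h : M.card + u < k.choose 2) : act u k M B = 0 := by
  classical
  unfold act
  have h1 : cand M u k = ∅ := by
    unfold cand
    rw [filter_eq_empty_iff]
    rintro K - ⟨hK, h2⟩
    have h3 : (prs K).card = k.choose 2 := by rw [TD.card_prs, hK]
    have h4 : (prs K).card ≤ (prs K \ M).card + M.card := by
      have h5 : prs K ⊆ (prs K \ M) ∪ M := by
        intro x hx
        rw [mem_union, mem_sdiff]
        by_cases hxM : x ∈ M
        · exact Or.inr hxM
        · exact Or.inl ⟨hx, hxM⟩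
      exact (card_le_card h5).trans (card_union_le _ _)
    omega
  rw [h1, Finset.sum_empty]

end Act

end Pool.Agent.W316.MN
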