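import Mathlib
import Pool.Agent.W316.Wgt

set_option autoImplicit false

/-!
Potentials which certify the two pseudorandomness properties.
-/

namespace Pool.Agent.W316.MN

open Finset H761CQ

section Rep

variable {E : Type*} [DecidableEq E] [Fintype E]

/-- the function is a potential with nonnegative coefficients -/
def Rep (f : Finset E → Finset E → ℝ) : Prop :=
  ∃ C : Finset E → ℝ, (∀ P, 0 ≤ C P) ∧ ∀ M B, pot C M B = f M B

lemma rep_wgt (c : ℝ) (hc : 0 ≤ c) (P : Finset E) : Rep (fun M B => c * wgt M B P) := by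
  classical
  refine ⟨fun Q => if Q = P then c else 0, fun Q => ?_, fun M B => ?_⟩
  · beta_reduce
    split_ifs
    · exact hc
    · exact le_rfl
  · unfold pot
    simp [ite_mul]

lemma rep_sum {ι : Type*} (s : Finset ι) (f : ι → Finset E → Finset E → ℝ)
    (h : ∀ i ∈ s, Rep (f i)) : Rep (fun M B => ∑ i ∈ s, f i M B) := by
  classical
  choose! C hC using h
  refine ⟨fun P => ∑ i ∈ s, C i P, fun P => Finset.sum_nonneg fun i hi => (hC i hi).1 P,
    fun M B => ?_⟩
  unfold pot
  simp only [Finset.sum_mul]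
  rw [Finset.sum_comm]
  refine Finset.sum_congr rfl fun i hi => ?_
  exact (hC i hi).2 M B

end Rep

variable {n : ℕ}

lemma wgt_biUnion_ge {s : ℕ} (M B : Finset (Sym2 (Fin n))) (u : ℕ) (K : Fin s → Finset (Fin n))
    (h : ∀ i, okP M B u (K i)) :
    (1 / 2 : ℝ) ^ (s * u) ≤ wgt M B (Finset.univ.biUnion fun i => prs (K i)) := by
  unfold wgt
  rw [if_pos]
  · apply pow_le_pow_of_le_one (by norm_num) (by norm_num)
    have h1 : (Finset.univ.biUnion fun i => prs (K i)) \ M ⊆
        Finset.univ.biUnion fun i => (prs (K i) \ M) := by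
      intro e he
      rw [mem_sdiff, mem_biUnion] at he
      obtain ⟨⟨i, hi, hei⟩, he2⟩ := he
      rw [mem_biUnion]
      exact ⟨i, hi, mem_sdiff.2 ⟨hei, he2⟩⟩
    calc ((Finset.univ.biUnion fun i => prs (K i)) \ M).card ≤
          (Finset.univ.biUnion fun i => (prs (K i) \ M)).card := card_le_card h1
      _ ≤ ∑ i, (prs (K i) \ M).card := card_biUnion_le
      _ ≤ ∑ _i : Fin s, u := Finset.sum_le_sum fun i _ => (h i).2
      _ = s * u := by simp
  · rw [Finset.disjoint_biUnion_left]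
    exact fun i _ => (h i).1

/-- The certificate for `PropP`. -/
theorem certP (n S u W a : ℕ) (hS : n * (W + 1) * 2 ^ a ≤ 2 ^ S) :
    ∃ C : Finset (Sym2 (Fin n)) → ℝ, (∀ P, 0 ≤ C P) ∧ pot C ∅ ∅ ≤ 2 * (1 / 2 : ℝ) ^ a ∧
      ∀ M B, pot C M B < 1 → PropP n S u W (okP M B u) := by
  classical
  -- the index sets
  let VS : Finset (Finset (Fin n)) := univ.filter fun V => V.Nonempty
  let WS : Finset (Fin n) → Finset (Fin n → ℕ) := fun V =>
    (Fintype.piFinset fun x => if x ∈ V then range (W + 1) else {0}).filter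
      fun w => ∑ x ∈ V, (1 / 2 : ℝ) ^ w x ≤ 1
  let KS : (V : Finset (Fin n)) → (Fin n → ℕ) → Finset (Fin (V.card * S) → Finset (Fin n)) :=
    fun V w => (Fintype.piFinset fun _ => V.powerset).filter
      fun K => (∑ i, ∑ x ∈ K i, w x) + V.card * S * (u + 3) ≤ (TC.PP K).card
  obtain ⟨C, hC0, hC⟩ : Rep (fun M B : Finset (Sym2 (Fin n)) => ∑ V ∈ VS, ∑ w ∈ WS V,
      ∑ K ∈ KS V w, (2 : ℝ) ^ (V.card * S * u) * wgt M B (TC.PP K)) := by
    refine rep_sum VS (fun V M B => ∑ w ∈ WS V, ∑ K ∈ KS V w,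
      (2 : ℝ) ^ (V.card * S * u) * wgt M B (TC.PP K)) fun V _ => ?_
    refine rep_sum (WS V) (fun w M B => ∑ K ∈ KS V w,
      (2 : ℝ) ^ (V.card * S * u) * wgt M B (TC.PP K)) fun w _ => ?_
    refine rep_sum (KS V w) (fun K M B =>
      (2 : ℝ) ^ (V.card * S * u) * wgt M B (TC.PP K)) fun K _ => ?_
    exact rep_wgt _ (by positivity) _
  refine ⟨C, hC0, ?_, ?_⟩
  · rw [hC]
    have hb1 : ∀ V ∈ VS, ∀ w ∈ WS V, ∑ K ∈ KS V w,
        (2 : ℝ) ^ (V.card * S * u) * wgt ∅ ∅ (TC.PP K) ≤ (1 / 2 : ℝ) ^ (V.card * S) := by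
      intro V _ w hw
      have hw1 := (mem_filter.1 hw).2
      calc ∑ K ∈ KS V w, (2 : ℝ) ^ (V.card * S * u) * wgt ∅ ∅ (TC.PP K) ≤
          ∑ K ∈ KS V w, (1 / 2 : ℝ) ^ (∑ i, ∑ x ∈ K i, w x) * (1 / 8 : ℝ) ^ (V.card * S) := by
            refine Finset.sum_le_sum fun K hK => ?_
            rw [wgt_empty]
            have h1 := (mem_filter.1 hK).2
            have h2 : (1 / 2 : ℝ) ^ (TC.PP K).card ≤
                (1 / 2 : ℝ) ^ ((∑ i, ∑ x ∈ K i, w x) + V.card * S * (u + 3)) :=
              pow_le_pow_of_le_one (by norm_num) (by norm_num) h1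
            have h3 : (1 / 2 : ℝ) ^ ((∑ i, ∑ x ∈ K i, w x) + V.card * S * (u + 3)) =
                (1 / 2 : ℝ) ^ (V.card * S * u) *
                  ((1 / 2 : ℝ) ^ (∑ i, ∑ x ∈ K i, w x) * (1 / 8 : ℝ) ^ (V.card * S)) := by
              have h6 : (1 / 8 : ℝ) = (1 / 2 : ℝ) ^ 3 := by norm_num
              rw [h6, ← pow_mul, ← pow_add, ← pow_add]
              congr 1
              ring
            have h4 : (2 : ℝ) ^ (V.card * S * u) * (1 / 2 : ℝ) ^ (V.card * S * u) = 1 := by
              rw [← mul_pow]; norm_num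
            calc (2 : ℝ) ^ (V.card * S * u) * (1 / 2 : ℝ) ^ (TC.PP K).card
                ≤ (2 : ℝ) ^ (V.card * S * u) * ((1 / 2 : ℝ) ^ (V.card * S * u) *
                  ((1 / 2 : ℝ) ^ (∑ i, ∑ x ∈ K i, w x) * (1 / 8 : ℝ) ^ (V.card * S))) := by
                  rw [← h3]
                  exact mul_le_mul_of_nonneg_left h2 (by positivity)
              _ = _ := by rw [← mul_assoc, h4, one_mul]
        _ ≤ ∑ K ∈ Fintype.piFinset (fun _ : Fin (V.card * S) => V.powerset),
            (1 / 2 : ℝ) ^ (∑ i, ∑ x ∈ K i, w x) * (1 / 8 : ℝ) ^ (V.card * S) :=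
            Finset.sum_le_sum_of_subset_of_nonneg (filter_subset _ _) fun K _ _ => by positivity
        _ ≤ (1 / 2 : ℝ) ^ (V.card * S) := TC.sum_tuples n _ V w hw1
    have hWS : ∀ V : Finset (Fin n), ((WS V).card : ℝ) ≤ ((W : ℝ) + 1) ^ V.card := by
      intro V
      have e1 : (WS V).card ≤ (W + 1) ^ V.card := by
        calc (WS V).card ≤
            (Fintype.piFinset fun x : Fin n => if x ∈ V then range (W + 1) else {0}).card :=
              card_le_card (filter_subset _ _)
          _ = ∏ x : Fin n, (if x ∈ V then W + 1 else 1) := by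
              rw [Fintype.card_piFinset]
              apply Finset.prod_congr rfl
              intro x _
              split <;> simp
          _ = (W + 1) ^ V.card := by
              rw [Finset.prod_ite, Finset.prod_const_one, mul_one, Finset.prod_const]
              congr 2
              ext x
              simp
      calc ((WS V).card : ℝ) ≤ (((W + 1) ^ V.card : ℕ) : ℝ) := by exact_mod_cast e1
        _ = _ := by push_cast; rfl
    set y : ℝ := ((W : ℝ) + 1) * (1 / 2 : ℝ) ^ S with hy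
    have hy0 : 0 ≤ y := by positivity
    have hb2 : ∑ V ∈ VS, ∑ w ∈ WS V, ∑ K ∈ KS V w,
        (2 : ℝ) ^ (V.card * S * u) * wgt ∅ ∅ (TC.PP K) ≤ ∑ V ∈ VS, y ^ V.card := by
      calc ∑ V ∈ VS, ∑ w ∈ WS V, ∑ K ∈ KS V w,
          (2 : ℝ) ^ (V.card * S * u) * wgt ∅ ∅ (TC.PP K)
          ≤ ∑ V ∈ VS, ∑ w ∈ WS V, (1 / 2 : ℝ) ^ (V.card * S) :=
            Finset.sum_le_sum fun V hV => Finset.sum_le_sum fun w hw => hb1 V hV w hw
        _ ≤ ∑ V ∈ VS, y ^ V.card := by
            apply Finset.sum_le_sum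
            intro V _
            rw [Finset.sum_const, nsmul_eq_mul]
            rw [hy, mul_pow, ← pow_mul, mul_comm S]
            exact mul_le_mul_of_nonneg_right (hWS V) (by positivity)
    have hb3 : ∑ V ∈ VS, y ^ V.card = (1 + y) ^ n - 1 := by
      have e1 : (1 + y) ^ n = ∑ V ∈ (univ : Finset (Fin n)).powerset, y ^ V.card := by
        have := Finset.prod_one_add (f := fun _ : Fin n => y) univ
        rw [Finset.prod_const, Finset.card_univ, Fintype.card_fin] at this
        rw [this]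
        apply Finset.sum_congr rfl
        intro V _
        rw [Finset.prod_const]
      have e2 : (univ : Finset (Fin n)).powerset = insert ∅ VS := by
        ext V
        simp only [mem_powerset, subset_univ, true_iff, mem_insert, VS, mem_filter, mem_univ,
          true_and]
        exact V.eq_empty_or_nonempty
      have e3 : (∅ : Finset (Fin n)) ∉ VS := by
        simp [VS]
      rw [e1, e2, Finset.sum_insert e3]
      simp
    rw [hb3] at hb2
    refine hb2.trans (TC.final_bound n a y hy0 ?_)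
    have h5 : (n : ℝ) * (W + 1) * 2 ^ a ≤ 2 ^ S := by exact_mod_cast hS
    rw [hy, one_div, inv_pow, inv_pow, ← mul_assoc, ← div_eq_mul_inv,
      div_le_iff₀ (by positivity), inv_mul_eq_div, le_div_iff₀ (by positivity)]
    exact h5
  · intro M B hlt
    by_contra hnot
    rw [hC] at hlt
    refine absurd hlt (not_lt.2 ?_)
    unfold PropP at hnot
    push Not at hnot
    obtain ⟨V, hV, w, hw, hw1, K, hK, hcard⟩ := hnot
    let w' : Fin n → ℕ := fun x => if x ∈ V then w x else 0
    have hw' : ∀ x ∈ V, w' x = w x := fun x hx => by simp [w', hx]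
    have hVS : V ∈ VS := mem_filter.2 ⟨mem_univ _, hV⟩
    have hWSm : w' ∈ WS V := by
      rw [mem_filter]
      constructor
      · rw [Fintype.mem_piFinset]
        intro x
        by_cases hx : x ∈ V
        · rw [if_pos hx, hw' x hx, mem_range]
          exact Nat.lt_succ_of_le (hw x)
        · rw [if_neg hx, mem_singleton]
          simp [w', hx]
      · rw [Finset.sum_congr rfl fun x hx => by rw [hw' x hx]]
        exact hw1
    have hKSm : K ∈ KS V w' := by
      rw [mem_filter]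
      constructor
      · rw [Fintype.mem_piFinset]
        intro i
        rw [mem_powerset]
        exact (hK i).1
      · have e1 : ∑ i, ∑ x ∈ K i, w' x = ∑ i, ∑ x ∈ K i, w x :=
          Finset.sum_congr rfl fun i _ => Finset.sum_congr rfl fun x hx =>
            hw' x ((hK i).1 hx)
        rw [e1]
        exact hcard
    have h1 : (1 / 2 : ℝ) ^ (V.card * S * u) ≤ wgt M B (TC.PP K) :=
      wgt_biUnion_ge M B u K fun i => (hK i).2
    have h2 : (1 : ℝ) ≤ (2 : ℝ) ^ (V.card * S * u) * wgt M B (TC.PP K) := by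
      have h4 : (2 : ℝ) ^ (V.card * S * u) * (1 / 2 : ℝ) ^ (V.card * S * u) = 1 := by
        rw [← mul_pow]; norm_num
      calc (1 : ℝ) = (2 : ℝ) ^ (V.card * S * u) * (1 / 2 : ℝ) ^ (V.card * S * u) := h4.symm
        _ ≤ _ := mul_le_mul_of_nonneg_left h1 (by positivity)
    have h0 : ∀ (V : Finset (Fin n)) (K : Fin (V.card * S) → Finset (Fin n)),
        0 ≤ (2 : ℝ) ^ (V.card * S * u) * wgt M B (TC.PP K) := fun V K =>
      mul_nonneg (by positivity) (wgt_nonneg _ _ _)
    calc (1 : ℝ) ≤ (2 : ℝ) ^ (V.card * S * u) * wgt M B (TC.PP K) := h2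
      _ ≤ ∑ K ∈ KS V w', (2 : ℝ) ^ (V.card * S * u) * wgt M B (TC.PP K) :=
          Finset.single_le_sum (f := fun K => (2 : ℝ) ^ (V.card * S * u) * wgt M B (TC.PP K))
            (fun K _ => h0 V K) hKSm
      _ ≤ ∑ w ∈ WS V, ∑ K ∈ KS V w, (2 : ℝ) ^ (V.card * S * u) * wgt M B (TC.PP K) :=
          Finset.single_le_sum (f := fun w => ∑ K ∈ KS V w,
            (2 : ℝ) ^ (V.card * S * u) * wgt M B (TC.PP K))
            (fun w _ => Finset.sum_nonneg fun K _ => h0 V K) hWSm
      _ ≤ _ :=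
          Finset.single_le_sum (f := fun V => ∑ w ∈ WS V, ∑ K ∈ KS V w,
            (2 : ℝ) ^ (V.card * S * u) * wgt M B (TC.PP K))
            (fun V _ => Finset.sum_nonneg fun w _ => Finset.sum_nonneg fun K _ => h0 V K) hVS

/-- The certificate for `PropD`. -/
theorem certD (n L s u a : ℕ) (hn : n ≤ 2 ^ L) :
    ∃ C : Finset (Sym2 (Fin n)) → ℝ, (∀ P, 0 ≤ C P) ∧
      pot C ∅ ∅ ≤ ((n : ℝ) + 1) ^ 2 * (1 / 2 : ℝ) ^ a ∧
      ∀ M B, pot C M B < 1 → PropD n L s u a (okP M B u) := by
  classical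
  let mm : Finset (Fin n) → ℕ → ℕ := fun F o => s * (F.card * o + o.choose 2)
  let cc : Finset (Fin n) → ℕ → ℝ := fun F o =>
    (2 : ℝ) ^ (s * u) * 2 ^ (mm F o) / 2 ^ (s * (u + o * L) + F.card * L + a)
  have hcc : ∀ F o, 0 ≤ cc F o := fun F o => by
    have : (0 : ℝ) < 2 ^ (s * (u + o * L) + F.card * L + a) := by positivity
    positivity
  obtain ⟨C, hC0, hC⟩ : Rep (fun M B : Finset (Sym2 (Fin n)) => ∑ F : Finset (Fin n),
      ∑ o ∈ range (n + 1), ∑ K ∈ TD.TT n s F o,
        cc F o * wgt M B (univ.biUnion fun i => prs (F ∪ K i))) := by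
    refine rep_sum univ (fun F M B => ∑ o ∈ range (n + 1), ∑ K ∈ TD.TT n s F o,
        cc F o * wgt M B (univ.biUnion fun i => prs (F ∪ K i))) fun F _ => ?_
    refine rep_sum (range (n + 1)) (fun o M B => ∑ K ∈ TD.TT n s F o,
        cc F o * wgt M B (univ.biUnion fun i => prs (F ∪ K i))) fun o _ => ?_
    refine rep_sum (TD.TT n s F o) (fun K M B =>
        cc F o * wgt M B (univ.biUnion fun i => prs (F ∪ K i))) fun K _ => ?_
    exact rep_wgt _ (hcc F o) _
  have e1 : ∀ k : ℕ, (1 / 2 : ℝ) ^ k * 2 ^ k = 1 := by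
    intro k
    rw [← mul_pow]
    norm_num
  refine ⟨C, hC0, ?_, ?_⟩
  · rw [hC]
    have h1 : ∀ (F : Finset (Fin n)) (o : ℕ), ∑ K ∈ TD.TT n s F o,
        cc F o * wgt ∅ ∅ (univ.biUnion fun i => prs (F ∪ K i)) ≤
          (1 / 2 : ℝ) ^ (F.card * L + a) := by
      intro F o
      have h2 : ∀ K ∈ TD.TT n s F o, cc F o * wgt ∅ ∅ (univ.biUnion fun i => prs (F ∪ K i)) ≤
          cc F o * (1 / 2 : ℝ) ^ (mm F o) := by
        intro K hK
        rw [TD.TT, mem_filter] at hK
        rw [wgt_empty]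
        refine mul_le_mul_of_nonneg_left ?_ (hcc F o)
        exact pow_le_pow_of_le_one (by norm_num) (by norm_num)
          (TD.card_P_ge F K o hK.2.1 hK.2.2)
      refine (Finset.sum_le_sum h2).trans ?_
      rw [Finset.sum_const, nsmul_eq_mul]
      have h3 : ((TD.TT n s F o).card : ℝ) ≤ 2 ^ (s * (o * L)) := by
        exact_mod_cast TD.card_TT hn F o
      have h4 : 0 ≤ cc F o * (1 / 2 : ℝ) ^ (mm F o) := mul_nonneg (hcc F o) (by positivity)
      refine (mul_le_mul_of_nonneg_right h3 h4).trans (le_of_eq ?_)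
      have h5 : (2 : ℝ) ^ (s * (u + o * L) + F.card * L + a) =
          2 ^ (s * u) * 2 ^ (s * (o * L)) * 2 ^ (F.card * L + a) := by
        rw [← pow_add, ← pow_add]; congr 1; ring
      have h6 : (2 : ℝ) ^ (mm F o) * (1 / 2 : ℝ) ^ (mm F o) = 1 := by rw [mul_comm]; exact e1 _
      show 2 ^ (s * (o * L)) * ((2 : ℝ) ^ (s * u) * 2 ^ (mm F o) /
        2 ^ (s * (u + o * L) + F.card * L + a) * (1 / 2 : ℝ) ^ (mm F o)) = _
      rw [h5]
      calc 2 ^ (s * (o * L)) * ((2 : ℝ) ^ (s * u) * 2 ^ (mm F o) /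
            (2 ^ (s * u) * 2 ^ (s * (o * L)) * 2 ^ (F.card * L + a)) * (1 / 2 : ℝ) ^ (mm F o))
          = 2 ^ (s * (o * L)) * ((2 : ℝ) ^ (s * u) * (2 ^ (mm F o) * (1 / 2 : ℝ) ^ (mm F o)) /
            (2 ^ (s * u) * 2 ^ (s * (o * L)) * 2 ^ (F.card * L + a))) := by ring
        _ = (1 / 2 : ℝ) ^ (F.card * L + a) := by
            rw [h6, mul_one, one_div, inv_pow]
            field_simp
    calc ∑ F : Finset (Fin n), ∑ o ∈ range (n + 1), ∑ K ∈ TD.TT n s F o,
          cc F o * wgt ∅ ∅ (univ.biUnion fun i => prs (F ∪ K i))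
        ≤ ∑ F : Finset (Fin n), ∑ o ∈ range (n + 1), (1 / 2 : ℝ) ^ (F.card * L + a) :=
          Finset.sum_le_sum fun F _ => Finset.sum_le_sum fun o _ => h1 F o
      _ = ((n : ℝ) + 1) * (1 / 2 : ℝ) ^ a * ∑ F : Finset (Fin n), ((1 / 2 : ℝ) ^ L) ^ F.card := by
          rw [Finset.mul_sum]
          refine Finset.sum_congr rfl fun F _ => ?_
          rw [Finset.sum_const, card_range, nsmul_eq_mul, pow_add, mul_comm F.card L, pow_mul]
          push_cast
          ring
      _ ≤ ((n : ℝ) + 1) * (1 / 2 : ℝ) ^ a * ((n : ℝ) + 1) :=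
          mul_le_mul_of_nonneg_left (TD.sum_F hn) (by positivity)
      _ = _ := by ring
  · intro M B hlt
    by_contra hnot
    rw [hC] at hlt
    refine absurd hlt (not_lt.2 ?_)
    unfold PropD at hnot
    push Not at hnot
    obtain ⟨F, o, h2⟩ := hnot
    set T := univ.filter fun K : Fin s → Finset (Fin n) =>
      (∀ i, (K i).card = o ∧ Disjoint F (K i) ∧ okP M B u (F ∪ K i)) ∧
        ∀ i j, i ≠ j → Disjoint (K i) (K j) with hT
    have h3 : 2 ^ (s * (u + o * L) + F.card * L + a) < T.card * 2 ^ (mm F o) := by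
      convert h2 using 4
    have ho : o ∈ range (n + 1) := by
      rw [mem_range]
      by_contra ho
      push Not at ho
      rcases Nat.eq_zero_or_pos s with hs | hs
      · subst hs
        have h4 : T.card ≤ 1 := by
          refine (Finset.card_le_univ _).trans ?_
          simp
        have h5 : 1 ≤ 2 ^ (0 * (u + o * L) + F.card * L + a) := Nat.one_le_two_pow
        simp only [mm, zero_mul, pow_zero, mul_one, zero_add] at h3 h5
        omega
      · have h4 : T.card = 0 := by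
          rw [Finset.card_eq_zero, hT, Finset.filter_eq_empty_iff]
          intro K _ hK
          have h5 := (hK.1 ⟨0, hs⟩).1
          have h6 := Finset.card_le_univ (K ⟨0, hs⟩)
          rw [Fintype.card_fin] at h6
          omega
        rw [h4, zero_mul] at h3
        exact absurd h3 (Nat.not_lt_zero _)
    have h0 : ∀ (F : Finset (Fin n)) (o : ℕ) (K : Fin s → Finset (Fin n)),
        0 ≤ cc F o * wgt M B (univ.biUnion fun i => prs (F ∪ K i)) := fun F o K =>
      mul_nonneg (hcc F o) (wgt_nonneg _ _ _)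
    have h4 : (1 : ℝ) ≤ ∑ K ∈ TD.TT n s F o,
        cc F o * wgt M B (univ.biUnion fun i => prs (F ∪ K i)) := by
      have h5 : T ⊆ TD.TT n s F o := by
        intro K hK
        rw [hT, mem_filter] at hK
        rw [TD.TT, mem_filter]
        exact ⟨hK.1, fun i => ⟨(hK.2.1 i).1, (hK.2.1 i).2.1⟩, hK.2.2⟩
      have h6 : ∑ K ∈ T, cc F o * (1 / 2 : ℝ) ^ (s * u) ≤
          ∑ K ∈ T, cc F o * wgt M B (univ.biUnion fun i => prs (F ∪ K i)) := by
        refine Finset.sum_le_sum fun K hK => mul_le_mul_of_nonneg_left ?_ (hcc F o)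
        rw [hT, mem_filter] at hK
        exact wgt_biUnion_ge M B u (fun i => F ∪ K i) fun i => (hK.2.1 i).2.2
      have h7 : ∑ K ∈ T, cc F o * wgt M B (univ.biUnion fun i => prs (F ∪ K i)) ≤
          ∑ K ∈ TD.TT n s F o, cc F o * wgt M B (univ.biUnion fun i => prs (F ∪ K i)) :=
        Finset.sum_le_sum_of_subset_of_nonneg h5 fun K _ _ => h0 F o K
      refine le_trans ?_ (h6.trans h7)
      rw [Finset.sum_const, nsmul_eq_mul]
      have h8 : (2 : ℝ) ^ (s * (u + o * L) + F.card * L + a) ≤ (T.card : ℝ) * 2 ^ (mm F o) := by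
        exact_mod_cast h3.le
      show 1 ≤ (T.card : ℝ) * ((2 : ℝ) ^ (s * u) * 2 ^ (mm F o) /
        2 ^ (s * (u + o * L) + F.card * L + a) * (1 / 2 : ℝ) ^ (s * u))
      have h9 : (T.card : ℝ) * ((2 : ℝ) ^ (s * u) * 2 ^ (mm F o) /
          2 ^ (s * (u + o * L) + F.card * L + a) * (1 / 2 : ℝ) ^ (s * u)) =
          ((T.card : ℝ) * 2 ^ (mm F o)) / 2 ^ (s * (u + o * L) + F.card * L + a) *
            ((1 / 2 : ℝ) ^ (s * u) * 2 ^ (s * u)) := by ring
      rw [h9, e1, mul_one, le_div_iff₀ (by positivity), one_mul]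
      exact h8
    refine h4.trans ?_
    calc ∑ K ∈ TD.TT n s F o, cc F o * wgt M B (univ.biUnion fun i => prs (F ∪ K i))
        ≤ ∑ o ∈ range (n + 1), ∑ K ∈ TD.TT n s F o,
            cc F o * wgt M B (univ.biUnion fun i => prs (F ∪ K i)) :=
          Finset.single_le_sum (f := fun o => ∑ K ∈ TD.TT n s F o,
            cc F o * wgt M B (univ.biUnion fun i => prs (F ∪ K i)))
            (fun o _ => Finset.sum_nonneg fun K _ => h0 F o K) ho
      _ ≤ _ :=
          Finset.single_le_sum (f := fun F => ∑ o ∈ range (n + 1), ∑ K ∈ TD.TT n s F o,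
            cc F o * wgt M B (univ.biUnion fun i => prs (F ∪ K i)))
            (fun F _ => Finset.sum_nonneg fun o _ => Finset.sum_nonneg fun K _ => h0 F o K)
            (mem_univ F)

end Pool.Agent.W316.MN
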