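import Mathlib
import Pool.Agent.W316.Cert

set_option autoImplicit false

/-!
Breaker's potential on a finite board.
-/

namespace Pool.Agent.W316.MN

open Finset H761CQ

variable {n : ℕ}

lemma card_prs_univ : (prs (univ : Finset (Fin n))).card = n.choose 2 := by
  rw [TD.card_prs, card_univ, Fintype.card_fin]

lemma mem_prs_univ (e : Sym2 (Fin n)) : e ∈ prs (univ : Finset (Fin n)) ↔ ¬ e.IsDiag := by
  unfold prs
  rw [mem_filter]
  refine ⟨fun h => h.2, fun h => ⟨?_, h⟩⟩
  rw [Finset.mem_sym2_iff]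
  exact fun a _ => mem_univ a

lemma prs_nondiag {K : Finset (Fin n)} {e : Sym2 (Fin n)} (h : e ∈ prs K) : ¬ e.IsDiag :=
  (mem_filter.1 h).2

/-- a free pair -/
lemma exists_free_pair {M B : Finset (Sym2 (Fin n))} (h : (M ∪ B).card < n.choose 2) :
    ∃ g : Sym2 (Fin n), ¬ g.IsDiag ∧ g ∉ M ∧ g ∉ B := by
  have h1 : (prs (univ : Finset (Fin n)) \ (M ∪ B)).Nonempty := by
    rw [← card_pos]
    have h2 := le_card_sdiff (M ∪ B) (prs (univ : Finset (Fin n)))
    rw [card_prs_univ] at h2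
    omega
  obtain ⟨g, hg⟩ := h1
  rw [mem_sdiff, mem_prs_univ, mem_union, not_or] at hg
  exact ⟨g, hg.1, hg.2.1, hg.2.2⟩

lemma two_pow_bound (L : ℕ) (hL : 2 ≤ L) : L + 1 + 1 ≤ 2 ^ L := by
  induction L, hL using Nat.le_induction with
  | base => norm_num
  | succ L hL ih => rw [pow_succ]; omega

/-- Breaker's potential on the board with `2 ^ L` vertices. -/
theorem finite_board {δ : ℝ} {A m1 l : ℕ} (hp : Par δ A m1) (hb : Big δ A m1 l) {k : ℕ}
    (hk1 : (3 / 2 + δ) * (2 * A * l) ≤ k) (hk2 : k ≤ 3 * (2 * A * l)) (hn : n = 2 ^ (2 * A * l)) :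
    ∃ Φ : Finset (Sym2 (Fin n)) → Finset (Sym2 (Fin n)) → ℝ,
      (∀ e, Φ {e} ∅ ≤ 12 * (1 / 2 : ℝ) ^ (3 * (2 * A * l))) ∧
      (∀ M B, Disjoint M B → (M ∪ B).card + 2 ≤ n → Φ M B < 1 →
        ∃ g, ¬ g.IsDiag ∧ g ∉ M ∧ g ∉ B ∧ ∀ e, ¬ e.IsDiag → e ∉ M → e ∉ B → e ≠ g →
          Φ (insert e M) (insert g B) ≤ Φ M B + (1 / 2 : ℝ) ^ (3 * (2 * A * l))) ∧
      (∀ M B, Disjoint M B → ∀ K : Finset (Fin n), K.card = k → prs K ⊆ M → 1 ≤ Φ M B) := by
  classical
  have hAr : (1 : ℝ) ≤ A := by exact_mod_cast hp.hA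
  have hlr : (1000 : ℝ) ≤ l := by exact_mod_cast hb.e0
  have hδ := hp.hδ
  have hδ1 := hp.hδ1
  obtain ⟨L, hL⟩ : ∃ L, L = 2 * A * l := ⟨_, rfl⟩
  have hL2000 : 2000 ≤ L := by
    have h1 := hp.hA
    have h2 := hb.e0
    rw [hL]; nlinarith
  rw [← hL] at hn
  obtain ⟨u, hu⟩ : ∃ u, u = uu δ A l := ⟨_, rfl⟩
  -- the certificates
  obtain ⟨C1, hC1, hC1s, hC1P⟩ := certP n (5 * L) u (L + 1) (3 * L) (by
    have h1 : L + 1 + 1 ≤ 2 ^ L := two_pow_bound L (by omega)
    calc n * (L + 1 + 1) * 2 ^ (3 * L) ≤ 2 ^ L * 2 ^ L * 2 ^ (3 * L) := by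
          rw [hn]
          exact Nat.mul_le_mul_right _ (Nat.mul_le_mul_left _ h1)
      _ = 2 ^ (5 * L) := by rw [← pow_add, ← pow_add]; congr 1; ring)
  obtain ⟨C2, hC2, hC2s, hC2P⟩ := certD n L (3 * L * L + 5 * L) u (5 * L) (by rw [hn])
  set C : Finset (Sym2 (Fin n)) → ℝ := fun P => C1 P + C2 P with hCdef
  have hC : ∀ P, 0 ≤ C P := fun P => add_nonneg (hC1 P) (hC2 P)
  have hpot : ∀ M B, pot C M B = pot C1 M B + pot C2 M B := fun M B => pot_add C1 C2 M B
  have hstart : pot C ∅ ∅ ≤ 6 * (1 / 2 : ℝ) ^ (3 * L) := by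
    rw [hpot]
    have h1 : ((n : ℝ) + 1) ^ 2 * (1 / 2 : ℝ) ^ (5 * L) ≤ 4 * (1 / 2 : ℝ) ^ (3 * L) := by
      have h2 : (n : ℝ) + 1 ≤ 2 * 2 ^ L := by
        rw [hn]; push_cast
        have : (1 : ℝ) ≤ 2 ^ L := one_le_pow₀ (by norm_num)
        linarith
      have h3 : ((n : ℝ) + 1) ^ 2 ≤ (2 * 2 ^ L) ^ 2 := pow_le_pow_left₀ (by positivity) h2 2
      calc ((n : ℝ) + 1) ^ 2 * (1 / 2 : ℝ) ^ (5 * L)
          ≤ (2 * 2 ^ L) ^ 2 * (1 / 2 : ℝ) ^ (5 * L) := mul_le_mul_of_nonneg_right h3 (by positivity)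
        _ = 4 * (1 / 2 : ℝ) ^ (3 * L) * ((2 : ℝ) ^ L * (1 / 2 : ℝ) ^ L) ^ 2 := by
            have : 5 * L = 3 * L + L * 2 := by ring
            rw [this, pow_add, pow_mul (1 / 2 : ℝ) L 2]
            ring
        _ = 4 * (1 / 2 : ℝ) ^ (3 * L) := by
            rw [← mul_pow]; norm_num
    linarith
  refine ⟨fun M B => pot C M B + act u k M B, ?_, ?_, ?_⟩
  · intro e
    beta_reduce
    rw [← hL]
    have h1 : pot C {e} ∅ ≤ 2 * pot C ∅ ∅ := by
      have := pot_first hC (M := ∅) (B := ∅) (e := e) (by simp)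
      simpa using this
    have h2 : act u k {e} ∅ = 0 := by
      apply act_eq_zero
      rw [card_singleton]
      -- `1 + u < k.choose 2`
      have huu := uu_le (l := l) hp
      rw [← hu] at huu
      have h3 : 32768 ≤ (A : ℝ) * δ := by
        have h4 := hp.h1
        have h5 : (1 : ℝ) ≤ m1 := by exact_mod_cast hp.hm1
        have h6 : δ ^ 3 ≤ δ := by nlinarith [pow_pos hδ 3, mul_pos hδ hδ]
        have h7 : (A : ℝ) * δ ^ 3 ≤ A * δ := mul_le_mul_of_nonneg_left h6 (by positivity)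
        linarith
      have h4 : 126 * (A : ℝ) / δ * l ^ 2 ≤ (A * l) ^ 2 := by
        have h5 : 126 * (A : ℝ) / δ ≤ A ^ 2 := by
          rw [div_le_iff₀ hδ]
          nlinarith
        calc 126 * (A : ℝ) / δ * l ^ 2 ≤ A ^ 2 * l ^ 2 :=
              mul_le_mul_of_nonneg_right h5 (by positivity)
          _ = _ := by ring
      have h5 : 3 * ((A : ℝ) * l) ≤ k := by
        refine le_trans ?_ hk1
        have : 0 ≤ δ * (2 * A * l) := by positivity
        nlinarith
      have h6 : (1 : ℝ) + u < (k.choose 2 : ℕ) := by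
        rw [Nat.cast_choose_two]
        have h7 : (1000 : ℝ) ≤ A * l := by nlinarith
        nlinarith
      exact_mod_cast h6
    rw [h2]
    linarith
  · intro M B hMB hcard hlt
    beta_reduce at hlt ⊢
    rw [← hL]
    have hfree : (M ∪ B).card < n.choose 2 := by
      have h1 : 3 ≤ n := by
        rw [hn]
        calc 3 ≤ 2 ^ 2 := by norm_num
          _ ≤ 2 ^ L := Nat.pow_le_pow_right (by norm_num) (by omega)
      have h2 : n ≤ n.choose 2 := by
        rw [Nat.choose_two_right]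
        rw [Nat.le_div_iff_mul_le (by norm_num)]
        exact Nat.mul_le_mul_left _ (by omega)
      omega
    obtain ⟨g0, hg0⟩ := exists_free_pair hfree
    set Fr : Finset (Sym2 (Fin n)) := univ.filter fun g => ¬ g.IsDiag ∧ g ∉ M ∧ g ∉ B with hFr
    obtain ⟨g, hg, hmax⟩ := Fr.exists_max_image (fun g => dang C M B g + dact u k M B g)
      ⟨g0, by rw [hFr, mem_filter]; exact ⟨mem_univ _, hg0⟩⟩
    rw [hFr, mem_filter] at hg
    refine ⟨g, hg.2.1, hg.2.2.1, hg.2.2.2, ?_⟩
    intro e he heM heB heg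
    have hle := hmax e (by rw [hFr, mem_filter]; exact ⟨mem_univ _, he, heM, heB⟩)
    have hs1 := pot_step hC (B := B) (g := g) heM
    have hs2 := act_step u k (B := B) (g := g) heM
    -- the pseudorandomness properties hold after the moves
    have hlt2 : pot C (insert e M) (insert g B) < 1 := by
      have h1 : ∑ K ∈ cand M u k, wgt (insert e M) (insert g B) (prs K) ≤
          act u k M B + dact u k M B e - dact u k M B g := by
        unfold act dact
        rw [← Finset.sum_add_distrib, ← Finset.sum_sub_distrib]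
        exact Finset.sum_le_sum fun K _ => wgt_step heM _
      have h2 : 0 ≤ ∑ K ∈ cand M u k, wgt (insert e M) (insert g B) (prs K) :=
        Finset.sum_nonneg fun _ _ => wgt_nonneg _ _ _
      linarith
    rw [hpot] at hlt2
    have h1 := pot_nonneg hC1 (insert e M) (insert g B)
    have h2 := pot_nonneg hC2 (insert e M) (insert g B)
    have hP := hC1P (insert e M) (insert g B) (by linarith)
    have hD := hC2P (insert e M) (insert g B) (by linarith)
    have hdis : Disjoint (insert e M) (insert g B) := by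
      rw [Finset.disjoint_insert_left, Finset.disjoint_insert_right, mem_insert, not_or]
      exact ⟨⟨heg, heB⟩, hg.2.2.1, hMB⟩
    have hcore := core_pos hp hb (k := k) hdis (by rw [hn, hL]) (by
      have h3 : insert e M ∪ insert g B ⊆ insert e (insert g (M ∪ B)) := by
        intro x
        simp only [mem_union, mem_insert]
        tauto
      have h4 := card_le_card h3
      have h5 := card_insert_le e (insert g (M ∪ B))
      have h6 := card_insert_le g (M ∪ B)
      rw [← hL, ← hn]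
      omega) hk1 hk2 (by rw [← hL, ← hu]; exact hP) (by rw [← hL, ← hu]; exact hD)
    rw [← hL, ← hu] at hcore
    have hnew : ((famP (insert e M) (insert g B) u k).card : ℝ) * (1 / 2 : ℝ) ^ u ≤
        (1 / 2 : ℝ) ^ (3 * L) := by
      have h3 : (2 : ℝ) ^ (3 * L) * (famP (insert e M) (insert g B) u k).card ≤ 2 ^ u := by
        exact_mod_cast hcore.le
      rw [one_div, inv_pow, inv_pow, ← div_eq_mul_inv, div_le_iff₀ (by positivity),
        inv_mul_eq_div, le_div_iff₀ (by positivity), mul_comm]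
      exact h3
    linarith
  · intro M B hMB K hK hKM
    beta_reduce
    have h1 := pot_nonneg hC M B
    have h2 := one_le_act (u := u) hMB hK hKM
    linarith

end Pool.Agent.W316.MN
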