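import Mathlib
import Pool.Agent.W316.Fin
import Pool.Agent.Helper679.CGProof

set_option autoImplicit false

/-!
Breaker on the infinite board: from invariants to strategies, and the transfer of the finite board.
-/

namespace Pool.Agent.W316.MN

open Finset H761CQ Pool.Agent.Helper679.CliqueGame

/-! ### from invariants to strategies -/

lemma mem_split : ∀ (h : List (Sym2 ℕ)) (g : Sym2 ℕ), g ∈ h ↔ g ∈ makerOf h ∨ g ∈ breakerOf h
  | [], g => by simp [makerOf, breakerOf]
  | [e], g => by simp [makerOf, breakerOf]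
  | e :: f :: h, g => by
    have ih := mem_split h g
    simp only [makerOf, breakerOf, List.mem_cons]
    tauto

/-- Breaker's strategy from an invariant. -/
theorem breaker_of_inv (k m : ℕ) (hk : 2 ≤ k)
    (Inv : ℕ → Finset (Sym2 ℕ) → Finset (Sym2 ℕ) → Prop)
    (h0 : ∀ e ∈ board, Inv 0 {e} ∅)
    (hstep : ∀ j M B, Inv j M B → j + 1 < m → ∃ g ∈ board, g ∉ M ∧ g ∉ B ∧
      ∀ e ∈ board, e ∉ M → e ∉ B → e ≠ g → Inv (j + 1) (insert e M) (insert g B))
    (hend : ∀ j M B, Inv j M B → j < m → ∀ K : Finset ℕ, K.card = k →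
      ¬ ∀ u ∈ K, ∀ v ∈ K, u ≠ v → s(u, v) ∈ M) : BreakerPrevents k m := by
  classical
  have hex : ∀ h : List (Sym2 ℕ), ∃ g, g ∈ board ∧ g ∉ h ∧
      ((∃ g', g' ∈ board ∧ g' ∉ (makerOf h).toFinset ∧ g' ∉ (breakerOf h).toFinset ∧
        ∀ e ∈ board, e ∉ (makerOf h).toFinset → e ∉ (breakerOf h).toFinset → e ≠ g' →
          Inv ((breakerOf h).length + 1) (insert e (makerOf h).toFinset)
            (insert g' (breakerOf h).toFinset)) →
        ∀ e ∈ board, e ∉ (makerOf h).toFinset → e ∉ (breakerOf h).toFinset → e ≠ g →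
          Inv ((breakerOf h).length + 1) (insert e (makerOf h).toFinset)
            (insert g (breakerOf h).toFinset)) := by
    intro h
    by_cases hg : ∃ g', g' ∈ board ∧ g' ∉ (makerOf h).toFinset ∧ g' ∉ (breakerOf h).toFinset ∧
        ∀ e ∈ board, e ∉ (makerOf h).toFinset → e ∉ (breakerOf h).toFinset → e ≠ g' →
          Inv ((breakerOf h).length + 1) (insert e (makerOf h).toFinset)
            (insert g' (breakerOf h).toFinset)
    · obtain ⟨g', hb, hM, hB, hI⟩ := hg
      refine ⟨g', hb, ?_, fun _ => hI⟩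
      rw [mem_split h g', not_or]
      rw [List.mem_toFinset] at hM hB
      exact ⟨hM, hB⟩
    · obtain ⟨g, hb, hg'⟩ := exists_free h
      exact ⟨g, hb, hg', fun h' => absurd h' hg⟩
  choose mv hmv using hex
  let β : Strategy :=
    { move := mv
      mem_board := fun h => (hmv h).1
      not_mem := fun h => (hmv h).2.1 }
  refine ⟨β, fun μ => ?_⟩
  have key : ∀ j, j < m →
      Inv j (makerOf (μ.move (hist μ β j) :: hist μ β j)).toFinset
        (breakerOf (μ.move (hist μ β j) :: hist μ β j)).toFinset ∧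
      (breakerOf (μ.move (hist μ β j) :: hist μ β j)).length = j ∧
      (∀ g, g ∈ makerOf (μ.move (hist μ β j) :: hist μ β j) ↔ g ∈ makerEdges μ β (j + 1)) := by
    intro j
    induction j with
    | zero =>
      intro _
      simp only [hist]
      set e := μ.move [] with he
      have heb : e ∈ board := μ.mem_board []
      refine ⟨?_, by simp [breakerOf], ?_⟩
      · have := h0 e heb
        simpa [makerOf, breakerOf] using this
      · intro g
        simp [makerOf, makerEdges, hist, he]
    | succ j ih =>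
      intro hj
      obtain ⟨ih1, ih2, ih3⟩ := ih (by omega)
      set h := μ.move (hist μ β j) :: hist μ β j with hh
      set f := β.move h with hf
      have hhist : hist μ β (j + 1) = f :: h := rfl
      set e := μ.move (f :: h) with he
      rw [hhist]
      have heb : e ∈ board := μ.mem_board _
      have heh : e ∉ f :: h := μ.not_mem _
      have hef : e ≠ f := fun hc => heh (by rw [hc]; simp)
      have heh' : e ∉ h := fun hc => heh (List.mem_cons_of_mem _ hc)
      have hm : makerOf (e :: f :: h) = e :: makerOf h := rfl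
      have hb : breakerOf (e :: f :: h) = f :: breakerOf h := rfl
      rw [mem_split h e, not_or] at heh'
      have hI := (hmv h).2.2 (by
        obtain ⟨g, hg1, hg2, hg3, hg4⟩ := hstep j _ _ ih1 hj
        exact ⟨g, hg1, hg2, hg3, by rw [ih2]; exact hg4⟩) e heb
        (by rw [List.mem_toFinset]; exact heh'.1) (by rw [List.mem_toFinset]; exact heh'.2) hef
      rw [ih2] at hI
      rw [hm, hb]
      refine ⟨?_, by rw [List.length_cons, ih2], ?_⟩
      · rw [List.toFinset_cons, List.toFinset_cons]
        exact hI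
      · intro g
        rw [List.mem_cons, ih3 g]
        simp only [makerEdges, Set.mem_ofPred_eq]
        constructor
        · rintro (rfl | ⟨i, hi, rfl⟩)
          · exact ⟨j + 1, by omega, by rw [hhist]⟩
          · exact ⟨i, by omega, rfl⟩
        · rintro ⟨i, hi, rfl⟩
          rcases Nat.lt_succ_iff_lt_or_eq.1 hi with hi | rfl
          · exact Or.inr ⟨i, hi, rfl⟩
          · exact Or.inl (by rw [hhist])
  rcases Nat.eq_zero_or_pos m with rfl | hm
  · have h1 : makerGraph μ β 0 = ⊥ := by
      have : makerEdges μ β 0 = ∅ := by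
        ext e; simp [makerEdges]
      rw [makerGraph, this, SimpleGraph.fromEdgeSet_empty]
    rw [h1]
    exact SimpleGraph.cliqueFree_bot hk
  · obtain ⟨j, rfl⟩ : ∃ j, m = j + 1 := ⟨m - 1, by omega⟩
    obtain ⟨k1, -, k3⟩ := key j (by omega)
    intro K hK
    rw [SimpleGraph.isNClique_iff, SimpleGraph.isClique_iff] at hK
    obtain ⟨hK1, hK2⟩ := hK
    refine hend j _ _ k1 (by omega) K hK2 ?_
    intro u hu v hv huv
    rw [List.mem_toFinset, k3]
    have := hK1 hu hv huv
    rw [makerGraph, SimpleGraph.fromEdgeSet_adj] at this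
    exact this.1

/-! ### relabelling -/

lemma relabel_one {n : ℕ} (tr : Fin n ↪ ℕ) (T : Finset (Fin n)) (hT : T.card < n) (x : ℕ) :
    ∃ (tr' : Fin n ↪ ℕ) (a : Fin n), (∀ b ∈ T, tr' b = tr b) ∧ tr' a = x := by
  classical
  by_cases hx : ∃ a, tr a = x
  · obtain ⟨a, ha⟩ := hx
    exact ⟨tr, a, fun _ _ => rfl, ha⟩
  · push Not at hx
    obtain ⟨a, ha⟩ : ∃ a, a ∉ T := by
      by_contra hcon
      push Not at hcon
      have h1 : T = univ := by ext a; simp [hcon a]
      rw [h1, card_univ, Fintype.card_fin] at hT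
      exact lt_irrefl _ hT
    refine ⟨⟨fun b => if b = a then x else tr b, ?_⟩, a, ?_, ?_⟩
    · intro b c hbc
      simp only at hbc
      by_cases hb : b = a <;> by_cases hc : c = a
      · rw [hb, hc]
      · rw [if_pos hb, if_neg hc] at hbc
        exact absurd hbc.symm (hx c)
      · rw [if_neg hb, if_pos hc] at hbc
        exact absurd hbc (hx b)
      · rw [if_neg hb, if_neg hc] at hbc
        exact tr.injective hbc
    · intro b hb
      have hba : b ≠ a := fun h => ha (h ▸ hb)
      simp [hba]
    · simp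

lemma relabel_two {n : ℕ} (tr : Fin n ↪ ℕ) (T : Finset (Fin n)) (hT : T.card + 1 < n)
    (x y : ℕ) : ∃ (tr' : Fin n ↪ ℕ) (a b : Fin n), (∀ c ∈ T, tr' c = tr c) ∧ tr' a = x ∧
      tr' b = y := by
  classical
  obtain ⟨tr1, a, h1, h2⟩ := relabel_one tr T (by omega) x
  obtain ⟨tr2, b, h3, h4⟩ := relabel_one tr1 (insert a T) (by
    have := card_insert_le a T
    omega) y
  refine ⟨tr2, a, b, fun c hc => ?_, ?_, h4⟩
  · rw [h3 c (mem_insert_of_mem hc), h1 c hc]
  · rw [h3 a (mem_insert_self _ _), h2]

/-- vertices of a set of pairs -/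
def vts {V : Type*} [DecidableEq V] (M : Finset (Sym2 V)) : Finset V :=
  M.biUnion Sym2.toFinset

lemma mem_vts {V : Type*} [DecidableEq V] {M : Finset (Sym2 V)} {e : Sym2 V} (he : e ∈ M) {v : V}
    (hv : v ∈ e) : v ∈ vts M := by
  unfold vts
  rw [mem_biUnion]
  exact ⟨e, he, by rwa [Sym2.mem_toFinset]⟩

lemma card_vts_le {V : Type*} [DecidableEq V] (M : Finset (Sym2 V)) :
    (vts M).card ≤ 2 * M.card := by
  unfold vts
  have h : ∀ e : Sym2 V, e.toFinset.card ≤ 2 := by
    intro e
    by_cases hd : e.IsDiag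
    · rw [Sym2.card_toFinset_of_isDiag e hd]; norm_num
    · rw [Sym2.card_toFinset_of_not_isDiag e hd]
  calc (M.biUnion Sym2.toFinset).card ≤ ∑ e ∈ M, e.toFinset.card := card_biUnion_le
    _ ≤ ∑ _e ∈ M, 2 := Finset.sum_le_sum fun e _ => h e
    _ = 2 * M.card := by rw [Finset.sum_const, smul_eq_mul, mul_comm]

lemma map_congr_on {n : ℕ} {tr tr' : Fin n → ℕ} {T : Finset (Fin n)}
    (h : ∀ c ∈ T, tr' c = tr c) {e : Sym2 (Fin n)} (he : ∀ v ∈ e, v ∈ T) :
    Sym2.map tr' e = Sym2.map tr e := by
  induction e using Sym2.ind with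
  | _ a b =>
    rw [Sym2.map_mk, Sym2.map_mk]
    rw [h a (he a (by simp)), h b (he b (by simp))]

lemma image_congr_on {n : ℕ} {tr tr' : Fin n → ℕ} {T : Finset (Fin n)}
    (h : ∀ c ∈ T, tr' c = tr c) {M : Finset (Sym2 (Fin n))} (hM : vts M ⊆ T) :
    M.image (Sym2.map tr') = M.image (Sym2.map tr) :=
  Finset.image_congr fun _ he => map_congr_on h fun _ hv => hM (mem_vts he hv)

/-! ### Breaker's bound -/

theorem breaker_wins {δ : ℝ} {A m1 l : ℕ} (hp : Par δ A m1) (hb : Big δ A m1 l) {k m : ℕ}
    (hk1 : (3 / 2 + δ) * (2 * A * l) ≤ k) (hk2 : k ≤ 3 * (2 * A * l))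
    (hm : 8 * m ≤ 2 ^ (2 * A * l)) : BreakerPrevents k m := by
  classical
  obtain ⟨L, hL⟩ : ∃ L, L = 2 * A * l := ⟨_, rfl⟩
  have hL2000 : 2000 ≤ L := by
    have h1 := hp.hA
    have h2 := hb.e0
    rw [hL]; nlinarith
  obtain ⟨n, hn⟩ : ∃ n, n = 2 ^ (2 * A * l) := ⟨_, rfl⟩
  obtain ⟨Φ, hΦ0, hΦs, hΦe⟩ := finite_board hp hb hk1 hk2 hn
  have hn2000 : 2000 ≤ n := by
    rw [hn, ← hL]
    exact hL2000.trans Nat.lt_two_pow_self.le
  have hk0 : 2 ≤ k := by
    have h1 : (1 : ℝ) ≤ A := by exact_mod_cast hp.hA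
    have h2 : (1000 : ℝ) ≤ l := by exact_mod_cast hb.e0
    have h3 : (2 : ℝ) ≤ k := by
      refine le_trans ?_ hk1
      have hδ := hp.hδ
      have h4 : (1000 : ℝ) ≤ A * l := by nlinarith
      have h5 : 0 ≤ δ * (2 * A * l) := by positivity
      nlinarith
    exact_mod_cast h3
  rw [← hL] at hΦ0 hΦs
  rw [← hn] at hm
  -- small numbers
  have hsmall : ∀ j : ℕ, j < m → (12 + (j : ℝ)) * (1 / 2 : ℝ) ^ (3 * L) < 1 := by
    intro j hj
    have h1 : (12 + (j : ℝ)) < 2 ^ (3 * L) := by
      have h2 : 12 + j < 2 ^ (3 * L) := by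
        have h3 : 12 + j < n := by omega
        have h4 : n ≤ 2 ^ (3 * L) := by
          rw [hn, ← hL]
          exact Nat.pow_le_pow_right (by norm_num) (by omega)
        omega
      exact_mod_cast h2
    rw [one_div, inv_pow, ← div_eq_mul_inv, div_lt_one (by positivity)]
    exact h1
  refine breaker_of_inv k m hk0 (fun j Mk Bk => ∃ (tr : Fin n ↪ ℕ) (M B : Finset (Sym2 (Fin n))),
    Mk = M.image (Sym2.map tr) ∧ Bk = B.image (Sym2.map tr) ∧ Disjoint M B ∧ M.card = j + 1 ∧
    B.card = j ∧ (∀ e ∈ M, ¬ e.IsDiag) ∧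
    Φ M B ≤ (12 + (j : ℝ)) * (1 / 2 : ℝ) ^ (3 * L)) ?_ ?_ ?_
  · intro e he
    have hn0 : 0 < n := by omega
    obtain ⟨tr0⟩ : Nonempty (Fin n ↪ ℕ) := ⟨⟨Fin.val, Fin.val_injective⟩⟩
    induction e using Sym2.ind with
    | _ x y =>
    have hxy : x ≠ y := by
      rw [mem_board_iff] at he
      simpa using he
    obtain ⟨tr, a, b, -, ha, hb'⟩ := relabel_two tr0 ∅ (by rw [card_empty]; omega) x y
    have hab : a ≠ b := by
      rintro rfl
      exact hxy (ha.symm.trans hb')
    refine ⟨tr, {s(a, b)}, ∅, ?_, by simp, by simp, by simp, by simp, ?_, ?_⟩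
    · simp [ha, hb']
    · intro e he
      rw [mem_singleton] at he
      subst he
      simpa using hab
    · have := hΦ0 s(a, b)
      simpa using this
  · rintro j Mk Bk ⟨tr, M, B, rfl, rfl, hMB, hMc, hBc, hMd, hΦ⟩ hj
    have hcard : (M ∪ B).card + 2 ≤ n := by
      have := card_union_le M B
      omega
    obtain ⟨g, hgd, hgM, hgB, hg⟩ := hΦs M B hMB hcard (hΦ.trans_lt (hsmall j (by omega)))
    have hinj : Function.Injective (Sym2.map tr) := Sym2.map.injective tr.injective
    have hgb : Sym2.map tr g ∈ board := by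
      rw [mem_board_iff]
      induction g using Sym2.ind with
      | _ a b =>
        rw [Sym2.map_mk, Sym2.mk_isDiag_iff]
        rw [Sym2.mk_isDiag_iff] at hgd
        exact fun h => hgd (tr.injective h)
    refine ⟨Sym2.map tr g, hgb, ?_, ?_, ?_⟩
    · rw [hinj.mem_finset_image]; exact hgM
    · rw [hinj.mem_finset_image]; exact hgB
    · intro e he heM heB heg
      induction e using Sym2.ind with
      | _ x y =>
      have hxy : x ≠ y := by
        rw [mem_board_iff] at he
        simpa using he
      set T : Finset (Fin n) := vts (insert g (M ∪ B)) with hT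
      have hTc : T.card + 1 < n := by
        have h1 := card_vts_le (insert g (M ∪ B))
        have h2 := card_insert_le g (M ∪ B)
        have h3 := card_union_le M B
        rw [← hT] at h1
        omega
      obtain ⟨tr', a, b, htr, ha, hb'⟩ := relabel_two tr T hTc x y
      have hab : a ≠ b := by
        rintro rfl
        exact hxy (ha.symm.trans hb')
      have hvM : vts M ⊆ T := by
        intro v hv
        unfold vts at hv
        rw [mem_biUnion] at hv
        obtain ⟨f, hf, hvf⟩ := hv
        exact mem_vts (mem_insert_of_mem (mem_union_left _ hf)) (Sym2.mem_toFinset.1 hvf)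
      have hvB : vts B ⊆ T := by
        intro v hv
        unfold vts at hv
        rw [mem_biUnion] at hv
        obtain ⟨f, hf, hvf⟩ := hv
        exact mem_vts (mem_insert_of_mem (mem_union_right _ hf)) (Sym2.mem_toFinset.1 hvf)
      have hMi : M.image (Sym2.map tr') = M.image (Sym2.map tr) := image_congr_on htr hvM
      have hBi : B.image (Sym2.map tr') = B.image (Sym2.map tr) := image_congr_on htr hvB
      have hgi : Sym2.map tr' g = Sym2.map tr g :=
        map_congr_on htr fun v hv => mem_vts (mem_insert_self _ _) hv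
      have hei : Sym2.map tr' s(a, b) = s(x, y) := by rw [Sym2.map_mk, ha, hb']
      have hinj' : Function.Injective (Sym2.map tr') := Sym2.map.injective tr'.injective
      have heM' : s(a, b) ∉ M := by
        intro h
        apply heM
        rw [← hMi, ← hei]
        exact mem_image_of_mem _ h
      have heB' : s(a, b) ∉ B := by
        intro h
        apply heB
        rw [← hBi, ← hei]
        exact mem_image_of_mem _ h
      have heg' : s(a, b) ≠ g := by
        intro h
        apply heg
        rw [← hgi, ← hei, h]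
      refine ⟨tr', insert s(a, b) M, insert g B, ?_, ?_, ?_, ?_, ?_, ?_, ?_⟩
      · rw [image_insert, hei, hMi]
      · rw [image_insert, hgi, hBi]
      · rw [Finset.disjoint_insert_left, Finset.disjoint_insert_right, mem_insert, not_or]
        exact ⟨⟨heg', heB'⟩, hgM, hMB⟩
      · rw [card_insert_of_notMem heM', hMc]
      · rw [card_insert_of_notMem hgB, hBc]
      · intro f hf
        rcases mem_insert.1 hf with rfl | hf
        · simpa using hab
        · exact hMd f hf
      · have h1 := hg s(a, b) (by simpa using hab) heM' heB' heg'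
        push_cast
        nlinarith
  · rintro j Mk Bk ⟨tr, M, B, rfl, rfl, hMB, hMc, hBc, hMd, hΦ⟩ hj K hK hKM
    -- the clique is labelled
    have hlab : ∀ v ∈ K, ∃ a, tr a = v := by
      intro v hv
      obtain ⟨w, hw, hwv⟩ := Finset.exists_mem_ne (by omega : 1 < K.card) v
      have h1 := hKM v hv w hw (Ne.symm hwv)
      rw [mem_image] at h1
      obtain ⟨f, -, hf⟩ := h1
      have h2 : v ∈ Sym2.map tr f := by rw [hf]; simp
      rw [Sym2.mem_map] at h2
      obtain ⟨a, -, ha⟩ := h2
      exact ⟨a, ha⟩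
    set K' : Finset (Fin n) := univ.filter fun a => tr a ∈ K with hK'
    have hKi : K'.image tr = K := by
      ext v
      rw [mem_image]
      constructor
      · rintro ⟨a, ha, rfl⟩
        exact (mem_filter.1 ha).2
      · intro hv
        obtain ⟨a, rfl⟩ := hlab v hv
        exact ⟨a, mem_filter.2 ⟨mem_univ _, hv⟩, rfl⟩
    have hK'c : K'.card = k := by
      rw [← hK, ← hKi, card_image_of_injective _ tr.injective]
    have hK'M : prs K' ⊆ M := by
      intro f hf
      induction f using Sym2.ind with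
      | _ a b =>
      rw [TD.mem_prs] at hf
      obtain ⟨ha, hb', hab⟩ := hf
      rw [hK', mem_filter] at ha hb'
      have h1 := hKM _ ha.2 _ hb'.2 (fun h => hab (tr.injective h))
      rw [← Sym2.map_mk, (Sym2.map.injective tr.injective).mem_finset_image] at h1
      exact h1
    have h1 := hΦe M B hMB K' hK'c hK'M
    have h2 := hsmall j hj
    linarith

end Pool.Agent.W316.MN
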