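import Mathlib
import Pool.Agent.W316.Inf

set_option autoImplicit false

/-!
The lower bound for the move number.
-/

namespace Pool.Agent.W316.MN

open Finset Filter H761CQ Pool.Agent.Helper679.CliqueGame

/-- Breaker prevents a `k`-clique during the first `2 ^ ((2 / 3 - ε) k)` moves. -/
theorem lower_asym (ε : ℝ) (hε : 0 < ε) :
    ∀ᶠ k : ℕ in atTop, ∀ m : ℕ, (m : ℝ) ≤ 2 ^ ((2 / 3 - ε) * k) → BreakerPrevents k m := by
  set δ : ℝ := min (1 / 2) ε with hδdef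
  have hδ : 0 < δ := lt_min (by norm_num) hε
  have hδ1 : δ ≤ 1 / 2 := min_le_left _ _
  have hδε : δ ≤ ε := min_le_right _ _
  obtain ⟨A, m1, hp⟩ := exists_par δ hδ (by linarith)
  have hA : (1 : ℝ) ≤ A := by exact_mod_cast hp.hA
  have hbig := ev_big hp
  set κ : ℝ := 1 / ((3 / 2 + δ) * (2 * A)) with hκ
  have hκ0 : 0 < κ := by positivity
  have htend : Tendsto (fun k : ℕ => ⌊κ * k⌋₊) atTop atTop :=
    tendsto_nat_floor_atTop.comp ((tendsto_natCast_atTop_atTop (R := ℝ)).const_mul_atTop hκ0)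
  have h1 := htend.eventually hbig
  have h2 : ∀ᶠ k : ℕ in atTop, (18 * A + (2 * A + 3) / (5 / 9 * ε) : ℝ) ≤ (k : ℝ) :=
    tendsto_natCast_atTop_atTop.eventually (eventually_ge_atTop _)
  filter_upwards [h1, h2] with k hb hk m hm
  set l := ⌊κ * k⌋₊ with hl
  have hk0 : (0 : ℝ) ≤ k := Nat.cast_nonneg k
  have hl1 : (l : ℝ) ≤ κ * k := Nat.floor_le (by positivity)
  have hl2 : κ * k < l + 1 := Nat.lt_floor_add_one _
  have hq1 : (18 * A : ℝ) ≤ k := by
    have : 0 ≤ (2 * A + 3) / (5 / 9 * ε) := by positivity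
    linarith
  have hq2 : (2 * A + 3 : ℝ) ≤ 5 / 9 * ε * k := by
    have h3 : (2 * A + 3) / (5 / 9 * ε) ≤ (k : ℝ) := by linarith
    rw [div_le_iff₀ (by positivity)] at h3
    linarith
  have hκA : κ * (2 * A) = 1 / (3 / 2 + δ) := by
    rw [hκ]; field_simp
  have hinv : 2 / 3 - 4 / 9 * δ ≤ 1 / (3 / 2 + δ) := by
    rw [le_div_iff₀ (by positivity)]
    nlinarith
  have hL : (2 / 3 - 4 / 9 * δ) * k - 2 * A ≤ 2 * A * l := by
    have h3 : κ * k * (2 * A) ≤ (l + 1) * (2 * A) :=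
      mul_le_mul_of_nonneg_right hl2.le (by positivity)
    have h4 : κ * k * (2 * A) = 1 / (3 / 2 + δ) * k := by rw [← hκA]; ring
    have h5 : (2 / 3 - 4 / 9 * δ) * k ≤ 1 / (3 / 2 + δ) * k :=
      mul_le_mul_of_nonneg_right hinv hk0
    linarith
  have hk1 : (3 / 2 + δ) * (2 * A * l) ≤ k := by
    have h3 : (3 / 2 + δ) * (2 * A * l) ≤ (3 / 2 + δ) * (2 * A * (κ * k)) := by gcongr
    have h4 : (3 / 2 + δ) * (2 * A * (κ * k)) = k := by
      rw [hκ]; field_simp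
    linarith
  have hk2 : k ≤ 3 * (2 * A * l) := by
    have h3 : (k : ℝ) ≤ 3 * (2 * A * l) := by
      have h4 : 4 / 9 * (k : ℝ) ≤ (2 / 3 - 4 / 9 * δ) * k := by
        apply mul_le_mul_of_nonneg_right _ hk0
        linarith
      linarith
    exact_mod_cast h3
  refine breaker_wins hp hb hk1 hk2 ?_
  have h3 : (2 / 3 - ε) * k + 3 ≤ ((2 * A * l : ℕ) : ℝ) := by
    push_cast
    have h4 : (2 / 3 - 4 / 9 * ε) * (k : ℝ) ≤ (2 / 3 - 4 / 9 * δ) * k := by
      apply mul_le_mul_of_nonneg_right _ hk0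
      linarith
    have h5 : (2 / 3 - 4 / 9 * ε) * (k : ℝ) = (2 / 3 - ε) * k + 5 / 9 * ε * k := by ring
    linarith
  have h4 : 8 * (m : ℝ) ≤ 2 ^ (2 * A * l) := by
    calc 8 * (m : ℝ) ≤ 8 * 2 ^ ((2 / 3 - ε) * k) := by linarith
      _ = 2 ^ ((2 / 3 - ε) * k + 3) := by
          rw [Real.rpow_add (by norm_num)]
          norm_num
          ring
      _ ≤ 2 ^ (((2 * A * l : ℕ) : ℝ)) := Real.rpow_le_rpow_of_exponent_le (by norm_num) h3
      _ = 2 ^ (2 * A * l) := Real.rpow_natCast _ _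
  exact_mod_cast h4

end Pool.Agent.W316.MN
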