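import Mathlib
import Pool.Agent.Helper340.MB.Asym

set_option autoImplicit false
set_option linter.unusedVariables false
set_option linter.unusedSectionVars false
set_option linter.unusedSimpArgs false

/-!
The clique game of `Pool.Agent.Helper340.MB`, when Breaker owns some edges at the start.
-/

namespace Pool.Agent.W316.MkPre

open Finset Filter Pool.Agent.Helper340.MB Pool.Agent.Helper340.TwoEdges

section start
variable {V : Type*} [DecidableEq V] {q n : ℕ} [NeZero n]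

/-- few transversals contain a given pair -/
lemma count_pair (D : Dat q n V) (z : Sym2 V) :
    ((univ : Finset (Fin q → Fin n)).filter fun φ => z ∈ es D.e univ φ).card ≤ n ^ (q - 2) := by
  classical
  by_cases h : ∃ φ : Fin q → Fin n, z ∈ es D.e univ φ
  · obtain ⟨φ₀, h0⟩ := h
    obtain ⟨p, hp, hz⟩ := mem_es.mp h0
    have hpl : p.1 < p.2 := (mem_prs.mp hp).2.2
    set κ0 : Lv q n := fun _ => none with hκ0
    have hcomp : Comp p.1 p.2 (φ₀ p.1) (φ₀ p.2) κ0 := ⟨Or.inl rfl, Or.inl rfl, Or.inl rfl⟩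
    set κ := extl p.1 p.2 (φ₀ p.1) (φ₀ p.2) κ0 with hκ
    have hdom0 : dom κ0 = ∅ := by
      unfold dom
      rw [filter_eq_empty_iff]
      intro i _
      simp [hκ0]
    have hdom : (dom κ).card = 2 := by
      rw [hκ, dom_extl hpl hcomp, hdom0, empty_union, card_pair hpl.ne]
    have hsub : ((univ : Finset (Fin q → Fin n)).filter fun φ => z ∈ es D.e univ φ) ⊆ lmm κ := by
      intro φ hφ
      rw [mem_filter] at hφ
      obtain ⟨p', hp', hz'⟩ := mem_es.mp hφ.2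
      obtain ⟨rfl, h4, h5⟩ := ed_inj D.he (mem_prs.mp hp').2.2 hpl (hz'.trans hz.symm)
      unfold lmm
      rw [mem_filter]
      refine ⟨mem_univ _, ?_⟩
      intro i hi
      rw [hκ, dom_extl hpl hcomp, hdom0, empty_union, mem_insert, mem_singleton] at hi
      rcases hi with rfl | rfl
      · rw [h4]
        exact ((dom_of_some (extl_a hpl (φ₀ p'.1) (φ₀ p'.2) κ0)).2).symm
      · rw [h5]
        exact ((dom_of_some (extl_v p'.1 p'.2 (φ₀ p'.1) (φ₀ p'.2) κ0)).2).symm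
    refine (card_le_card hsub).trans ?_
    rw [card_lmm, hdom]
  · push Not at h
    have : ((univ : Finset (Fin q → Fin n)).filter fun φ => z ∈ es D.e univ φ) = ∅ := by
      rw [filter_eq_empty_iff]
      intro φ _
      exact h φ
    rw [this, card_empty]
    exact Nat.zero_le _

lemma T_pre (D : Dat q n V) (hq : 2 ≤ q) (B₀ : Finset (Sym2 V)) (hB : 8 * B₀.card ≤ n ^ 2) :
    7 / 8 * Tr q n D.sys.c ≤ D.sys.T ∅ B₀ univ := by
  classical
  have hc := D.sys.c_gt
  set good := (univ : Finset (Fin q → Fin n)).filter fun φ => Disjoint (es D.e univ φ) B₀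
    with hgood
  have hbad : ((univ : Finset (Fin q → Fin n)).filter
      fun φ => ¬ Disjoint (es D.e univ φ) B₀).card ≤ B₀.card * n ^ (q - 2) := by
    have hsub : ((univ : Finset (Fin q → Fin n)).filter
        fun φ => ¬ Disjoint (es D.e univ φ) B₀) ⊆
        B₀.biUnion fun z => (univ : Finset (Fin q → Fin n)).filter fun φ => z ∈ es D.e univ φ := by
      intro φ hφ
      rw [mem_filter, Finset.not_disjoint_iff] at hφ
      obtain ⟨_, z, hz, hzB⟩ := hφ
      rw [mem_biUnion]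
      exact ⟨z, hzB, mem_filter.mpr ⟨mem_univ _, hz⟩⟩
    refine (card_le_card hsub).trans (card_biUnion_le_card_mul _ _ _ fun z _ => count_pair D z)
  have hsum : good.card + ((univ : Finset (Fin q → Fin n)).filter
      fun φ => ¬ Disjoint (es D.e univ φ) B₀).card = n ^ q := by
    rw [hgood, Finset.card_filter_add_card_filter_not, card_univ]
    simp
  have hgc : 7 * n ^ q ≤ 8 * good.card := by
    have h1 : 8 * (B₀.card * n ^ (q - 2)) ≤ n ^ q := by
      calc 8 * (B₀.card * n ^ (q - 2)) = 8 * B₀.card * n ^ (q - 2) := by ring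
        _ ≤ n ^ 2 * n ^ (q - 2) := Nat.mul_le_mul_right _ hB
        _ = n ^ q := by rw [← pow_add]; congr 1; omega
    omega
  have h1 : (good.card : ℝ) * (1 / D.sys.c) ^ (q.choose 2) ≤ D.sys.T ∅ B₀ univ := by
    unfold Sys.T
    rw [← nsmul_eq_mul, ← Finset.sum_const]
    refine (Finset.sum_le_sum fun φ hφ => ?_).trans
      (Finset.sum_le_sum_of_subset_of_nonneg (subset_univ good) fun φ _ _ =>
        D.sys.T1_nonneg ∅ B₀ φ)
    rw [hgood, mem_filter] at hφ
    unfold Sys.T1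
    have h2 : (D.sys.A φ).card = q.choose 2 := by
      show (es D.e univ φ).card = q.choose 2
      rw [card_es D.he, card_univ, Fintype.card_fin]
    have h3 : pw D.sys.c ∅ B₀ (D.sys.A φ) = (1 / D.sys.c) ^ (q.choose 2) := by
      unfold pw
      rw [if_pos (show Disjoint (D.sys.A φ) B₀ from hφ.2), sdiff_empty, h2]
    rw [h3]
    have h4 : (1 : ℝ) ≤ Real.exp (D.sys.η * ss D.sys.c ∅ (D.sys.stA φ)) := by
      rw [Real.one_le_exp_iff]
      exact mul_nonneg D.sys.η_pos.le (ss_nonneg D.sys.c_gt _ _)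
    have h5 : (0 : ℝ) ≤ (1 / D.sys.c) ^ (q.choose 2) := by
      have := D.sys.c_gt
      positivity
    nlinarith
  refine le_trans ?_ h1
  unfold Tr
  have h2 : 7 / 8 * (n : ℝ) ^ q ≤ good.card := by
    have h3 : (7 : ℝ) * (n : ℝ) ^ q ≤ 8 * good.card := by exact_mod_cast hgc
    linarith
  have h5 : (0 : ℝ) ≤ (1 / D.sys.c) ^ (q.choose 2) := by
    positivity
  calc 7 / 8 * ((n : ℝ) ^ q * (1 / D.sys.c) ^ (q.choose 2))
      = 7 / 8 * (n : ℝ) ^ q * (1 / D.sys.c) ^ (q.choose 2) := by ring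
    _ ≤ _ := mul_le_mul_of_nonneg_right h2 h5

lemma pw_anti {c : ℝ} (hc : 1 < c) {E : Type*} [DecidableEq E] (X Y S : Finset E) :
    pw c X Y S ≤ pw c X ∅ S := by
  unfold pw
  rw [if_pos (disjoint_empty_right S)]
  split_ifs
  · exact le_rfl
  · have : 0 < c := by linarith
    positivity

lemma G_pre (D : Dat q n V) (B₀ : Finset (Sym2 V)) :
    D.sys.G ∅ B₀ univ ≤ D.sys.G ∅ ∅ univ := by
  have hc := D.sys.c_gt
  unfold Sys.G
  refine Finset.sum_le_sum fun κ _ => ?_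
  unfold Sys.g
  refine mul_le_mul_of_nonneg_left ?_ (D.sys.lam_nonneg κ)
  have h1 : D.sys.w ∅ B₀ κ ≤ D.sys.w ∅ ∅ κ := by
    unfold Sys.w
    exact mul_le_mul_of_nonneg_right (pw_anti hc _ _ _) (Real.exp_pos _).le
  have h2 : D.sys.V ∅ B₀ univ κ ≤ D.sys.V ∅ ∅ univ κ := by
    unfold Sys.V
    refine Finset.sum_le_sum fun φ _ => ?_
    unfold Sys.vv
    exact pw_anti hc _ _ _
  exact mul_le_mul h1 (pow_le_pow_left₀ (D.sys.V_nonneg _ _ _ _) h2 2) (sq_nonneg _)
    (D.sys.w_nonneg _ _ _)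

/-- Maker wins the `(m:b)` game on a board containing all edges of the `q`-partite graph, as soon
as the numerical conditions hold. -/
theorem start_forces_pre (D : Dat q n V) (B₀ : Finset (Sym2 V)) (hB₀ : 8 * B₀.card ≤ n ^ 2)
    (Bd : Finset (Sym2 V)) (goal : Finset (Sym2 V) → Prop)
    (hA : ∀ φ, es D.e univ φ ⊆ Bd) (hgoal : ∀ φ M, es D.e univ φ ⊆ M → goal M)
    (l3 R : ℝ) (hl : D.l = fun i => l3 * R ^ (i - 3)) (hl3 : 0 < l3) (hR : 1 ≤ R)
    (hq : 5 ≤ q)
    (hR1 : D.sys.C3 * (3 * (1 / R)) ≤ D.η / 4)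
    (hR2 : D.sys.C3 * (3 * (1 / R)) ≤ (D.sys.c - 1) * (D.η / 4))
    (h3 : l3 * R ^ (q - 3) ≤ 1)
    (h4 : 4 * ((Bd.card : ℝ) * ((D.sys.C1 + D.sys.C2) * (D.sys.NN ^ 2
      * Real.exp (3 * (D.η * q))))) ≤ l3 * Tr q n D.sys.c)
    (h5 : Tr q n D.sys.c * (l3 * ∑ i ∈ Ico 3 q, (q.choose i : ℝ)
      * R ^ (i - 3) * (D.sys.c ^ (i.choose 2) / (n : ℝ) ^ i)) ≤ 1 / 2) :
    Forces D.m D.b Bd goal ∅ B₀ := by
  have hc := D.sys.c_gt
  have hT := Tr_pos (q := q) (n := n) hc
  have hR0 : 0 < R := by linarith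
  have hC1 : 0 ≤ D.sys.C1 := by unfold Sys.C1; have := D.sys.bpos; linarith
  have hC2 := D.sys.C2_nonneg
  set Cap := Real.exp (3 * (D.η * q)) / l3 with hCap
  have hCap0 : 0 ≤ Cap := by positivity
  set loss := (D.sys.C1 + D.sys.C2) * (D.sys.NN ^ 2 * Cap) with hloss
  have hloss0 : 0 ≤ loss := by positivity
  have hchain := D.chain (ρ := 1 / R) (by positivity)
    (by
      intro i j hi hij hj
      rw [hl]
      show l3 * R ^ (i - 3) ≤ 1 / R * (l3 * R ^ (j - 3))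
      have h6 : R ^ (i - 3) * R ≤ R ^ (j - 3) := by
        rw [← pow_succ]
        exact pow_le_pow_right₀ hR (by omega)
      have h7 := mul_le_mul_of_nonneg_left h6 hl3.le
      rw [one_div, ← mul_assoc, mul_comm R⁻¹ l3, mul_assoc]
      have h8 : R ^ (i - 3) ≤ R⁻¹ * R ^ (j - 3) := by
        rw [inv_mul_eq_div, le_div_iff₀ hR0]
        exact h6
      exact mul_le_mul_of_nonneg_left h8 hl3.le)
    (by
      intro i hi hiq
      rw [hl]
      show l3 * R ^ (i - 3) ≤ 1 / R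
      rw [le_div_iff₀ hR0, mul_assoc, ← pow_succ]
      have h6 : R ^ (i - 3 + 1) ≤ R ^ (q - 3) := pow_le_pow_right₀ hR (by omega)
      exact (mul_le_mul_of_nonneg_left h6 hl3.le).trans h3)
  have hG := (G_pre D B₀).trans (G_start D l3 R hl hl3 hR)
  have hTs := T_pre D (by omega) B₀ hB₀
  refine forces_of_pot D.sys Bd goal hA hgoal hchain (by positivity) hR1 hR2
    (fun X Y F hcl z z' hne => D.cap hl3 (by
      intro i hi _
      rw [hl]
      show l3 ≤ l3 * R ^ (i - 3)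
      have h6 : 1 ≤ R ^ (i - 3) := one_le_pow₀ hR
      nlinarith) hq hcl z z' hne) hCap0 (le_of_eq rfl) hloss0 (Bd \ (∅ ∪ B₀)).card ∅ B₀ univ rfl
    (disjoint_empty_left _) ?_
  have hle : (((Bd \ (∅ ∪ B₀)).card : ℕ) : ℝ) * loss ≤ (Bd.card : ℝ) * loss := by
    refine mul_le_mul_of_nonneg_right ?_ hloss0
    exact_mod_cast card_le_card sdiff_subset
  have h6 : (Bd.card : ℝ) * loss ≤ Tr q n D.sys.c / 4 := by
    have h7 : (Bd.card : ℝ) * loss = (Bd.card : ℝ) * ((D.sys.C1 + D.sys.C2) * (D.sys.NN ^ 2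
      * Real.exp (3 * (D.η * q)))) / l3 := by
      rw [hloss, hCap]; ring
    rw [h7, div_le_iff₀ hl3]
    linarith
  have h7 : D.sys.G ∅ B₀ univ ≤ Tr q n D.sys.c / 2 := by
    refine hG.trans ?_
    rw [sq, mul_assoc]
    have := mul_le_mul_of_nonneg_left h5 hT.le
    linarith
  unfold Sys.L
  linarith

end start

/-- Maker wins on `K_N` as soon as the numerical hypotheses hold. -/
lemma wins_of_numer_pre {m b : ℕ} (hm : 1 ≤ m) (hb : 1 ≤ b) {CA C3 η R δ M : ℝ} {q n N : ℕ}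
    (hconst : ∀ (q n : ℕ) (_ : NeZero n) (V : Type) (_ : DecidableEq V)
      (D : Dat q n V), D.m = m → D.b = b →
      4 * ((D.sys.C1 + D.sys.C2) * D.sys.NN ^ 2) = CA ∧ D.sys.C3 = C3)
    (hCA : 1 ≤ CA) (hη0 : 0 < η) (hη1 : η * (8 * b) ≤ 1) (hR : 1 ≤ R)
    (hR1 : C3 * (3 * (1 / R)) ≤ η / 4) (hR2 : C3 * (3 * (1 / R)) ≤ (cc m b - 1) * (η / 4))
    (hδ0 : 0 < δ) (hδ : 4 * R * δ * cc m b ^ 4 ≤ 1) (hM : M ^ 10 = (N : ℝ)) (hM1 : 2 ≤ M)
    (hMA : CA ≤ M) (hMe : Real.exp (3 * (η * q)) ≤ M ^ 3)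
    (he : (N : ℝ) ^ 3 ≤ cc m b ^ (2 * q)) (hd : (Real.sqrt (cc m b)) ^ (q - 1) ≤ δ * n)
    (hcM : 2 * R * cc m b ^ 15 * (q : ℝ) ^ 2 ≤ M)
    (hf : (N : ℝ) ≤ 2 * q * n) (hqn : q * n ≤ N) (hn : 1 ≤ n) (hq : 7 ≤ q)
    (B₀ : Finset (Sym2 (Fin N))) (hB₀ : 8 * B₀.card ≤ n ^ 2) :
    Forces m b (edges N) (HasClique q) ∅ B₀ := by
  have : NeZero n := ⟨by omega⟩
  have hcard : Fintype.card (Fin q × Fin n) ≤ Fintype.card (Fin N) := by
    rw [Fintype.card_prod, Fintype.card_fin, Fintype.card_fin, Fintype.card_fin]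
    exact hqn
  obtain ⟨e⟩ := Function.Embedding.nonempty_of_card_le hcard
  have hmp : (0 : ℝ) < m := by exact_mod_cast hm
  have hbp : (0 : ℝ) < b := by exact_mod_cast hb
  have hc : 1 < cc m b := by
    unfold cc
    have := div_pos hbp hmp
    linarith
  have hT := Tr_pos (q := q) (n := n) hc
  set B := CA * (N : ℝ) ^ 2 * Real.exp (3 * (η * q)) with hB
  have hM0 : 0 < M := by linarith
  have hN0 : (0 : ℝ) < N := by rw [← hM]; positivity
  have hB0 : 0 < B := by positivity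
  have hBM : B ≤ M ^ 24 := by
    calc B = CA * (M ^ 10) ^ 2 * Real.exp (3 * (η * q)) := by rw [hB, hM]
      _ ≤ M * (M ^ 10) ^ 2 * M ^ 3 := by
        apply mul_le_mul _ hMe (Real.exp_pos _).le (by positivity)
        exact mul_le_mul_of_nonneg_right hMA (by positivity)
      _ = M ^ 24 := by ring
  have hnN : n ≤ N := by nlinarith
  have hs1 : 1 < Real.sqrt (cc m b) := by
    rw [show (1 : ℝ) = Real.sqrt 1 by simp]
    exact Real.sqrt_lt_sqrt (by norm_num) hc
  have hs2 : Real.sqrt (cc m b) ^ 2 = cc m b := Real.sq_sqrt (by linarith)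
  obtain ⟨h3, h5⟩ := numer_main hc hs1 hs2 hR hδ0 hδ hM hM1 he hd hB0.le hBM hcM hf hnN hn hq
  set l3 := B / Tr q n (cc m b) with hl3
  have hl30 : 0 < l3 := by positivity
  let D : Dat q n (Fin N) :=
    { e := e, he := e.injective, m := m, b := b, hm := hm, hb := hb
      η := η, η_pos := hη0, η_le := hη1
      l := fun i => l3 * R ^ (i - 3), hl := fun i => by positivity }
  obtain ⟨k1, k2⟩ := hconst q n _ (Fin N) _ D rfl rfl
  refine start_forces_pre D B₀ hB₀ (edges N) (HasClique q) (es_sub_edges e.injective)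
    (clique_of_es e.injective) l3 R rfl hl30 hR (by omega) ?_ ?_ ?_ ?_ ?_
  · rw [k2]; exact hR1
  · rw [k2]; exact hR2
  · rw [hl3, div_mul_eq_mul_div, div_le_one hT]
    exact h3
  · have h6 : l3 * Tr q n D.sys.c = B := by
      show B / Tr q n (cc m b) * Tr q n (cc m b) = B
      rw [div_mul_cancel₀ _ hT.ne']
    rw [h6]
    have h7 : 4 * (((edges N).card : ℝ) * ((D.sys.C1 + D.sys.C2) * (D.sys.NN ^ 2
      * Real.exp (3 * (D.η * q))))) = CA * ((edges N).card : ℝ) * Real.exp (3 * (η * q)) := by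
      rw [← k1]
      show 4 * (((edges N).card : ℝ) * ((D.sys.C1 + D.sys.C2) * (D.sys.NN ^ 2
      * Real.exp (3 * (η * q))))) = _
      ring
    rw [h7, hB]
    apply mul_le_mul_of_nonneg_right _ (Real.exp_pos _).le
    exact mul_le_mul_of_nonneg_left (card_edges_le N) (by linarith)
  · show Tr q n (cc m b) * (l3 * ∑ i ∈ Ico 3 q, (q.choose i : ℝ)
      * R ^ (i - 3) * (cc m b ^ (i.choose 2) / (n : ℝ) ^ i)) ≤ 1 / 2
    rw [← mul_assoc, hl3, mul_div_cancel₀ _ hT.ne']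
    exact h5

/-- **Maker's clique size in the `(m:b)` game, up to an additive constant.** -/
theorem clique_forces_pre (m b : ℕ) (hm : 1 ≤ m) (hb : 1 ≤ b) :
    ∃ C : ℝ, ∃ N₀ : ℕ, ∀ N : ℕ, N₀ ≤ N →
      7 ≤ 2 * Real.logb (cc m b) N
        - 2 * Real.logb (cc m b) (Real.logb (cc m b) N) - C ∧
      ∀ B₀ : Finset (Sym2 (Fin N)),
        32 * (B₀.card : ℝ) * (2 * Real.logb (cc m b) N) ^ 2 ≤ (N : ℝ) ^ 2 →
      Forces m b (edges N) (HasClique ⌊2 * Real.logb (cc m b) N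
        - 2 * Real.logb (cc m b) (Real.logb (cc m b) N) - C⌋₊) ∅ B₀ := by
  obtain ⟨CA, C3, hCA, hC3, hconst⟩ := param_const m b hm hb
  have hmp : (0 : ℝ) < m := by exact_mod_cast hm
  have hbp : (0 : ℝ) < b := by exact_mod_cast hb
  have hb1 : (1 : ℝ) ≤ b := by exact_mod_cast hb
  have hc : 1 < cc m b := by
    unfold cc
    have := div_pos hbp hmp
    linarith
  set c := cc m b with hcdef
  set lc := Real.log c with hlcdef
  have hlc : 0 < lc := Real.log_pos hc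
  set η := min (1 / (8 * (b : ℝ))) (lc / 20) with hη
  have hη0 : 0 < η := lt_min (by positivity) (by positivity)
  have hη1 : η * (8 * b) ≤ 1 := by
    have : η ≤ 1 / (8 * (b : ℝ)) := min_le_left _ _
    rw [le_div_iff₀ (by positivity)] at this
    exact this
  have hη2 : η ≤ lc / 20 := min_le_right _ _
  set μ := min 1 (c - 1) with hμ
  have hμ0 : 0 < μ := lt_min (by norm_num) (by linarith)
  have hμ1 : μ ≤ 1 := min_le_left _ _
  have hμ2 : μ ≤ c - 1 := min_le_right _ _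
  set R := 12 * C3 / (η * μ) with hR
  have hηs : η ≤ 1 := by nlinarith
  have hR1 : 1 ≤ R := by
    rw [hR, le_div_iff₀ (by positivity), one_mul]
    have : η * μ ≤ 1 * 1 := mul_le_mul hηs hμ1 hμ0.le (by norm_num)
    linarith
  have hR0 : 0 < R := by linarith
  have hRe : C3 * (3 * (1 / R)) = η * μ / 4 := by
    rw [hR]
    have : C3 ≠ 0 := by linarith
    field_simp
    norm_num
  have hRa : C3 * (3 * (1 / R)) ≤ η / 4 := by
    rw [hRe]
    have : η * μ ≤ η * 1 := mul_le_mul_of_nonneg_left hμ1 hη0.le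
    linarith
  have hRb : C3 * (3 * (1 / R)) ≤ (c - 1) * (η / 4) := by
    rw [hRe]
    have : η * μ ≤ η * (c - 1) := mul_le_mul_of_nonneg_left hμ2 hη0.le
    linarith
  set δ := 1 / (4 * R * c ^ 4) with hδ
  have hc0 : 0 < c := by linarith
  have hδ0 : 0 < δ := by positivity
  have hδe : 4 * R * δ * c ^ 4 ≤ 1 := by
    rw [hδ]
    apply le_of_eq
    field_simp
  have hδ1 : δ ≤ 1 := by
    rw [hδ, div_le_one (by positivity)]
    have : 1 ≤ c ^ 4 := one_le_pow₀ hc.le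
    nlinarith
  have hl4 : 0 ≤ Real.log (4 / δ) := by
    apply Real.log_nonneg
    rw [le_div_iff₀ hδ0]
    linarith
  set C := 2 * Real.log (4 / δ) / lc with hC
  have hC0 : 0 ≤ C := by positivity
  have hev := eventually_facts lc CA (2 * R * c ^ 15) C hlc
  have hev2 := (Real.tendsto_log_atTop.comp tendsto_natCast_atTop_atTop).eventually hev
  obtain ⟨N₀, hN₀⟩ := eventually_atTop.mp hev2
  refine ⟨C, max N₀ 1, ?_⟩
  intro N hN
  have hN1 : 1 ≤ N := (le_max_right _ _).trans hN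
  have hNR : (0 : ℝ) < N := by exact_mod_cast hN1
  obtain ⟨f1, f2, f3, f4, f5⟩ := hN₀ N ((le_max_left _ _).trans hN)
  simp only [Function.comp_apply] at f1 f2 f3 f4 f5
  set y := Real.log (N : ℝ) with hy
  have hNy : (N : ℝ) = Real.exp y := (Real.exp_log hNR).symm
  set x := y / lc with hx
  have hxy : x * lc = y := by rw [hx]; field_simp
  have hx0 : 0 < x := by linarith
  have hlogbN : Real.logb c N = x := rfl
  have hlogbx : Real.logb c x = Real.log x / lc := rfl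
  rw [hlogbN, hlogbx]
  have hlx : 0 ≤ Real.log x / lc := by
    have := Real.log_nonneg (show 1 ≤ x by linarith)
    positivity
  set bd := 2 * x - 2 * (Real.log x / lc) - C with hbd
  have hbd0 : 0 ≤ bd := by rw [hbd]; linarith
  set q0 := ⌊bd⌋₊ with hq0
  have hq0le : (q0 : ℝ) ≤ bd := Nat.floor_le hbd0
  have hq0gt : bd - 1 < (q0 : ℝ) := Nat.sub_one_lt_floor _
  have hq02 : (q0 : ℝ) ≤ 2 * x := by linarith
  have hq015 : 3 / 2 * x ≤ (q0 : ℝ) := by linarith
  have hq07 : 7 ≤ q0 := by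
    have : (7 : ℝ) ≤ q0 := by linarith
    exact_mod_cast this
  refine ⟨by linarith, ?_⟩
  intro B₀ hB₀
  set M := Real.exp (y / 10) with hM
  have hM10 : M ^ 10 = (N : ℝ) := by
    rw [hM, hNy, ← Real.exp_nat_mul]
    congr 1
    push_cast
    ring
  have h4x : 4 * x ≤ N := by
    have h1 : M ≤ M ^ 10 := le_self_pow₀ (by linarith) (by norm_num)
    rw [hM10] at h1
    refine le_trans ?_ (f4.trans h1)
    have h2 : 1 ≤ c ^ 15 := one_le_pow₀ hc.le
    have h3 : 2 ≤ 2 * R * c ^ 15 := by nlinarith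
    have h4 : 4 * x ≤ (2 * x) ^ 2 := by nlinarith
    have h5 : 0 ≤ (2 * x) ^ 2 := sq_nonneg _
    nlinarith
  have h2qN : 2 * q0 ≤ N := by
    have : 2 * (q0 : ℝ) ≤ N := by linarith
    exact_mod_cast this
  have hdm := Nat.div_add_mod N q0
  have hml := Nat.mod_lt N (show 0 < q0 by omega)
  have hn1 : 1 ≤ N / q0 := (Nat.one_le_div_iff (by omega)).mpr (by omega)
  have hfN : N ≤ 2 * (q0 * (N / q0)) := by omega
  have hf : (N : ℝ) ≤ 2 * q0 * ((N / q0 : ℕ) : ℝ) := by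
    have : (N : ℝ) ≤ ((2 * (q0 * (N / q0)) : ℕ) : ℝ) := by exact_mod_cast hfN
    push_cast at this
    linarith
  have hq00 : (0 : ℝ) < q0 := by
    have : (7 : ℝ) ≤ q0 := by exact_mod_cast hq07
    linarith
  have hs0 : 0 ≤ Real.sqrt c := Real.sqrt_nonneg _
  have hs1 : 1 ≤ Real.sqrt c := by
    rw [show (1 : ℝ) = Real.sqrt 1 by simp]
    exact Real.sqrt_le_sqrt hc.le
  have hcexp : c ^ q0 = Real.exp ((q0 : ℝ) * lc) := by
    rw [Real.exp_nat_mul, hlcdef, Real.exp_log hc0]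
  have hd : (Real.sqrt c) ^ (q0 - 1) ≤ δ * ((N / q0 : ℕ) : ℝ) := by
    have h1 : (Real.sqrt c) ^ (q0 - 1) ≤ (Real.sqrt c) ^ q0 :=
      pow_le_pow_right₀ hs1 (by omega)
    have h2 : (Real.sqrt c) ^ q0 ≤ δ * N / (4 * x) := by
      have h3 : ((Real.sqrt c) ^ q0) ^ 2 ≤ (δ * N / (4 * x)) ^ 2 := by
        rw [← pow_mul, mul_comm q0 2, pow_mul, Real.sq_sqrt hc0.le, hcexp]
        have h4 : (δ * N / (4 * x)) = Real.exp (y - Real.log x - Real.log (4 / δ)) := by
          rw [Real.exp_sub, Real.exp_sub, Real.exp_log hx0,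
            Real.exp_log (show (0 : ℝ) < 4 / δ by positivity), ← hNy]
          field_simp
        rw [h4, ← Real.exp_nat_mul]
        apply Real.exp_le_exp.mpr
        have h5 : (q0 : ℝ) * lc ≤ bd * lc := mul_le_mul_of_nonneg_right hq0le hlc.le
        have h6 : bd * lc = 2 * y - 2 * Real.log x - 2 * Real.log (4 / δ) := by
          rw [hbd, hC, ← hxy]; field_simp
        rw [h6] at h5
        push_cast
        linarith
      exact le_of_sq_le_sq h3 (by positivity)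
    refine h1.trans (h2.trans ?_)
    rw [div_le_iff₀ (by positivity)]
    have h7 : (N : ℝ) ≤ 4 * x * ((N / q0 : ℕ) : ℝ) := by
      refine hf.trans ?_
      apply mul_le_mul_of_nonneg_right _ (Nat.cast_nonneg _)
      linarith
    calc δ * N ≤ δ * (4 * x * ((N / q0 : ℕ) : ℝ)) := mul_le_mul_of_nonneg_left h7 hδ0.le
      _ = _ := by ring
  have hB₀' : 8 * B₀.card ≤ (N / q0) ^ 2 := by
    have h1 : (8 * (B₀.card : ℝ)) * (2 * q0) ^ 2 ≤ (((N / q0 : ℕ) : ℝ) * (2 * q0)) ^ 2 := by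
      have h2 : (8 * (B₀.card : ℝ)) * (2 * q0) ^ 2 ≤ 32 * (B₀.card : ℝ) * (2 * x) ^ 2 := by
        have h3 : (q0 : ℝ) ^ 2 ≤ (2 * x) ^ 2 := pow_le_pow_left₀ hq00.le hq02 2
        have h4 : (0 : ℝ) ≤ 32 * (B₀.card : ℝ) := mul_nonneg (by norm_num) (Nat.cast_nonneg _)
        have h5 := mul_le_mul_of_nonneg_left h3 h4
        calc (8 * (B₀.card : ℝ)) * (2 * q0) ^ 2 = 32 * (B₀.card : ℝ) * (q0 : ℝ) ^ 2 := by ring
          _ ≤ _ := h5
      have h6 : (N : ℝ) ^ 2 ≤ (((N / q0 : ℕ) : ℝ) * (2 * q0)) ^ 2 := by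
        refine pow_le_pow_left₀ hNR.le ?_ 2
        linarith
      exact h2.trans (hB₀.trans h6)
    have h2 : (8 * (B₀.card : ℝ)) * (2 * q0) ^ 2 ≤ ((N / q0 : ℕ) : ℝ) ^ 2 * (2 * q0) ^ 2 := by
      rw [← mul_pow]; exact h1
    have h3 : (8 * (B₀.card : ℝ)) ≤ ((N / q0 : ℕ) : ℝ) ^ 2 :=
      le_of_mul_le_mul_right h2 (by positivity)
    exact_mod_cast h3
  refine wins_of_numer_pre hm hb hconst hCA hη0 hη1 hR1 hRa hRb hδ0 hδe hM10 f3 f2 ?_ ?_ hd ?_ hf
    (Nat.mul_div_le N q0) hn1 hq07 B₀ hB₀'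
  · rw [hM, ← Real.exp_nat_mul]
    apply Real.exp_le_exp.mpr
    push_cast
    have h1 : η * q0 ≤ lc / 20 * (2 * x) :=
      mul_le_mul hη2 hq02 hq00.le (by positivity)
    have h2 : lc / 20 * (2 * x) = y / 10 := by rw [← hxy]; ring
    rw [h2] at h1
    linarith
  · rw [← hcdef, mul_comm 2 q0, pow_mul, hcexp, hNy, ← Real.exp_nat_mul, ← Real.exp_nat_mul]
    apply Real.exp_le_exp.mpr
    push_cast
    have h1 : 3 / 2 * x * lc ≤ (q0 : ℝ) * lc := mul_le_mul_of_nonneg_right hq015 hlc.le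
    have h2 : 3 / 2 * x * lc = 3 / 2 * y := by rw [← hxy]; ring
    rw [h2] at h1
    linarith
  · refine le_trans ?_ f4
    apply mul_le_mul_of_nonneg_left _ (by positivity)
    exact pow_le_pow_left₀ hq00.le hq02 2

end Pool.Agent.W316.MkPre
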