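import Mathlib
import Pool.Agent.W316.MkPre
import Pool.Agent.Helper679.CGProof

set_option autoImplicit false

/-!
Maker on the infinite board: stars, then the clique game in the pool.
-/

namespace Pool.Agent.W316.Mk

open Finset Pool.Agent.Helper679.CliqueGame

/-- Maker (to move) can reach `goal` within `r` moves. -/
def Frc (goal : Finset (Sym2 ℕ) → Prop) : ℕ → Finset (Sym2 ℕ) → Finset (Sym2 ℕ) → Prop
  | 0, M, _ => goal M
  | r + 1, M, B => goal M ∨ ∃ e ∈ board, e ∉ M ∧ e ∉ B ∧
      ∀ f ∈ board, f ∉ insert e M → f ∉ B → Frc goal r (insert e M) (insert f B)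

lemma Frc.of_goal {goal : Finset (Sym2 ℕ) → Prop} {M : Finset (Sym2 ℕ)} (h : goal M) (r : ℕ)
    (B : Finset (Sym2 ℕ)) : Frc goal r M B := by
  cases r with
  | zero => exact h
  | succ r => exact Or.inl h

lemma Frc.succ {goal : Finset (Sym2 ℕ) → Prop} {r : ℕ} :
    ∀ {M B : Finset (Sym2 ℕ)}, Frc goal r M B → Frc goal (r + 1) M B := by
  induction r with
  | zero => intro M B h; exact Or.inl h
  | succ r ih =>
    intro M B h
    rcases h with h | ⟨e, he, heM, heB, h⟩
    · exact Or.inl h
    · exact Or.inr ⟨e, he, heM, heB, fun f hf hfM hfB => ih (h f hf hfM hfB)⟩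

lemma Frc.mono {goal : Finset (Sym2 ℕ) → Prop} {r r' : ℕ} (h : r ≤ r')
    {M B : Finset (Sym2 ℕ)} (hf : Frc goal r M B) : Frc goal r' M B := by
  induction r', h using Nat.le_induction with
  | base => exact hf
  | succ r' _ ih => exact ih.succ

/-- Maker's set contains all pairs of a `q`-set. -/
def HasK (q : ℕ) (M : Finset (Sym2 ℕ)) : Prop :=
  ∃ K : Finset ℕ, K.card = q ∧ ∀ u ∈ K, ∀ v ∈ K, u ≠ v → s(u, v) ∈ M

lemma HasK.mono {q : ℕ} {M M' : Finset (Sym2 ℕ)} (h : M ⊆ M') (hM : HasK q M) : HasK q M' := by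
  obtain ⟨K, hK, hc⟩ := hM
  exact ⟨K, hK, fun u hu v hv huv => h (hc u hu v hv huv)⟩

/-- alternate elements of a list: membership -/
lemma mem_split' : ∀ (h : List (Sym2 ℕ)) (g : Sym2 ℕ), g ∈ h ↔ g ∈ makerOf h ∨ g ∈ breakerOf h
  | [], g => by simp [makerOf, breakerOf]
  | [e], g => by simp [makerOf, breakerOf]
  | e :: f :: h, g => by
    have ih := mem_split' h g
    simp only [makerOf, breakerOf, List.mem_cons]
    tauto

/-- Strategy extraction. -/
theorem maker_of_frc {q m : ℕ} (h : Frc (HasK q) m ∅ ∅) : MakerWinsWithin q m := by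
  classical
  have hex : ∀ h : List (Sym2 ℕ), ∃ e, e ∈ board ∧ e ∉ h ∧
      ∀ r, Frc (HasK q) (r + 1) (breakerOf h).toFinset (makerOf h).toFinset →
        HasK q (breakerOf h).toFinset ∨
        ∀ f ∈ board, f ∉ insert e (breakerOf h).toFinset → f ∉ (makerOf h).toFinset →
          Frc (HasK q) r (insert e (breakerOf h).toFinset) (insert f (makerOf h).toFinset) := by
    intro h
    by_cases hr : ∃ r, Frc (HasK q) r (breakerOf h).toFinset (makerOf h).toFinset
    · have hmin := Nat.find_spec hr
      have hmin' : ∀ r, Frc (HasK q) r (breakerOf h).toFinset (makerOf h).toFinset →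
        Nat.find hr ≤ r := fun r hr' => Nat.find_min' hr hr'
      generalize Nat.find hr = r0 at hmin hmin'
      cases r0 with
      | zero =>
        obtain ⟨e, he, heh⟩ := exists_free h
        exact ⟨e, he, heh, fun r _ => Or.inl hmin⟩
      | succ r0 =>
        rcases hmin with hg | ⟨e, he, heM, heB, hf⟩
        · obtain ⟨e, he, heh⟩ := exists_free h
          exact ⟨e, he, heh, fun r _ => Or.inl hg⟩
        · refine ⟨e, he, ?_, fun r hr' => Or.inr fun f hfb hfM hfB => ?_⟩
          · rw [mem_split' h e, not_or]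
            rw [List.mem_toFinset] at heM heB
            exact ⟨heB, heM⟩
          · have h1 := hmin' _ hr'
            exact Frc.mono (by omega) (hf f hfb hfM hfB)
    · obtain ⟨e, he, heh⟩ := exists_free h
      exact ⟨e, he, heh, fun r hr' => absurd ⟨r + 1, hr'⟩ hr⟩
  choose mv hmv using hex
  let μ : Strategy :=
    { move := mv
      mem_board := fun h => (hmv h).1
      not_mem := fun h => (hmv h).2.1 }
  refine ⟨μ, fun β => ?_⟩
  have key : ∀ i, i ≤ m →
      (HasK q (breakerOf (hist μ β i)).toFinset ∨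
        Frc (HasK q) (m - i) (breakerOf (hist μ β i)).toFinset (makerOf (hist μ β i)).toFinset) ∧
      (∀ g, g ∈ breakerOf (hist μ β i) ↔ g ∈ makerEdges μ β i) := by
    intro i
    induction i with
    | zero =>
      intro _
      refine ⟨Or.inr (by simpa [hist, breakerOf, makerOf] using h), fun g => ?_⟩
      simp [hist, breakerOf, makerEdges]
    | succ i ih =>
      intro hi
      obtain ⟨ih1, ih2⟩ := ih (by omega)
      set h := hist μ β i with hh
      set e := μ.move h with he
      set f := β.move (e :: h) with hf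
      have hhist : hist μ β (i + 1) = f :: e :: h := rfl
      have hm : breakerOf (f :: e :: h) = e :: breakerOf h := rfl
      have hb : makerOf (f :: e :: h) = f :: makerOf h := rfl
      rw [hhist, hm, hb, List.toFinset_cons, List.toFinset_cons]
      refine ⟨?_, ?_⟩
      · rcases ih1 with h1 | h1
        · exact Or.inl (h1.mono (subset_insert _ _))
        · have h2 : m - i = (m - (i + 1)) + 1 := by omega
          rw [h2] at h1
          rcases (hmv h).2.2 _ h1 with h3 | h3
          · exact Or.inl (h3.mono (subset_insert _ _))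
          · have hfb : f ∈ board := β.mem_board _
            have hfh : f ∉ e :: h := β.not_mem _
            rw [List.mem_cons, not_or, mem_split' h f, not_or] at hfh
            refine Or.inr (h3 f hfb ?_ ?_)
            · rw [mem_insert, not_or, List.mem_toFinset]
              exact ⟨hfh.1, hfh.2.2⟩
            · rw [List.mem_toFinset]
              exact hfh.2.1
      · intro g
        rw [List.mem_cons, ih2 g]
        simp only [makerEdges, Set.mem_ofPred_eq]
        constructor
        · rintro (rfl | ⟨j, hj, rfl⟩)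
          · exact ⟨i, by omega, by rw [he]⟩
          · exact ⟨j, by omega, rfl⟩
        · rintro ⟨j, hj, rfl⟩
          rcases Nat.lt_succ_iff_lt_or_eq.1 hj with hj | rfl
          · exact Or.inr ⟨j, hj, rfl⟩
          · exact Or.inl (by rw [he])
  obtain ⟨k1, k2⟩ := key m le_rfl
  have hK : HasK q (breakerOf (hist μ β m)).toFinset := by
    rcases k1 with k1 | k1
    · exact k1
    · rw [Nat.sub_self] at k1
      exact k1
  obtain ⟨K, hK1, hK2⟩ := hK
  intro hfree
  refine hfree K ?_
  rw [SimpleGraph.isNClique_iff, SimpleGraph.isClique_iff]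
  refine ⟨?_, hK1⟩
  intro u hu v hv huv
  rw [makerGraph, SimpleGraph.fromEdgeSet_adj]
  refine ⟨?_, huv⟩
  rw [← k2, ← List.mem_toFinset]
  exact hK2 u hu v hv huv

/-! ### stars -/

/-- `C` is a clique of Maker, joined completely to the pool `P`, which has no edge of Maker. -/
structure Star (C P : Finset ℕ) (M : Finset (Sym2 ℕ)) : Prop where
  dis : Disjoint C P
  clq : ∀ u ∈ C, ∀ v ∈ C, u ≠ v → s(u, v) ∈ M
  joi : ∀ u ∈ C, ∀ x ∈ P, s(u, x) ∈ M
  fre : ∀ x ∈ P, ∀ y ∈ P, s(x, y) ∉ M

/-- the vertices of `P` joined to `v` by Breaker -/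
def bd (P : Finset ℕ) (B : Finset (Sym2 ℕ)) (v : ℕ) : Finset ℕ :=
  (P.erase v).filter fun x => s(v, x) ∈ B

lemma sum_bd (P : Finset ℕ) (B : Finset (Sym2 ℕ)) : ∑ v ∈ P, (bd P B v).card ≤ 2 * B.card := by
  classical
  have h1 : ∑ v ∈ P, (bd P B v).card =
      ((P ×ˢ P).filter fun p => p.1 ≠ p.2 ∧ s(p.1, p.2) ∈ B).card := by
    rw [Finset.card_filter, Finset.sum_product]
    refine Finset.sum_congr rfl fun v hv => ?_
    have h0 : bd P B v = P.filter fun x => v ≠ x ∧ s(v, x) ∈ B := by
      ext x
      unfold bd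
      rw [mem_filter, mem_erase, mem_filter]
      constructor
      · rintro ⟨⟨h1, h2⟩, h3⟩
        exact ⟨h2, h1.symm, h3⟩
      · rintro ⟨h2, h1, h3⟩
        exact ⟨⟨h1.symm, h2⟩, h3⟩
    rw [h0, Finset.card_filter]
  rw [h1]
  have h2 : ((P ×ˢ P).filter fun p => p.1 ≠ p.2 ∧ s(p.1, p.2) ∈ B).card ≤
      ∑ e ∈ B, ((((P ×ˢ P).filter fun p => p.1 ≠ p.2 ∧ s(p.1, p.2) ∈ B).filter
        fun p => s(p.1, p.2) = e)).card := by
    rw [Finset.card_eq_sum_card_fiberwise (f := fun p : ℕ × ℕ => s(p.1, p.2)) (t := B)]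
    intro p hp
    rw [mem_coe, mem_filter] at hp
    exact hp.2.2
  refine h2.trans ?_
  have h3 : ∀ e ∈ B, ((((P ×ˢ P).filter fun p => p.1 ≠ p.2 ∧ s(p.1, p.2) ∈ B).filter
        fun p => s(p.1, p.2) = e)).card ≤ 2 := by
    intro e _
    induction e using Sym2.ind with
    | _ a b =>
    have h4 : (((P ×ˢ P).filter fun p => p.1 ≠ p.2 ∧ s(p.1, p.2) ∈ B).filter
        fun p => s(p.1, p.2) = s(a, b)) ⊆ {(a, b), (b, a)} := by
      intro p hp
      rw [mem_filter] at hp
      have h5 := hp.2
      rw [Sym2.eq_iff] at h5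
      rw [mem_insert, mem_singleton]
      rcases h5 with ⟨h6, h7⟩ | ⟨h6, h7⟩
      · left; exact Prod.ext h6 h7
      · right; exact Prod.ext h6 h7
    exact (card_le_card h4).trans card_le_two
  calc _ ≤ ∑ _e ∈ B, 2 := Finset.sum_le_sum h3
    _ = 2 * B.card := by rw [Finset.sum_const, smul_eq_mul, mul_comm]

lemma bd_insert (P : Finset ℕ) (B : Finset (Sym2 ℕ)) (v : ℕ) (f : Sym2 ℕ) :
    (bd P (insert f B) v).card ≤ (bd P B v).card + 1 := by
  classical
  by_cases h : ∃ x, s(v, x) = f
  · obtain ⟨x, rfl⟩ := h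
    have hsub : bd P (insert s(v, x) B) v ⊆ insert x (bd P B v) := by
      intro y hy
      unfold bd at hy ⊢
      rw [mem_filter, mem_insert] at hy
      rw [mem_insert, mem_filter]
      rcases hy with ⟨hy1, hy2 | hy2⟩
      · left
        rw [Sym2.eq_iff] at hy2
        rcases hy2 with ⟨-, h⟩ | ⟨h1, h2⟩
        · exact h
        · rw [h2, h1]
      · exact Or.inr ⟨hy1, hy2⟩
    exact (card_le_card hsub).trans (card_insert_le _ _)
  · push Not at h
    have : bd P (insert f B) v = bd P B v := by
      unfold bd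
      apply filter_congr
      intro y _
      rw [mem_insert]
      constructor
      · rintro (h1 | h1)
        · exact absurd h1 (h y)
        · exact h1
      · exact Or.inr
    rw [this]
    exact Nat.le_succ _

/-- one star, in progress -/
lemma star_inner {goal : Finset (Sym2 ℕ) → Prop} {C P : Finset ℕ} {M₀ : Finset (Sym2 ℕ)}
    (hS : Star C P M₀) {v : ℕ} (hv : v ∈ P) (R b : ℕ) (r : ℕ) :
    ∀ (X : Finset ℕ) (B : Finset (Sym2 ℕ)), X ⊆ P.erase v →
      2 * r + X.card + (bd P B v).card ≤ P.card → B.card + r ≤ b →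
      (∀ (X' : Finset ℕ) (B' : Finset (Sym2 ℕ)), X' ⊆ P.erase v → X'.card = X.card + r →
        B'.card ≤ b →
        Frc goal R (M₀ ∪ X'.image fun x => s(v, x)) B') →
      Frc goal (r + R) (M₀ ∪ X.image fun x => s(v, x)) B := by
  classical
  induction r with
  | zero =>
    intro X B hX h1 h2 h3
    rw [zero_add]
    exact h3 X B hX rfl (by omega)
  | succ r ih =>
    intro X B hX h1 h2 h3
    have hne : (P.erase v \ (X ∪ bd P B v)).Nonempty := by
      rw [← card_pos]
      have h4 := le_card_sdiff (X ∪ bd P B v) (P.erase v)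
      have h5 := card_union_le X (bd P B v)
      have h6 := card_erase_add_one hv
      omega
    obtain ⟨x, hx⟩ := hne
    rw [mem_sdiff, mem_union, not_or] at hx
    obtain ⟨hxP, hxX, hxB⟩ := hx
    have hxv : x ≠ v := ne_of_mem_erase hxP
    have hxP' : x ∈ P := mem_of_mem_erase hxP
    rw [show r + 1 + R = (r + R) + 1 by ring]
    have heM : s(v, x) ∉ M₀ ∪ X.image fun x => s(v, x) := by
      rw [mem_union, not_or]
      refine ⟨hS.fre v hv x hxP', ?_⟩
      rw [mem_image]
      rintro ⟨y, hy, hyx⟩
      rw [Sym2.eq_iff] at hyx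
      rcases hyx with ⟨-, h⟩ | ⟨h4, h5⟩
      · exact hxX (h ▸ hy)
      · exact hxv h4.symm
    refine Or.inr ⟨s(v, x), ?_, heM, ?_, ?_⟩
    · rw [mem_board_iff, Sym2.mk_isDiag_iff]
      exact hxv.symm
    · intro hB
      apply hxB
      unfold bd
      rw [mem_filter]
      exact ⟨hxP, hB⟩
    · intro f hf hfM hfB
      have h4 : insert s(v, x) (M₀ ∪ X.image fun x => s(v, x)) =
          M₀ ∪ (insert x X).image fun x => s(v, x) := by
        rw [image_insert, union_insert]
      rw [h4]
      have h5 : (insert x X).card = X.card + 1 := card_insert_of_notMem hxX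
      have h6 : (insert f B).card = B.card + 1 := card_insert_of_notMem hfB
      have h7 := bd_insert P B v f
      refine ih (insert x X) (insert f B) ?_ ?_ ?_ ?_
      · intro y hy
        rcases mem_insert.1 hy with rfl | hy
        · exact hxP
        · exact hX hy
      · omega
      · omega
      · intro X' B' hX' hc hB'
        exact h3 X' B' hX' (by omega) hB'

/-- one star -/
lemma star_phase {goal : Finset (Sym2 ℕ) → Prop} {C P : Finset ℕ} {M B : Finset (Sym2 ℕ)}
    (hS : Star C P M) (hP : P.Nonempty) {d r R b : ℕ} (hd : 2 * B.card ≤ d * P.card)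
    (hr : 2 * r + d ≤ P.card) (hb : B.card + r ≤ b)
    (h : ∀ (C' P' : Finset ℕ) (M' B' : Finset (Sym2 ℕ)), Star C' P' M' → C'.card = C.card + 1 →
      P'.card = r → B'.card ≤ b → Frc goal R M' B') :
    Frc goal (r + R) M B := by
  classical
  -- a vertex of small degree
  obtain ⟨v, hv, hvd⟩ : ∃ v ∈ P, (bd P B v).card ≤ d := by
    by_contra hcon
    push Not at hcon
    have h1 : ∑ _v ∈ P, (d + 1) ≤ ∑ v ∈ P, (bd P B v).card :=
      Finset.sum_le_sum fun v hv => hcon v hv
    rw [Finset.sum_const, smul_eq_mul] at h1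
    have h2 := sum_bd P B
    have h3 : 0 < P.card := hP.card_pos
    nlinarith
  have h1 := star_inner (goal := goal) hS hv R b r ∅ B (by simp)
    (by rw [card_empty]; omega) hb ?_
  · simpa using h1
  · intro X' B' hX' hc hB'
    rw [card_empty, zero_add] at hc
    have hXP : X' ⊆ P := hX'.trans (erase_subset _ _)
    have hvC : v ∉ C := fun hvC => Finset.disjoint_left.1 hS.dis hvC hv
    refine h (insert v C) X' _ B' ⟨?_, ?_, ?_, ?_⟩ (card_insert_of_notMem hvC) hc hB'
    · rw [Finset.disjoint_insert_left]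
      exact ⟨fun hvX => (ne_of_mem_erase (hX' hvX)) rfl,
        Finset.disjoint_of_subset_right hXP hS.dis⟩
    · intro u hu w hw huw
      rw [mem_union]
      left
      rcases mem_insert.1 hu with h1 | h1 <;> rcases mem_insert.1 hw with h2 | h2
      · exact absurd (h1.trans h2.symm) huw
      · rw [Sym2.eq_swap, h1]
        exact hS.joi w h2 v hv
      · rw [h2]
        exact hS.joi u h1 v hv
      · exact hS.clq u h1 w h2 huw
    · intro u hu x hx
      rw [mem_union]
      rcases mem_insert.1 hu with rfl | hu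
      · right
        exact mem_image_of_mem _ hx
      · left
        exact hS.joi u hu x (hXP hx)
    · intro x hx y hy
      rw [mem_union, not_or]
      refine ⟨hS.fre x (hXP hx) y (hXP hy), ?_⟩
      rw [mem_image]
      rintro ⟨z, hz, hzx⟩
      rw [Sym2.eq_iff] at hzx
      rcases hzx with ⟨h4, -⟩ | ⟨h4, -⟩
      · exact (ne_of_mem_erase (hX' hx)) h4.symm
      · exact (ne_of_mem_erase (hX' hy)) h4.symm

/-- size of the pool when `t` stars are still to come -/
def sz (N D t : ℕ) : ℕ := 2 ^ t * (N + D) - D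

lemma sz_add (N D t : ℕ) : sz N D t + D = 2 ^ t * (N + D) := by
  unfold sz
  have h1 : D ≤ 2 ^ t * (N + D) := by
    have : 1 ≤ 2 ^ t := Nat.one_le_two_pow
    nlinarith
  omega

lemma sz_succ (N D t : ℕ) : sz N D (t + 1) = 2 * sz N D t + D := by
  have h1 := sz_add N D t
  have h2 := sz_add N D (t + 1)
  rw [pow_succ] at h2
  nlinarith

lemma le_sz (N D t : ℕ) : N ≤ sz N D t := by
  have h1 := sz_add N D t
  have : 1 ≤ 2 ^ t := Nat.one_le_two_pow
  nlinarith

/-- number of moves in the star phases -/
def rd (N D : ℕ) : ℕ → ℕ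
  | 0 => 0
  | t + 1 => sz N D t + rd N D t

lemma rd_le (N D t : ℕ) : rd N D t ≤ 2 ^ t * (N + D) := by
  induction t with
  | zero => simp [rd]
  | succ t ih =>
    have h1 := sz_add N D t
    have h2 : 2 ^ (t + 1) * (N + D) = 2 * (2 ^ t * (N + D)) := by ring
    rw [rd, h2]
    omega

lemma stars {goal : Finset (Sym2 ℕ) → Prop} {N D b R : ℕ} (hN : 1 ≤ N) (hb : 2 * b ≤ D * N)
    {c : ℕ}
    (h : ∀ (C' P' : Finset ℕ) (M' B' : Finset (Sym2 ℕ)), Star C' P' M' → C'.card = c →
      P'.card = N → B'.card ≤ b → Frc goal R M' B') (t : ℕ) :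
    ∀ (C P : Finset ℕ) (M B : Finset (Sym2 ℕ)), Star C P M → P.card = sz N D t →
      C.card + t = c → B.card + rd N D t ≤ b → Frc goal (rd N D t + R) M B := by
  induction t with
  | zero =>
    intro C P M B hS hP hC hB
    rw [rd, zero_add]
    have h1 := sz_add N D 0
    exact h C P M B hS (by omega) (by omega) (by omega)
  | succ t ih =>
    intro C P M B hS hP hC hB
    have h1 := le_sz N D (t + 1)
    have h2 := sz_succ N D t
    have hPn : P.Nonempty := by
      rw [← card_pos]; omega
    rw [rd] at hB ⊢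
    rw [add_assoc]
    refine star_phase (b := B.card + sz N D t) hS hPn (d := D) ?_ (by omega) le_rfl ?_
    · have h3 : 2 * B.card ≤ 2 * b := by omega
      have h4 : D * N ≤ D * P.card := Nat.mul_le_mul_left _ (by omega)
      omega
    · intro C' P' M' B' hS' hC' hP' hB'
      exact ih C' P' M' B' hS' hP' (by omega) (by omega)

/-! ### the game in the pool -/

open Pool.Agent.Helper340.MB in
lemma pool_game {N s q : ℕ} (ι : Fin N ↪ ℕ) {C : Finset ℕ} (hC : C.card = s)
    (hCι : ∀ a, ι a ∉ C) {M' B' : Finset (Sym2 (Fin N))}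
    (hF : Forces 1 1 (edges N) (HasClique q) M' B') :
    ∀ (M B : Finset (Sym2 ℕ)), (∀ u ∈ C, ∀ v ∈ C, u ≠ v → s(u, v) ∈ M) →
      (∀ u ∈ C, ∀ a, s(u, ι a) ∈ M) → (∀ e ∈ edges N, Sym2.map ι e ∈ M ↔ e ∈ M') →
      (∀ e ∈ edges N, Sym2.map ι e ∈ B → e ∈ B') →
      Frc (HasK (s + q)) (edges N \ (M' ∪ B')).card M B := by
  classical
  have hinj : Function.Injective (Sym2.map ι) := Sym2.map.injective ι.injective
  induction hF with
  | @done M' B' h0 hg =>
    intro M B hC1 hC2 hM hB
    apply Frc.of_goal
    obtain ⟨S, hS, hSc⟩ := hg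
    refine ⟨C ∪ S.image ι, ?_, ?_⟩
    · rw [card_union_of_disjoint, hC, card_image_of_injective _ ι.injective, hS]
      rw [Finset.disjoint_left]
      intro x hx hx'
      obtain ⟨a, -, rfl⟩ := mem_image.1 hx'
      exact hCι a hx
    · intro u hu v hv huv
      rcases mem_union.1 hu with hu | hu <;> rcases mem_union.1 hv with hv | hv
      · exact hC1 u hu v hv huv
      · obtain ⟨a, -, rfl⟩ := mem_image.1 hv
        exact hC2 u hu a
      · obtain ⟨a, -, rfl⟩ := mem_image.1 hu
        rw [Sym2.eq_swap]
        exact hC2 v hv a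
      · obtain ⟨a, ha, rfl⟩ := mem_image.1 hu
        obtain ⟨b, hb, rfl⟩ := mem_image.1 hv
        have hab : a ≠ b := fun h => huv (by rw [h])
        have he : s(a, b) ∈ edges N := by
          unfold edges
          rw [mem_filter]
          exact ⟨mem_univ _, by simpa using hab⟩
        have := (hM _ he).2 (hSc a ha b hb hab)
        rwa [Sym2.map_mk] at this
  | @move M' B' hne Q hQ hQc hf ih =>
    intro M B hC1 hC2 hM hB
    have hpos : 0 < (edges N \ (M' ∪ B')).card := card_pos.2 hne
    have hQ1 : Q.card = 1 := by omega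
    obtain ⟨e', rfl⟩ := card_eq_one.1 hQ1
    have he' := hQ (mem_singleton_self e')
    rw [mem_sdiff, mem_union, not_or] at he'
    obtain ⟨heE, heM', heB'⟩ := he'
    have hediag : ¬ e'.IsDiag := by
      unfold edges at heE
      exact (mem_filter.1 heE).2
    obtain ⟨k', hk'⟩ : ∃ k', (edges N \ (M' ∪ B')).card = k' + 1 :=
      ⟨(edges N \ (M' ∪ B')).card - 1, by omega⟩
    rw [hk']
    refine Or.inr ⟨Sym2.map ι e', ?_, ?_, ?_, ?_⟩
    · rw [mem_board_iff]
      induction e' using Sym2.ind with
      | _ a b =>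
        rw [Sym2.map_mk, Sym2.mk_isDiag_iff]
        rw [Sym2.mk_isDiag_iff] at hediag
        exact fun h => hediag (ι.injective h)
    · rw [hM e' heE]; exact heM'
    · exact fun h => heB' (hB e' heE h)
    · intro f hfb hfM hfB
      set rem := (edges N \ (M' ∪ B')) \ {e'} with hrem
      obtain ⟨R, hR, hRc, hRf⟩ : ∃ R ⊆ rem, R.card = min 1 rem.card ∧
          ∀ f' ∈ rem, Sym2.map ι f' = f → f' ∈ R := by
        by_cases h1 : ∃ f' ∈ rem, Sym2.map ι f' = f
        · obtain ⟨f', hf', rfl⟩ := h1
          refine ⟨{f'}, by simpa using hf', ?_, ?_⟩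
          · have : 0 < rem.card := card_pos.2 ⟨f', hf'⟩
            rw [card_singleton]; omega
          · intro f'' _ h2
            rw [mem_singleton]
            exact hinj h2
        · push Not at h1
          obtain ⟨R, hR, hRc⟩ := exists_subset_card_eq (s := rem) (n := min 1 rem.card)
            (min_le_right _ _)
          exact ⟨R, hR, hRc, fun f' hf' h2 => absurd h2 (h1 f' hf')⟩
      have hih := ih R hR hRc (insert (Sym2.map ι e') M) (insert f B)
        (fun u hu v hv huv => mem_insert_of_mem (hC1 u hu v hv huv))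
        (fun u hu a => mem_insert_of_mem (hC2 u hu a))
        (by
          intro e he
          rw [mem_insert, mem_union, mem_singleton, hM e he]
          constructor
          · rintro (h | h)
            · exact Or.inr (hinj h)
            · exact Or.inl h
          · rintro (h | h)
            · exact Or.inr h
            · exact Or.inl (by rw [h]))
        (by
          intro e he h1
          rw [mem_union]
          rcases mem_insert.1 h1 with h1 | h1
          · by_cases h2 : e ∈ B'
            · exact Or.inl h2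
            · right
              refine hRf e ?_ h1
              rw [hrem, mem_sdiff, mem_sdiff, mem_union, not_or, mem_singleton]
              refine ⟨⟨he, ?_, h2⟩, ?_⟩
              · intro h3
                apply hfM
                rw [← h1]
                exact mem_insert_of_mem ((hM e he).2 h3)
              · rintro rfl
                apply hfM
                rw [← h1]
                exact mem_insert_self _ _
          · exact Or.inl (hB e he h1))
      refine Frc.mono ?_ hih
      have h3 : (edges N \ (M' ∪ {e'} ∪ (B' ∪ R))).card < (edges N \ (M' ∪ B')).card := by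
        apply card_lt_card
        refine ⟨?_, ?_⟩
        · intro z hz
          simp only [mem_sdiff, mem_union, not_or] at hz ⊢
          exact ⟨hz.1, hz.2.1.1, hz.2.2.1⟩
        · intro hcon
          have h4 := hcon (mem_sdiff.2 ⟨heE, by rw [mem_union, not_or]; exact ⟨heM', heB'⟩⟩)
          simp only [mem_sdiff, mem_union, mem_singleton, not_or] at h4
          exact h4.2.1.2 trivial
      omega

end Pool.Agent.W316.Mk
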