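import Mathlib
import Pool.Agent.W316.MkInf
import Pool.Agent.H761R3.CQ.Num

set_option autoImplicit false

/-!
The upper bound for the move number.
-/

namespace Pool.Agent.W316.Mk

open Finset Filter Pool.Agent.Helper679.CliqueGame Pool.Agent.Helper340.MB

lemma makerWins_mono {q m m' : ℕ} (h : m ≤ m') (hm : MakerWinsWithin q m) :
    MakerWinsWithin q m' := by
  obtain ⟨μ, hμ⟩ := hm
  refine ⟨μ, fun β hc => hμ β ?_⟩
  have hsub : makerEdges μ β m ⊆ makerEdges μ β m' := by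
    rintro e ⟨i, hi, rfl⟩
    exact ⟨i, by omega, rfl⟩
  exact hc.anti (SimpleGraph.fromEdgeSet_mono hsub)

/-- Stars, then the clique game in the pool. -/
theorem maker_main {N s q D b : ℕ} (hN : 1 ≤ N) (hb : 2 * b ≤ D * N) (hrd : rd N D s ≤ b)
    (hF : ∀ B₀ : Finset (Sym2 (Fin N)), B₀.card ≤ b →
      Forces 1 1 (edges N) (HasClique q) ∅ B₀) :
    MakerWinsWithin (s + q) (rd N D s + N ^ 2) := by
  classical
  apply maker_of_frc
  refine stars (goal := HasK (s + q)) hN hb (c := s) ?_ s ∅ (range (sz N D s)) ∅ ∅ ?_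
    (card_range _) (by simp) (by simpa using hrd)
  · intro C' P' M' B' hS hC hP hB
    set ι : Fin N ↪ ℕ := (P'.orderEmbOfFin hP).toEmbedding with hι
    have hιP : ∀ a, ι a ∈ P' := fun a => P'.orderEmbOfFin_mem hP a
    have hinj : Function.Injective (Sym2.map ι) := Sym2.map.injective ι.injective
    set B₀ : Finset (Sym2 (Fin N)) := (edges N).filter fun e => Sym2.map ι e ∈ B' with hB₀
    have hB₀c : B₀.card ≤ b := by
      refine le_trans ?_ hB
      refine card_le_card_of_injOn (Sym2.map ι) ?_ hinj.injOn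
      intro e he
      rw [hB₀, mem_coe, mem_filter] at he
      exact he.2
    have h1 := pool_game ι hC (fun a ha => Finset.disjoint_left.1 hS.dis ha (hιP a))
      (hF B₀ hB₀c) M' B' hS.clq (fun u hu a => hS.joi u hu _ (hιP a))
      (by
        intro e he
        induction e using Sym2.ind with
        | _ a c =>
          rw [Sym2.map_mk]
          constructor
          · intro h
            exact absurd h (hS.fre _ (hιP a) _ (hιP c))
          · intro h
            exact absurd h (notMem_empty _))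
      (by
        intro e he h
        rw [hB₀, mem_filter]
        exact ⟨he, h⟩)
    refine Frc.mono ?_ h1
    have h2 : (edges N \ (∅ ∪ B₀)).card ≤ (edges N).card := card_le_card sdiff_subset
    have h3 : (edges N).card ≤ N ^ 2 := by exact_mod_cast card_edges_le N
    exact h2.trans h3
  · exact ⟨disjoint_empty_left _, by simp, by simp, by simp⟩

/-- Maker has a `k`-clique after at most `2 ^ ((2 / 3 + ε) k)` moves. -/
theorem upper_asym (ε : ℝ) (hε : 0 < ε) :
    ∀ᶠ k : ℕ in atTop, ∀ m : ℕ, (2 : ℝ) ^ ((2 / 3 + ε) * k) ≤ m → MakerWinsWithin k m := by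
  obtain ⟨C, N₀, hC⟩ := MkPre.clique_forces_pre 1 1 le_rfl le_rfl
  have hcc : cc 1 1 = 2 := by unfold cc; norm_num
  simp only [hcc] at hC
  set ε' : ℝ := min ε (1 / 4) with hε'
  have he0 : 0 < ε' := lt_min hε (by norm_num)
  have he1 : ε' ≤ ε := min_le_left _ _
  have he2 : ε' ≤ 1 / 4 := min_le_right _ _
  have e1 := H761CQ.ev_log 1 (3 / 16 * ε') one_pos (by positivity)
  have e2 : ∀ᶠ k : ℕ in atTop,
      (24 / 5 * (2 + |C|) + (3 * N₀ + 3) + 2 * 3 / ε' + (|C| + 9) / (3 / 8 * ε') : ℝ) ≤ (k : ℝ) :=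
    tendsto_natCast_atTop_atTop.eventually (eventually_ge_atTop _)
  filter_upwards [e1, e2] with k hlog hk m hm
  have hC0 := abs_nonneg C
  have hC1 := le_abs_self C
  have hC2 := neg_abs_le C
  have p1 : 0 ≤ 24 / 5 * (2 + |C|) := by positivity
  have p2 : (0 : ℝ) ≤ 3 * N₀ + 3 := by positivity
  have p3 : 0 ≤ 2 * 3 / ε' := by positivity
  have p4 : 0 ≤ (|C| + 9) / (3 / 8 * ε') := by positivity
  have k1 : 24 / 5 * (2 + |C|) ≤ (k : ℝ) := by linarith
  have k2 : (3 * N₀ + 3 : ℝ) ≤ k := by linarith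
  have k3 : 3 ≤ ε' / 2 * k := by
    have : 2 * 3 / ε' ≤ (k : ℝ) := by linarith
    rw [div_le_iff₀ he0] at this
    linarith
  have k4 : |C| + 9 ≤ 3 / 8 * ε' * k := by
    have : (|C| + 9) / (3 / 8 * ε') ≤ (k : ℝ) := by linarith
    rw [div_le_iff₀ (by positivity)] at this
    linarith
  have hk0 : (0 : ℝ) < k := by
    have : (0 : ℝ) ≤ N₀ := Nat.cast_nonneg _
    linarith
  have hk9 : (9 : ℝ) ≤ k := by linarith
  -- the logarithm of the size of the pool
  obtain ⟨x, hx⟩ : ∃ x, x = ⌈(1 / 3 + ε' / 4) * (k : ℝ)⌉₊ := ⟨_, rfl⟩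
  have hx1 : (1 / 3 + ε' / 4) * (k : ℝ) ≤ x := by rw [hx]; exact Nat.le_ceil _
  have hx2 : (x : ℝ) < (1 / 3 + ε' / 4) * (k : ℝ) + 1 := by
    rw [hx]; exact Nat.ceil_lt_add_one (by positivity)
  have hεk : 0 ≤ ε' * k := by positivity
  have hεk2 : ε' * k ≤ 1 / 4 * k := mul_le_mul_of_nonneg_right he2 hk0.le
  have hx3 : (k : ℝ) / 3 ≤ x := by nlinarith
  have hxk : (x : ℝ) ≤ k := by nlinarith
  have hx0 : (1 : ℝ) ≤ x := by linarith
  have hxN : N₀ ≤ 2 ^ x := by
    have h1 : N₀ ≤ x := by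
      have : (N₀ : ℝ) ≤ x := by linarith
      exact_mod_cast this
    exact h1.trans Nat.lt_two_pow_self.le
  -- the logarithm of `x`
  obtain ⟨y, hy⟩ : ∃ y, y = Real.logb 2 (x : ℝ) := ⟨_, rfl⟩
  have hy0 : 0 ≤ y := by rw [hy]; exact Real.logb_nonneg (by norm_num) hx0
  have hyk : 4 * y ≤ 3 / 8 * ε' * k := by
    have h1 : Real.logb 2 (1 * (k : ℝ) ^ 2) = 2 * Real.logb 2 k := by
      rw [one_mul, Real.logb_pow]; push_cast; ring
    rw [h1] at hlog
    have h2 : y ≤ Real.logb 2 k := by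
      rw [hy]
      exact Real.logb_le_logb_of_le (by norm_num) (by linarith) hxk
    linarith
  have hxy : (x : ℝ) = 2 ^ y := by
    rw [hy, Real.rpow_logb (by norm_num) (by norm_num) (by linarith)]
  obtain ⟨N, hN⟩ : ∃ N, N = 2 ^ x := ⟨_, rfl⟩
  have hNr : (N : ℝ) = 2 ^ x := by rw [hN]; push_cast; ring
  have hlogN : Real.logb 2 (N : ℝ) = x := by
    rw [hNr, Real.logb_pow, Real.logb_self_eq_one (by norm_num), mul_one]
  obtain ⟨hC3, hC4⟩ := hC N (by rw [hN]; exact hxN)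
  rw [hlogN, ← hy] at hC3 hC4
  obtain ⟨q, hq⟩ : ∃ q, q = ⌊2 * (x : ℝ) - 2 * y - C⌋₊ := ⟨_, rfl⟩
  rw [← hq] at hC4
  have hq1 : (q : ℝ) ≤ 2 * x - 2 * y - C := by
    rw [hq]; exact Nat.floor_le (by linarith)
  have hq2 : 2 * (x : ℝ) - 2 * y - C - 1 < q := by
    rw [hq]; exact Nat.sub_one_lt_floor _
  have hqk : q ≤ k := by
    have h1 : (q : ℝ) ≤ k := by nlinarith
    exact_mod_cast h1
  obtain ⟨s, hs⟩ : ∃ s, s + q = k := ⟨k - q, by omega⟩
  have hsr : (s : ℝ) = k - q := by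
    have : (s : ℝ) + q = k := by exact_mod_cast hs
    linarith
  -- the main inequality
  have hmain : (s : ℝ) + 8 + 2 * y ≤ x := by nlinarith
  have hsx : s + 2 ≤ x := by
    have : (s : ℝ) + 2 ≤ x := by linarith
    exact_mod_cast this
  obtain ⟨D, hD⟩ : ∃ D, D = 2 ^ (s + 2) := ⟨_, rfl⟩
  have hDN : D ≤ N := by rw [hD, hN]; exact Nat.pow_le_pow_right (by norm_num) hsx
  have hbN : 2 ^ s * (N + D) ≤ 2 ^ (s + 1) * N := by
    rw [pow_succ]
    calc 2 ^ s * (N + D) ≤ 2 ^ s * (N + N) := Nat.mul_le_mul_left _ (by omega)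
      _ = _ := by ring
  have hrd := rd_le N D s
  have hwin := maker_main (N := N) (s := s) (q := q) (D := D) (b := 2 ^ s * (N + D))
    (by rw [hN]; exact Nat.one_le_two_pow) (by
      calc 2 * (2 ^ s * (N + D)) ≤ 2 * (2 ^ (s + 1) * N) := Nat.mul_le_mul_left _ hbN
        _ = D * N := by rw [hD]; ring) hrd (by
      intro B₀ hB₀
      apply hC4
      have h1 : (B₀.card : ℝ) ≤ 2 ^ (s + 1) * 2 ^ x := by
        have h0 : (B₀.card : ℝ) ≤ 2 ^ (s + 1) * (N : ℝ) := by
          exact_mod_cast hB₀.trans hbN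
        rw [hNr] at h0
        exact h0
      have h2 : (2 : ℝ) ^ (s + 8) * (x : ℝ) ^ 2 ≤ 2 ^ x := by
        have h3 : (2 : ℝ) ^ (s + 8) * (x : ℝ) ^ 2 = 2 ^ ((s : ℝ) + 8 + 2 * y) := by
          rw [Real.rpow_add (by norm_num), Real.rpow_add (by norm_num), Real.rpow_natCast,
            mul_comm 2 y, Real.rpow_mul (by norm_num), ← hxy, pow_add]
          norm_num
        rw [h3, ← Real.rpow_natCast]
        exact Real.rpow_le_rpow_of_exponent_le (by norm_num) hmain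
      calc 32 * (B₀.card : ℝ) * (2 * (x : ℝ)) ^ 2
          ≤ 32 * (2 ^ (s + 1) * 2 ^ x) * (2 * (x : ℝ)) ^ 2 := by gcongr
        _ = (2 : ℝ) ^ (s + 8) * (x : ℝ) ^ 2 * 2 ^ x := by rw [pow_add, pow_add]; ring
        _ ≤ 2 ^ x * 2 ^ x := mul_le_mul_of_nonneg_right h2 (by positivity)
        _ = (N : ℝ) ^ 2 := by rw [hNr]; ring)
  rw [hs] at hwin
  refine makerWins_mono ?_ hwin
  have h1 : rd N D s + N ^ 2 ≤ 2 ^ (2 * x + 1) := by
    have h2 : 2 ^ (s + 1) * N ≤ N ^ 2 := by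
      rw [sq]
      refine Nat.mul_le_mul_right _ ?_
      rw [hN]
      exact Nat.pow_le_pow_right (by norm_num) (by omega)
    have h3 : 2 ^ (2 * x + 1) = 2 * N ^ 2 := by rw [hN]; ring
    rw [h3]
    omega
  have h2 : (2 : ℝ) ^ (2 * x + 1) ≤ m := by
    refine le_trans ?_ hm
    rw [← Real.rpow_natCast]
    apply Real.rpow_le_rpow_of_exponent_le (by norm_num)
    push_cast
    nlinarith
  have h3 : 2 ^ (2 * x + 1) ≤ m := by exact_mod_cast h2
  exact h1.trans h3

end Pool.Agent.W316.Mk
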