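import Mathlib

/-!
# Two-point variables with values `0` and `b`: small sums have probability at least `(1 - μ) ^ n`

Let `S` be the sum of independent variables `b i * Bernoulli (q i)`, all with the same mean `μ`,
`F = P(S < 1)`, `G = E (1 - S)⁺`, `γ = G / F`.  By the identity
`E (S g(S)) = μ ∑ E g(S_{-i} + b i)` for the two functions `g = 1[· < 1]` and `g = (1 - ·)⁺`, and
Cauchy's inequality, there is an item `i` whose removal does not decrease `γ`.  Together with
`G ≥ G_{-i} - μ F_{-i}` this gives by induction `F (1 - μ / γ) ^ m ≥ (1 - μ) ^ (k + m)` for `k` items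
whenever `(k + m + 1) μ ≤ 1`.
-/

set_option autoImplicit false

namespace Pool.Agent.W316.Feige

open Finset

variable {ι : Type*} [DecidableEq ι]

/-- The expectation of `g (∑ b i * ξ i)` for independent Bernoulli variables `ξ i`, `i ∈ I`, with
parameters `q i`. -/
noncomputable def E (q b : ι → ℝ) (I : Finset ι) (g : ℝ → ℝ) : ℝ :=
  ∑ S ∈ I.powerset, ((∏ i ∈ S, q i) * ∏ i ∈ I \ S, (1 - q i)) * g (∑ i ∈ S, b i)

theorem E_empty (q b : ι → ℝ) (g : ℝ → ℝ) : E q b ∅ g = g 0 := by simp [E]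

theorem E_insert (q b : ι → ℝ) {I : Finset ι} {j : ι} (hj : j ∉ I) (g : ℝ → ℝ) :
    E q b (insert j I) g
      = (1 - q j) * E q b I g + q j * E q b I (fun s => g (s + b j)) := by
  unfold E
  rw [Finset.sum_powerset_insert hj, Finset.mul_sum, Finset.mul_sum]
  congr 1
  · apply Finset.sum_congr rfl
    intro S hS
    have hS' := Finset.mem_powerset.mp hS
    have hjS : j ∉ S := fun h => hj (hS' h)
    rw [Finset.insert_sdiff_of_notMem _ hjS, Finset.prod_insert (by simp [hj])]
    ring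
  · apply Finset.sum_congr rfl
    intro S hS
    have hS' := Finset.mem_powerset.mp hS
    have hjS : j ∉ S := fun h => hj (hS' h)
    rw [Finset.prod_insert hjS, Finset.sum_insert hjS, Finset.insert_sdiff_insert,
      Finset.sdiff_insert_of_notMem hj, add_comm (b j)]
    ring

theorem E_erase (q b : ι → ℝ) {I : Finset ι} {j : ι} (hj : j ∈ I) (g : ℝ → ℝ) :
    E q b I g
      = (1 - q j) * E q b (I.erase j) g + q j * E q b (I.erase j) (fun s => g (s + b j)) := by
  conv_lhs => rw [← Finset.insert_erase hj]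
  exact E_insert q b (Finset.notMem_erase j I) g

theorem E_add (q b : ι → ℝ) (I : Finset ι) (g h : ℝ → ℝ) :
    E q b I (fun s => g s + h s) = E q b I g + E q b I h := by
  unfold E
  rw [← Finset.sum_add_distrib]
  apply Finset.sum_congr rfl
  intro S _
  ring

theorem E_smul (q b : ι → ℝ) (I : Finset ι) (c : ℝ) (g : ℝ → ℝ) :
    E q b I (fun s => c * g s) = c * E q b I g := by
  unfold E
  rw [Finset.mul_sum]
  apply Finset.sum_congr rfl
  intro S _
  ring

theorem E_sub (q b : ι → ℝ) (I : Finset ι) (g h : ℝ → ℝ) :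
    E q b I (fun s => g s - h s) = E q b I g - E q b I h := by
  unfold E
  rw [← Finset.sum_sub_distrib]
  apply Finset.sum_congr rfl
  intro S _
  ring

theorem E_mono {q b : ι → ℝ} {I : Finset ι} (hq : ∀ i ∈ I, 0 ≤ q i ∧ q i ≤ 1)
    {g h : ℝ → ℝ} (hgh : ∀ s, g s ≤ h s) : E q b I g ≤ E q b I h := by
  unfold E
  apply Finset.sum_le_sum
  intro S hS
  have hS' := Finset.mem_powerset.mp hS
  apply mul_le_mul_of_nonneg_left (hgh _)
  apply mul_nonneg
  · exact Finset.prod_nonneg fun i hi => (hq i (hS' hi)).1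
  · exact Finset.prod_nonneg fun i hi => by
      have := (hq i (Finset.mem_sdiff.mp hi).1).2
      linarith

theorem E_size (q b : ι → ℝ) (I : Finset ι) (g : ℝ → ℝ) :
    E q b I (fun s => s * g s)
      = ∑ i ∈ I, q i * b i * E q b (I.erase i) (fun s => g (s + b i)) := by
  induction I using Finset.induction_on generalizing g with
  | empty => simp [E_empty]
  | insert j I hj ih =>
    rw [E_insert q b hj, Finset.sum_insert hj, Finset.erase_insert hj, ih g]
    have h1 : E q b I (fun s => (s + b j) * g (s + b j))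
        = E q b I (fun s => s * g (s + b j)) + b j * E q b I (fun s => g (s + b j)) := by
      rw [← E_smul, ← E_add]
      congr 1
      funext s
      ring
    rw [h1, ih (fun s => g (s + b j))]
    have h2 : ∀ i ∈ I, q i * b i * E q b ((insert j I).erase i) (fun s => g (s + b i))
        = (1 - q j) * (q i * b i * E q b (I.erase i) (fun s => g (s + b i)))
          + q j * (q i * b i * E q b (I.erase i) (fun s => g (s + b i + b j))) := by
      intro i hi
      have hij : i ≠ j := fun h => hj (h ▸ hi)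
      rw [Finset.erase_insert_of_ne (Ne.symm hij),
        E_insert q b (fun h => hj (Finset.mem_of_mem_erase h))]
      have h3 : (fun s => g (s + b j + b i)) = (fun s => g (s + b i + b j)) := by
        funext s
        congr 1
        ring
      rw [h3]
      ring
    rw [Finset.sum_congr rfl h2, Finset.sum_add_distrib, ← Finset.mul_sum, ← Finset.mul_sum]
    ring

/-- The indicator function of `s < 1`. -/
noncomputable def f (s : ℝ) : ℝ := if s < 1 then 1 else 0

/-- The positive part of `1 - s`. -/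
noncomputable def w (s : ℝ) : ℝ := if s < 1 then 1 - s else 0

theorem f_nonneg (s : ℝ) : 0 ≤ f s := by unfold f; split_ifs <;> norm_num

theorem w_nonneg (s : ℝ) : 0 ≤ w s := by unfold w; split_ifs <;> linarith

theorem mul_f (s : ℝ) : s * f s = f s - w s := by unfold f w; split_ifs <;> ring

theorem mul_w (s : ℝ) : s * w s = w s - w s * w s := by unfold w; split_ifs <;> ring

theorem w_sq (c s : ℝ) : 2 * c * w s - c ^ 2 * f s ≤ w s * w s := by
  unfold f w
  split_ifs
  · nlinarith [sq_nonneg (1 - s - c)]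
  · simp

theorem w_shift {c : ℝ} (hc : 0 ≤ c) (s : ℝ) : w s - c * f s ≤ w (s + c) := by
  unfold f w
  split_ifs <;> linarith

/-- Hypotheses on the items. -/
structure Good (q b : ι → ℝ) (μ : ℝ) (I : Finset ι) : Prop where
  q0 : ∀ i ∈ I, 0 ≤ q i
  q1 : ∀ i ∈ I, q i < 1
  b0 : ∀ i ∈ I, 0 ≤ b i
  mean : ∀ i ∈ I, q i * b i = μ

theorem Good.erase {q b : ι → ℝ} {μ : ℝ} {I : Finset ι} (h : Good q b μ I) (j : ι) :
    Good q b μ (I.erase j) :=
  ⟨fun i hi => h.q0 i (Finset.mem_of_mem_erase hi), fun i hi => h.q1 i (Finset.mem_of_mem_erase hi),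
    fun i hi => h.b0 i (Finset.mem_of_mem_erase hi),
    fun i hi => h.mean i (Finset.mem_of_mem_erase hi)⟩

omit [DecidableEq ι] in
theorem Good.le {q b : ι → ℝ} {μ : ℝ} {I : Finset ι} (h : Good q b μ I) :
    ∀ i ∈ I, 0 ≤ q i ∧ q i ≤ 1 := fun i hi => ⟨h.q0 i hi, (h.q1 i hi).le⟩

/-- `F > 0`. -/
theorem F_pos {q b : ι → ℝ} {μ : ℝ} {I : Finset ι} (h : Good q b μ I) : 0 < E q b I f := by
  induction I using Finset.induction_on with
  | empty => simp [E_empty, f]
  | insert j I hj ih =>
    have hg : Good q b μ I := by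
      have := h.erase j
      rwa [Finset.erase_insert hj] at this
    rw [E_insert q b hj]
    have h1 := ih hg
    have h2 : 0 ≤ E q b I (fun s => f (s + b j)) := by
      have := E_mono (q := q) (b := b) (I := I) hg.le (g := fun _ => 0)
        (h := fun s => f (s + b j)) (fun s => f_nonneg _)
      have h0 : E q b I (fun _ => 0) = 0 := by simp [E]
      rwa [h0] at this
    have h3 := h.q1 j (Finset.mem_insert_self j I)
    have h4 := h.q0 j (Finset.mem_insert_self j I)
    have h5 : 0 < (1 - q j) * E q b I f := mul_pos (by linarith) h1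
    have h6 := mul_nonneg h4 h2
    linarith

/-- `G ≥ G_{-i} - μ F_{-i}`. -/
theorem G_step {q b : ι → ℝ} {μ : ℝ} {I : Finset ι} (h : Good q b μ I) {i : ι} (hi : i ∈ I) :
    E q b (I.erase i) w - μ * E q b (I.erase i) f ≤ E q b I w := by
  have h1 := E_mono (q := q) (b := b) (I := I.erase i) (h.erase i).le
    (fun s => w_shift (h.b0 i hi) s)
  rw [E_sub, E_smul] at h1
  rw [E_erase q b hi w, ← h.mean i hi]
  have h2 := mul_le_mul_of_nonneg_left h1 (h.q0 i hi)
  nlinarith [h2]

/-- The choice of the item. -/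
theorem exists_item {q b : ι → ℝ} {μ : ℝ} (hμ : 0 < μ) {I : Finset ι} (h : Good q b μ I)
    (hI : I.Nonempty) :
    ∃ i ∈ I, E q b I w * E q b (I.erase i) f ≤ E q b (I.erase i) w * E q b I f := by
  have hF := F_pos h
  -- the two identities
  have e1 : E q b I f - E q b I w = μ * ∑ i ∈ I, E q b (I.erase i) (fun s => f (s + b i)) := by
    have h1 := E_size q b I f
    have h2 : (fun s => s * f s) = fun s => f s - w s := by
      funext s
      exact mul_f s
    rw [h2, E_sub] at h1
    rw [h1, Finset.mul_sum]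
    apply Finset.sum_congr rfl
    intro i hi
    rw [h.mean i hi]
  have e2 : E q b I w - E q b I (fun s => w s * w s)
      = μ * ∑ i ∈ I, E q b (I.erase i) (fun s => w (s + b i)) := by
    have h1 := E_size q b I w
    have h2 : (fun s => s * w s) = fun s => w s - w s * w s := by
      funext s
      exact mul_w s
    rw [h2, E_sub] at h1
    rw [h1, Finset.mul_sum]
    apply Finset.sum_congr rfl
    intro i hi
    rw [h.mean i hi]
  obtain ⟨F, hFd⟩ : ∃ F, E q b I f = F := ⟨_, rfl⟩
  obtain ⟨G, hGd⟩ : ∃ G, E q b I w = G := ⟨_, rfl⟩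
  rw [hFd] at hF e1
  rw [hGd] at e1 e2
  -- Cauchy's inequality
  have e3 : 2 * (G / F) * G - (G / F) ^ 2 * F ≤ E q b I (fun s => w s * w s) := by
    have h1 := E_mono (q := q) (b := b) (I := I) h.le (fun s => w_sq (G / F) s)
    rw [E_sub, E_smul, E_smul, hFd, hGd] at h1
    exact h1
  have e4 : 2 * (G / F) * G - (G / F) ^ 2 * F = (G / F) * G := by
    field_simp
    ring
  have e5 : ∑ i ∈ I, E q b (I.erase i) (fun s => w (s + b i))
      ≤ ∑ i ∈ I, (G / F) * E q b (I.erase i) (fun s => f (s + b i)) := by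
    rw [← Finset.mul_sum]
    have h1 : μ * ∑ i ∈ I, E q b (I.erase i) (fun s => w (s + b i))
        ≤ μ * ((G / F) * ∑ i ∈ I, E q b (I.erase i) (fun s => f (s + b i))) := by
      calc μ * ∑ i ∈ I, E q b (I.erase i) (fun s => w (s + b i))
          = G - E q b I (fun s => w s * w s) := e2.symm
        _ ≤ G - (G / F) * G := by linarith
        _ = (G / F) * (F - G) := by field_simp
        _ = μ * ((G / F) * ∑ i ∈ I, E q b (I.erase i) (fun s => f (s + b i))) := by
            rw [e1]; ring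
    exact le_of_mul_le_mul_left h1 hμ
  obtain ⟨i, hi, hle⟩ := Finset.exists_le_of_sum_le hI e5
  refine ⟨i, hi, ?_⟩
  have h1 := E_erase q b hi f
  have h2 := E_erase q b hi w
  rw [hFd] at h1
  rw [hGd] at h2
  rw [hFd, hGd]
  obtain ⟨F', hF'⟩ : ∃ F', E q b (I.erase i) f = F' := ⟨_, rfl⟩
  obtain ⟨G', hG'⟩ : ∃ G', E q b (I.erase i) w = G' := ⟨_, rfl⟩
  obtain ⟨A, hA⟩ : ∃ A, E q b (I.erase i) (fun s => f (s + b i)) = A := ⟨_, rfl⟩
  obtain ⟨B, hB⟩ : ∃ B, E q b (I.erase i) (fun s => w (s + b i)) = B := ⟨_, rfl⟩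
  rw [hF', hA] at h1
  rw [hG', hB] at h2
  rw [hA, hB] at hle
  rw [hF', hG']
  have hq0 := h.q0 i hi
  have hq1 := h.q1 i hi
  have h3 : B * F ≤ G * A := by
    have := mul_le_mul_of_nonneg_right hle hF.le
    have h4 : G / F * A * F = G * A := by field_simp
    linarith
  -- (1-q)(G' F - G F') = q (G A - B F)
  have h5 : (1 - q i) * (G' * F - G * F') = q i * (G * A - B * F) := by
    have h6 : G * F = G * ((1 - q i) * F' + q i * A) := by rw [← h1]
    have h7 : G * F = ((1 - q i) * G' + q i * B) * F := by rw [← h2]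
    linarith
  have h8 : 0 ≤ (1 - q i) * (G' * F - G * F') := by
    rw [h5]
    exact mul_nonneg hq0 (by linarith)
  have h9 : 0 ≤ G' * F - G * F' := by
    by_contra hneg
    push Not at hneg
    have : (1 - q i) * (G' * F - G * F') < 0 := mul_neg_of_pos_of_neg (by linarith) hneg
    linarith
  linarith

/-- The elementary inequality behind the induction step. -/
theorem step_ineq (m : ℕ) {ρ₀ ρ y : ℝ} (h0 : 0 ≤ ρ₀) (h1 : ρ₀ ≤ ρ) (hy : 0 ≤ y)
    (h2 : (m + 1 : ℝ) * (ρ * y) ≤ 1) :
    ρ₀ * (1 - ρ₀ * y) ^ m ≤ ρ * (1 - ρ * y) ^ m := by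
  rcases Nat.eq_zero_or_pos m with hm | hm
  · subst hm
    simpa using h1
  have hρ : 0 ≤ ρ := h0.trans h1
  have hm1 : (1 : ℝ) ≤ m := by exact_mod_cast hm
  have hρy : 0 ≤ ρ * y := mul_nonneg hρ hy
  have h3 : ρ₀ * y ≤ ρ * y := mul_le_mul_of_nonneg_right h1 hy
  have h4 : 0 ≤ ρ₀ * y := mul_nonneg h0 hy
  have h5 : ρ * y ≤ 1 / 2 := by nlinarith
  have hpos : 0 < 1 - ρ₀ * y := by linarith
  obtain ⟨z, hz⟩ : ∃ z, z = (ρ - ρ₀) * y / (1 - ρ₀ * y) := ⟨_, rfl⟩
  have hz0 : 0 ≤ z := by
    rw [hz]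
    exact div_nonneg (mul_nonneg (by linarith) hy) hpos.le
  have hzm : z * (1 - ρ₀ * y) = (ρ - ρ₀) * y := by
    rw [hz, div_mul_cancel₀ _ hpos.ne']
  have hz1 : (1 - ρ * y) = (1 - ρ₀ * y) * (1 - z) := by
    have : (1 - ρ₀ * y) * (1 - z) = 1 - ρ₀ * y - z * (1 - ρ₀ * y) := by ring
    rw [this, hzm]
    ring
  have hz2 : z ≤ 1 := by
    rw [hz, div_le_one hpos]
    nlinarith
  have hb : 1 - m * z ≤ (1 - z) ^ m := by
    have := one_add_mul_le_pow (a := -z) (by linarith) m
    have e : (1 : ℝ) + m * (-z) = 1 - m * z := by ring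
    have e' : (1 : ℝ) + -z = 1 - z := by ring
    rw [e, e'] at this
    exact this
  have hmain : ρ₀ ≤ ρ * (1 - m * z) := by
    have h6 : m * z * (1 - ρ₀ * y) = m * ((ρ - ρ₀) * y) := by
      rw [mul_assoc, hzm]
    have h7 : ρ * (m * z) * (1 - ρ₀ * y) ≤ (ρ - ρ₀) * (1 - ρ₀ * y) := by
      have h8 : ρ * (m * z) * (1 - ρ₀ * y) = (ρ - ρ₀) * (m * (ρ * y)) := by
        calc ρ * (m * z) * (1 - ρ₀ * y) = ρ * (m * z * (1 - ρ₀ * y)) := by ring
          _ = (ρ - ρ₀) * (m * (ρ * y)) := by rw [h6]; ring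
      rw [h8]
      apply mul_le_mul_of_nonneg_left _ (by linarith)
      nlinarith
    have h9 := le_of_mul_le_mul_right h7 hpos
    nlinarith
  rw [hz1, mul_pow]
  have h10 : 0 ≤ (1 - ρ₀ * y) ^ m := pow_nonneg hpos.le m
  calc ρ₀ * (1 - ρ₀ * y) ^ m ≤ (ρ * (1 - m * z)) * (1 - ρ₀ * y) ^ m :=
        mul_le_mul_of_nonneg_right hmain h10
    _ ≤ (ρ * (1 - z) ^ m) * (1 - ρ₀ * y) ^ m :=
        mul_le_mul_of_nonneg_right (mul_le_mul_of_nonneg_left hb hρ) h10
    _ = ρ * ((1 - ρ₀ * y) ^ m * (1 - z) ^ m) := by ring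

theorem F_le_one {q b : ι → ℝ} {μ : ℝ} {I : Finset ι} (h : Good q b μ I) : E q b I f ≤ 1 := by
  have h1 := E_mono (q := q) (b := b) (I := I) h.le (g := f) (h := fun _ => 1)
    (fun s => by unfold f; split_ifs <;> norm_num)
  have h2 : E q b I (fun _ => 1) = 1 := by
    clear h1 h
    induction I using Finset.induction_on with
    | empty => simp [E_empty]
    | insert j I hj ih => rw [E_insert q b hj, ih]; ring
  linarith

theorem G_ge {q b : ι → ℝ} {μ : ℝ} (hμ : 0 ≤ μ) {I : Finset ι} (h : Good q b μ I) :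
    1 - I.card * μ ≤ E q b I w := by
  induction I using Finset.induction_on with
  | empty => simp [E_empty, w]
  | insert j I hj ih =>
    have hg : Good q b μ I := by
      have := h.erase j
      rwa [Finset.erase_insert hj] at this
    have h1 := G_step h (Finset.mem_insert_self j I)
    rw [Finset.erase_insert hj] at h1
    have h2 := ih hg
    have h3 := F_le_one hg
    rw [Finset.card_insert_of_notMem hj]
    push_cast
    nlinarith [mul_le_mul_of_nonneg_left h3 hμ]

/-- The main inequality. -/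
theorem main_ineq {q b : ι → ℝ} {μ : ℝ} (hμ : 0 < μ) (k : ℕ) :
    ∀ (m : ℕ) (I : Finset ι), Good q b μ I → I.card = k → ((k : ℝ) + m + 1) * μ ≤ 1 →
      (1 - μ) ^ (k + m) ≤ E q b I f * (1 - μ * E q b I f / E q b I w) ^ m := by
  induction k with
  | zero =>
    intro m I _ hc _
    rw [Finset.card_eq_zero] at hc
    subst hc
    rw [E_empty, E_empty]
    simp [f, w]
  | succ k ih =>
    intro m I h hc hle
    have hI : I.Nonempty := by
      rw [← Finset.card_pos, hc]
      omega
    obtain ⟨i, hi, hch⟩ := exists_item hμ h hI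
    have hg := h.erase i
    have hc' : (I.erase i).card = k := by
      rw [Finset.card_erase_of_mem hi, hc]
      rfl
    have hle' : ((k : ℝ) + ((m + 1 : ℕ) : ℝ) + 1) * μ ≤ 1 := by
      push_cast at hle ⊢
      linarith
    have hih := ih (m + 1) (I.erase i) hg hc' hle'
    have hGs := G_step h hi
    have hF := F_pos h
    have hF' := F_pos hg
    have hF'1 := F_le_one hg
    have hG' := G_ge hμ.le hg
    rw [hc'] at hG'
    obtain ⟨F, hFd⟩ : ∃ F, E q b I f = F := ⟨_, rfl⟩
    obtain ⟨G, hGd⟩ : ∃ G, E q b I w = G := ⟨_, rfl⟩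
    obtain ⟨F', hF'd⟩ : ∃ F', E q b (I.erase i) f = F' := ⟨_, rfl⟩
    obtain ⟨G', hG'd⟩ : ∃ G', E q b (I.erase i) w = G' := ⟨_, rfl⟩
    rw [hFd, hGd, hF'd, hG'd] at hch
    rw [hGd, hF'd, hG'd] at hGs
    rw [hFd] at hF
    rw [hF'd] at hF' hF'1
    rw [hG'd] at hG'
    rw [hF'd, hG'd] at hih
    rw [hFd, hGd]
    -- numbers
    have hk0 : (0 : ℝ) ≤ k := Nat.cast_nonneg k
    have hm0 : (0 : ℝ) ≤ m := Nat.cast_nonneg m
    have hG'2 : ((m : ℝ) + 2) * μ ≤ G' := by
      push_cast at hle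
      nlinarith
    have hG'pos : 0 < G' := by nlinarith
    have hμF' : μ * F' ≤ μ := by nlinarith
    have hGpos : 0 < G := by nlinarith
    obtain ⟨x, hx⟩ : ∃ x, x = μ * F' / G' := ⟨_, rfl⟩
    have hx0 : 0 ≤ x := by
      rw [hx]
      exact div_nonneg (mul_nonneg hμ.le hF'.le) hG'pos.le
    have hx2 : ((m : ℝ) + 2) * x ≤ 1 := by
      rw [hx, ← mul_div_assoc, div_le_one hG'pos]
      nlinarith [mul_le_mul_of_nonneg_left hF'1 (mul_nonneg (by linarith : (0:ℝ) ≤ (m:ℝ) + 2) hμ.le)]
    have hx1 : x < 1 := by nlinarith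
    have hxG : x * G' = μ * F' := by
      rw [hx]
      field_simp
    obtain ⟨ρ, hρ⟩ : ∃ ρ, ρ = F / F' := ⟨_, rfl⟩
    have hρF : F = ρ * F' := by
      rw [hρ]
      field_simp
    -- ρ ≥ 1 - x
    have hρ1 : 1 - x ≤ ρ := by
      -- G F' ≤ G' F,  G ≥ G' (1 - x)
      have h1 : G' * (1 - x) ≤ G := by
        have : G' * (1 - x) = G' - μ * F' := by rw [← hxG]; ring
        linarith
      have h2 : G' * (1 - x) * F' ≤ G' * (ρ * F') := by
        calc G' * (1 - x) * F' ≤ G * F' := mul_le_mul_of_nonneg_right h1 hF'.le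
          _ ≤ G' * F := hch
          _ = G' * (ρ * F') := by rw [hρF]
      have h3 : (G' * F') * (1 - x) ≤ (G' * F') * ρ := by linarith
      exact le_of_mul_le_mul_left h3 (mul_pos hG'pos hF')
    -- ρ ≤ 1
    have hρle : ρ ≤ 1 := by
      rw [hρ, div_le_one hF']
      have h1 := E_erase q b hi f
      have h2 := E_mono (q := q) (b := b) (I := I.erase i) hg.le (g := fun s => f (s + b i))
        (h := f) (fun s => by
          have hb := h.b0 i hi
          unfold f
          split_ifs <;> linarith)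
      rw [hFd, hF'd] at h1
      rw [hF'd] at h2
      have h3 := h.q0 i hi
      nlinarith [mul_le_mul_of_nonneg_left h2 h3]
    obtain ⟨y, hy⟩ : ∃ y, y = x / (1 - x) := ⟨_, rfl⟩
    have h1x : 0 < 1 - x := by linarith
    have hy0 : 0 ≤ y := by
      rw [hy]
      exact div_nonneg hx0 h1x.le
    have hyx : (1 - x) * y = x := by
      rw [hy]
      field_simp
    have hcond : ((m : ℝ) + 1) * (ρ * y) ≤ 1 := by
      have h1 : ((m : ℝ) + 1) * (ρ * y) ≤ ((m : ℝ) + 1) * y := by
        apply mul_le_mul_of_nonneg_left _ (by linarith)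
        nlinarith
      have h2 : ((m : ℝ) + 1) * y ≤ 1 := by
        rw [hy, ← mul_div_assoc, div_le_one h1x]
        linarith
      linarith
    have hst := step_ineq m h1x.le hρ1 hy0 hcond
    rw [hyx] at hst
    -- μ F / G ≤ ρ y
    have hfrac : μ * F / G ≤ ρ * y := by
      rw [div_le_iff₀ hGpos]
      have h1 : G' * (1 - x) ≤ G := by
        have : G' * (1 - x) = G' - μ * F' := by rw [← hxG]; ring
        linarith
      have hρ0 : 0 ≤ ρ := by linarith
      calc μ * F = ρ * (μ * F') := by rw [hρF]; ring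
        _ = ρ * (x * G') := by rw [hxG]
        _ = ρ * y * (G' * (1 - x)) := by
            calc ρ * (x * G') = ρ * (((1 - x) * y) * G') := by rw [hyx]
              _ = ρ * y * (G' * (1 - x)) := by ring
        _ ≤ ρ * y * G := mul_le_mul_of_nonneg_left h1 (mul_nonneg hρ0 hy0)
    have hρy1 : ρ * y ≤ 1 := by nlinarith [mul_nonneg (by linarith : (0:ℝ) ≤ ρ) hy0]
    have hpow : (1 - ρ * y) ^ m ≤ (1 - μ * F / G) ^ m :=
      pow_le_pow_left₀ (by linarith) (by linarith) m
    have hexp : k + 1 + m = k + (m + 1) := by ring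
    rw [hexp]
    calc (1 - μ) ^ (k + (m + 1)) ≤ F' * (1 - μ * F' / G') ^ (m + 1) := hih
      _ = F' * ((1 - x) * (1 - x) ^ m) := by rw [← hx, pow_succ']
      _ ≤ F' * (ρ * (1 - ρ * y) ^ m) := mul_le_mul_of_nonneg_left hst hF'.le
      _ = F * (1 - ρ * y) ^ m := by rw [hρF]; ring
      _ ≤ F * (1 - μ * F / G) ^ m := mul_le_mul_of_nonneg_left hpow hF.le

end Pool.Agent.W316.Feige
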