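import Pool.Agent.W619.Y.Main

/-! Subadditivity of the Kodaira dimension for fibrations over quotients of products of curves. -/

set_option autoImplicit false
set_option linter.overlappingInstances false
set_option linter.unusedSectionVars false

universe u v

open FF IntermediateField Pool.Agent.W619.PQ Pool.Agent.W619.PL Pool.Agent.W619.TW
  Pool.Agent.W619.X Pool.Agent.W619.Y Pool.Agent.W603.LV

namespace Pool.Agent.W316.Iit

section transport

variable {k : Type v} {L L' : Type u} [Field k] [Field L] [Algebra k L] [Field L'] [Algebra k L']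
  {F : IntermediateField k L} {F' : IntermediateField k L'}

/-- The place of `F` which corresponds to a place of `F'` under an isomorphism. -/
noncomputable def pullPlace (e : F ≃ₐ[k] F') (w : Place k F') : Place k F where
  ord f := w.ord (e f)
  ord_zero := by rw [map_zero, w.ord_zero]
  ord_mul := by
    intro f g hf hg
    rw [map_mul, w.ord_mul (by simpa using hf) (by simpa using hg)]
  ord_add := by
    intro f g hf hg hfg
    rw [map_add]
    exact w.ord_add (by simpa using hf) (by simpa using hg)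
      (by rw [← map_add]; exact (map_ne_zero_iff _ e.injective).2 hfg)
  ord_const := by intro c hc; rw [AlgEquiv.commutes, w.ord_const hc]
  surj := by
    obtain ⟨t, h0, ht⟩ := w.surj
    exact ⟨e.symm t, by simpa using h0, by simpa using ht⟩

/-- The derivation of `F'` which corresponds to a derivation of `F` under an isomorphism. -/
noncomputable def pushDer (e : F ≃ₐ[k] F') (D : Derivation k F F) : Derivation k F' F' :=
  Derivation.mk' ((e.toLinearMap.comp (D : F →ₗ[k] F)).comp e.symm.toLinearMap) (by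
    intro a b
    change e (D (e.symm (a * b))) = a • e (D (e.symm b)) + b • e (D (e.symm a))
    rw [map_mul, D.leibniz, map_add, smul_eq_mul, smul_eq_mul, map_mul, map_mul,
      AlgEquiv.apply_symm_apply, AlgEquiv.apply_symm_apply, smul_eq_mul, smul_eq_mul])

theorem elliptic_equiv (e : F ≃ₐ[k] F') (h : IsElliptic F) : IsElliptic F' := by
  obtain ⟨D, hD⟩ := h
  refine ⟨pushDer e D, fun w t ht => ?_⟩
  have h1 := hD (pullPlace e w) (e.symm t) (by
    change w.ord (e (e.symm t)) = 1
    rw [AlgEquiv.apply_symm_apply]; exact ht)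
  change e (D (e.symm t)) ≠ 0 ∧ w.ord (e (D (e.symm t))) = 0
  exact ⟨(map_ne_zero_iff _ e.injective).2 h1.1, h1.2⟩

theorem rational_equiv (e : F ≃ₐ[k] F') (h : ∃ t : F, k⟮t⟯ = ⊤) : ∃ t : F', k⟮t⟯ = ⊤ := by
  obtain ⟨t, ht⟩ := h
  refine ⟨e t, ?_⟩
  have h1 := congrArg (IntermediateField.map (e : F →ₐ[k] F')) ht
  rw [IntermediateField.adjoin_map, Set.image_singleton, ← AlgHom.fieldRange_eq_map] at h1
  change k⟮e t⟯ = _ at h1
  rw [h1]
  exact AlgEquiv.fieldRange_eq_top e

theorem isFF_equiv (e : F ≃ₐ[k] F') (h : IsFF k F) : IsFF k F' :=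
  ⟨(Algebra.EssFiniteType.iff_of_algEquiv e).1 h.ess, by rw [← e.trdeg_eq]; exact h.trdeg⟩

end transport

section growth

variable {k : Type v} {K : Type u} [Field k] [Field K] [Algebra k K]

theorem kodTr_mono {n a b : ℕ} (hab : a ≤ b) (h : KodTr k K n b) : KodTr k K n a := by
  obtain ⟨m, hm, ω, hω, D, hD, hind⟩ := h
  refine ⟨m, hm, fun l => ω (Fin.castLE (by omega) l), fun l => hω _, D, fun l => hD _, ?_⟩
  have h1 := hind.comp (Fin.castLE hab) (Fin.castLE_injective hab)
  exact h1

theorem le_of_kodTr_numLe [CharZero k] [CharZero K] {n b h : ℕ} (hK : Algebra.trdeg k K = n)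
    (h1 : KodTr k K n b) (h2 : NumLe k K n (fun _ => False) h) : b ≤ h := by
  obtain ⟨m, hm, h3⟩ := Pool.Agent.W300.PG.TRGE.main k K n b hK h1
  obtain ⟨C, hC⟩ := h2 {1}
  by_contra hlt
  push Not at hlt
  have key : ∀ j : ℕ, 1 ≤ j → j ^ b ≤ C * (j * m) ^ h := by
    intro j hj
    obtain ⟨ω, hω, hs⟩ := h3 j hj
    refine hC (j * m) (j ^ b) (Nat.mul_pos hj hm) ⟨ω, hω, fun l => ?_⟩
    obtain ⟨s1, s2, s3⟩ := hs l
    refine ⟨s1, fun v hv hb D hD => ?_, fun v _ hv => hv.elim⟩
    rcases s2 v hv hb D hD with s | ⟨c, hs1, hs0, s⟩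
    · exact Or.inl s
    · right
      refine ⟨c, hs1, hs0, ?_⟩
      have hs2 : c = 1 := by simpa using hs1
      subst hs2
      have h10 : v.ord (1 : K) = 0 := by
        have := v.ord_const (c := (1 : k)) one_ne_zero
        simpa using this
      rw [h10] at s ⊢
      simpa using s
  have h4 := key (C * m ^ h + 1) (by omega)
  set J := C * m ^ h + 1 with hJ
  have h5 : J ^ (h + 1) ≤ J ^ b := Nat.pow_le_pow_right (by omega) hlt
  have h6 : C * (J * m) ^ h = J ^ h * (C * m ^ h) := by rw [mul_pow]; ring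
  have h7 : J ^ (h + 1) = J ^ h * J := pow_succ _ _
  have h8 : 0 < J ^ h := pow_pos (by omega) _
  have h9 : J ^ h * J ≤ J ^ h * (C * m ^ h) := by rw [← h7, ← h6]; exact h5.trans h4
  have h10 := Nat.le_of_mul_le_mul_left h9 h8
  omega

theorem not_kodTr_of_numNeg {n b : ℕ} [CharZero k] [CharZero K] (hK : Algebra.trdeg k K = n)
    (h1 : KodTr k K n b) (h2 : NumNeg k K n (fun _ => False)) : False := by
  obtain ⟨m, hm, h3⟩ := Pool.Agent.W300.PG.TRGE.main k K n b hK h1
  obtain ⟨m0, hm0⟩ := h2 {1}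
  obtain ⟨ω, hω, hs⟩ := h3 (m0 + 1) (by omega)
  have hm1 : m0 ≤ (m0 + 1) * m := by nlinarith
  have hpos : 0 < (m0 + 1) ^ b := pow_pos (by omega) _
  refine hm0 ((m0 + 1) * m) hm1 ⟨fun _ => ω ⟨0, hpos⟩, ?_, fun l => ?_⟩
  · exact (linearIndependent_unique_iff (v := fun _ : Fin 1 => ω ⟨0, hpos⟩)).2 (hω.ne_zero _)
  · obtain ⟨s1, s2, s3⟩ := hs ⟨0, hpos⟩
    refine ⟨s1, fun v hv hb D hD => ?_, fun v _ hv => hv.elim⟩
    rcases s2 v hv hb D hD with s | ⟨c, hs1, hs0, s⟩
    · exact Or.inl s
    · right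
      refine ⟨c, hs1, hs0, ?_⟩
      have hs2 : c = 1 := by simpa using hs1
      subst hs2
      have h10 : v.ord (1 : K) = 0 := by
        have := v.ord_const (c := (1 : k)) one_ne_zero
        simpa using this
      rw [h10] at s ⊢
      simpa using s

end growth

end Pool.Agent.W316.Iit
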