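import Pool.Agent.W316.Iitaka

/-! Subadditivity of the Kodaira dimension for fibrations over quotients of products of curves. -/

set_option autoImplicit false
set_option linter.overlappingInstances false
set_option linter.unusedSectionVars false

universe u v

open FF IntermediateField Pool.Agent.W619.PQ Pool.Agent.W619.PL Pool.Agent.W619.TW
  Pool.Agent.W619.X Pool.Agent.W619.Y Pool.Agent.W603.LV

namespace Pool.Agent.W316.Iit

section

variable {k : Type v} {L : Type u} [Field k] [CharZero k] [IsAlgClosed k] [Field L] [Algebra k L]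

theorem restrict_iSup {n : ℕ} (F : Fin n → IntermediateField k L) :
    ⨆ i, restrict (le_iSup F i) = (⊤ : IntermediateField k ↥(⨆ i, F i)) := by
  rw [eq_top_iff]
  intro z _
  have h1 : (⨆ i, F i) ≤ lift (⨆ i, restrict (le_iSup F i)) := by
    refine iSup_le fun i y hy => ?_
    exact (mem_lift (⟨y, le_iSup F i hy⟩ : ↥(⨆ i, F i))).2
      ((le_iSup (fun i => restrict (le_iSup F i)) i) ((mem_restrict _ _).2 hy))
  exact (mem_lift z).1 (h1 z.2)

theorem exists_x (d n : ℕ) (hn : Algebra.trdeg k L = (d + n : ℕ)) (M : IntermediateField k L)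
    (hM : Algebra.trdeg k M = d)
    (F : Fin n → IntermediateField k L) [hF : ∀ i, IsFF k (F i)]
    (halg : Algebra.IsAlgebraic ↥(M ⊔ ⨆ i, F i) L) :
    ∃ x : ∀ i, F i, (∀ i, Transcendental k (x i)) ∧ AlgebraicIndependent k (fun i => (x i : L)) := by
  obtain ⟨y, hy⟩ := exists_fin_basis (k := k) d hM
  have hex : ∀ i, ∃ x : F i, Transcendental k x := by
    intro i
    obtain ⟨z, hz⟩ := exists_fin_basis (k := k) (K := F i) 1 (by simpa using (hF i).trdeg)
    refine ⟨z 0, ?_⟩
    have h1 := hz.1.comp (fun _ : Unit => (0 : Fin 1)) (fun _ _ _ => Subsingleton.elim _ _)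
    exact (algebraicIndependent_unique_type_iff (x := fun _ : Unit => z 0)).1 h1
  choose x hx using hex
  have hb := basis_append M F halg hn y hy x hx
  refine ⟨x, hx, ?_⟩
  have h1 := hb.1.comp (Fin.natAdd d) (Fin.natAdd_injective n d)
  have h2 : (Fin.append (fun l => (y l : L)) (fun i => (x i : L))) ∘ Fin.natAdd d =
      fun i => (x i : L) := by
    funext i
    simp
  rwa [h2] at h1

theorem trdeg_E (d n : ℕ) (hn : Algebra.trdeg k L = (d + n : ℕ)) (M : IntermediateField k L)
    (hM : Algebra.trdeg k M = d)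
    (F : Fin n → IntermediateField k L) [hF : ∀ i, IsFF k (F i)]
    (halg : Algebra.IsAlgebraic ↥(M ⊔ ⨆ i, F i) L) :
    Algebra.trdeg k ↥(⨆ i, F i) = n := by
  obtain ⟨x, hx, hind⟩ := exists_x d n hn M hM F halg
  let x' : Fin n → ↥(⨆ i, F i) := fun i => ⟨x i, le_iSup F i (x i).2⟩
  have hind' : AlgebraicIndependent k x' :=
    AlgebraicIndependent.of_comp (IntermediateField.val (⨆ i, F i)) hind
  let F' : Fin n → IntermediateField k ↥(⨆ i, F i) := fun i => restrict (le_iSup F i)
  have hF' : ∀ i, IsFF k (F' i) := fun i => isFF_equiv (restrictAlgEquiv (le_iSup F i)) (hF i)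
  let x'' : ∀ i, F' i := fun i => ⟨x' i, (mem_restrict _ _).2 (x i).2⟩
  have hx'' : ∀ i, Transcendental k (x'' i) := by
    intro i h
    have h1 := h.algHom (F' i).val
    have h2 := h1.algHom (IntermediateField.val (⨆ i, F i))
    refine hx i ?_
    exact (isAlgebraic_algHom_iff (F i).val Subtype.val_injective).1 h2
  have halgE : Algebra.IsAlgebraic (Algebra.adjoin k (Set.range x')) ↥(⨆ i, F i) :=
    alg_adjoin fun z => by
      have h1 := alg_iSup F' x'' hx'' (z := z) (by rw [restrict_iSup]; trivial)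
      exact h1
  have hb' := hind'.isTranscendenceBasis_iff_isAlgebraic.2 halgE
  have h5 := hb'.lift_cardinalMk_eq_trdeg
  simpa using h5.symm

theorem fin_sub {K A : Type u} [Field K] [Field A] [Algebra k K] [Algebra k A] [Algebra K A]
    [IsScalarTower k K A] [Algebra.EssFiniteType k A] [Algebra.IsAlgebraic K A] {n : ℕ}
    (y : Fin n → K) (hy : IsTranscendenceBasis k y) :
    FiniteDimensional (IntermediateField.adjoin k (Set.range y)) K := by
  set K0 := IntermediateField.adjoin k (Set.range y) with hK0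
  let iA : Algebra K0 A := inferInstance
  have t1 : IsScalarTower K0 K A := inferInstance
  have t2 : IsScalarTower k K0 A := inferInstance
  have hess : Algebra.EssFiniteType K0 A := Algebra.EssFiniteType.of_comp k K0 A
  have halg1 : Algebra.IsAlgebraic K0 K := hy.isAlgebraic_field
  have halg2 : Algebra.IsAlgebraic K0 A := Algebra.IsAlgebraic.trans K0 K A
  obtain ⟨s, hs⟩ := IntermediateField.fg_top K0 A
  have h1 : FiniteDimensional K0 (IntermediateField.adjoin K0 (s : Set A)) :=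
    IntermediateField.finiteDimensional_adjoin fun x _ =>
      (halg2.isAlgebraic x).isIntegral
  rw [hs] at h1
  have h2 : FiniteDimensional K0 A := h1.equiv IntermediateField.topEquiv.toLinearEquiv
  exact Module.Finite.of_injective (IsScalarTower.toAlgHom K0 K A).toLinearMap
    (algebraMap K A).injective

theorem trdeg_alg {K A : Type u} [Field K] [Field A] [Algebra k K] [Algebra k A] [Algebra K A]
    [IsScalarTower k K A] [Algebra.IsAlgebraic K A] : Algebra.trdeg k K = Algebra.trdeg k A := by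
  rw [← trdeg_add_eq k K (A := A), trdeg_eq_zero (R := K) (A := A), add_zero]

/-- The Kodaira dimension of the quotient of the product of the curves. -/
theorem base_upper (n : ℕ) (F : Fin n → IntermediateField k L) (hF : ∀ i, IsFF k (F i))
    (hnE : Algebra.trdeg k ↥(⨆ i, F i) = n)
    (G : Subgroup (L ≃ₐ[k] L)) [Finite G]
    (hst : ∀ g ∈ G, ∀ z ∈ ⨆ i, F i, g z ∈ ⨆ i, F i) :
    Algebra.trdeg k ↥((⨆ i, F i) ⊓ fixedField G) = n ∧
    ((∃ i, ∃ t : F i, k⟮t⟯ = ⊤) →
      NumNeg k ↥((⨆ i, F i) ⊓ fixedField G) n (fun _ => False)) ∧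
    ((∀ i, ¬ ∃ t : F i, k⟮t⟯ = ⊤) →
      NumLe k ↥((⨆ i, F i) ⊓ fixedField G) n (fun _ => False)
        {i | ¬ IsElliptic (F i)}.ncard) := by
  let F' : Fin n → IntermediateField k ↥(⨆ i, F i) := fun i => restrict (le_iSup F i)
  have hF' : ∀ i, IsFF k (F' i) := fun i => isFF_equiv (restrictAlgEquiv (le_iSup F i)) (hF i)
  have hsup' : ⨆ i, F' i = ⊤ := restrict_iSup F
  obtain ⟨u1, u2⟩ := up_bot n hnE F' hF' hsup'
  have hset : {i | ¬ IsElliptic (F' i)} = {i | ¬ IsElliptic (F i)} := by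
    ext i
    exact not_congr ⟨fun h => elliptic_equiv (restrictAlgEquiv (le_iSup F i)).symm h,
      fun h => elliptic_equiv (restrictAlgEquiv (le_iSup F i)) h⟩
  rw [hset] at u2
  set W := (⨆ i, F i) ⊓ fixedField G with hW
  set B := fixedField (⊥ : Subgroup (↥(⨆ i, F i) ≃ₐ[k] ↥(⨆ i, F i))) with hB
  let i1 : Algebra W ↥(⨆ i, F i) := (inclusion (inf_le_left : W ≤ ⨆ i, F i)).toRingHom.toAlgebra
  have s1 : IsScalarTower k W ↥(⨆ i, F i) := IsScalarTower.of_algebraMap_eq fun c => rfl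
  have f1 : FiniteDimensional W ↥(⨆ i, F i) := inf_finite G (⨆ i, F i) hst fun z => rfl
  have hmem : ∀ z : ↥(⨆ i, F i), z ∈ B := by
    intro z g
    have h1 := g.2
    rw [Subgroup.mem_bot] at h1
    change (g : ↥(⨆ i, F i) ≃ₐ[k] ↥(⨆ i, F i)) z = z
    rw [h1]
    rfl
  let φ : W →+* B := (algebraMap W ↥(⨆ i, F i)).codRestrict B fun z => hmem _
  let i2 : Algebra W B := φ.toAlgebra
  have s2 : IsScalarTower k W B := IsScalarTower.of_algebraMap_eq fun c => rfl
  have s3 : IsScalarTower W B ↥(⨆ i, F i) := IsScalarTower.of_algebraMap_eq fun c => rfl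
  have f2 : FiniteDimensional W B :=
    Module.Finite.of_injective (IsScalarTower.toAlgHom W B ↥(⨆ i, F i)).toLinearMap
      Subtype.val_injective
  have hessE : Algebra.EssFiniteType k ↥(⨆ i, F i) :=
    essFiniteType_iff.2 (fg_iSup fun j => essFiniteType_iff.1 ((hF j).ess))
  have hW1 : Algebra.trdeg k W = n := (trdeg_alg (K := W) (A := ↥(⨆ i, F i))).trans hnE
  have h := pTRANS k W B n hW1 (fun y hy => fin_sub (A := ↥(⨆ i, F i)) y hy) (fun _ => False)
  rw [bdUp_false] at h
  refine ⟨hW1, fun hi => h.2.1 (u1 ?_).2, fun hi => h.2.2 _ (u2 ?_)⟩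
  · obtain ⟨i, hi⟩ := hi
    exact ⟨i, rational_equiv (restrictAlgEquiv (le_iSup F i)) hi⟩
  · exact fun i hi' => hi i (rational_equiv (restrictAlgEquiv (le_iSup F i)).symm hi')

theorem stable_iSup {n : ℕ} (F : Fin n → IntermediateField k L) (G : Subgroup (L ≃ₐ[k] L))
    (σ : G →* Equiv.Perm (Fin n))
    (hσ : ∀ (g : G) i, ∀ z ∈ F i, (g : L ≃ₐ[k] L) z ∈ F (σ g i)) :
    ∀ g ∈ G, ∀ z ∈ ⨆ i, F i, g z ∈ ⨆ i, F i := by
  intro g hg z hz
  have h1 : (⨆ i, F i) ≤ (⨆ i, F i).comap (g : L →ₐ[k] L) := by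
    refine iSup_le fun i y hy => ?_
    exact le_iSup F (σ ⟨g, hg⟩ i) (hσ ⟨g, hg⟩ i y hy)
  exact h1 hz

/-- An element of `G` which is trivial on the curves is trivial. -/
theorem faithful {n N : ℕ} (hN : 2 ≤ N) (F : Fin n → IntermediateField k L)
    (G : Subgroup (L ≃ₐ[k] L)) (σ : G →* Equiv.Perm (Fin n))
    (hfree : FreeIn N G σ F) (g : G) (hg : ∀ i, ∀ z ∈ F i, (g : L ≃ₐ[k] L) z = z)
    (hσg : ∀ i, σ g i = i) : g = 1 := by
  by_contra hne
  have hpow : ∀ (r : ℕ) i, ∀ z ∈ F i, ((g ^ r : G) : L ≃ₐ[k] L) z = z := by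
    intro r i z hz
    induction r with
    | zero => simp
    | succ r ih =>
      rw [pow_succ, Subgroup.coe_mul, AlgEquiv.mul_apply, hg i z hz, ih]
  have hσpow : ∀ (r : ℕ) i, σ (g ^ r) i = i := by
    intro r i
    rw [map_pow]
    induction r with
    | zero => simp
    | succ r ih => rw [pow_succ, Equiv.Perm.mul_apply, hσg, ih]
  have h1 := hfree g hne fun i r _ => Or.inl (hpow r i)
  have h2 : fixDim G σ F g = n := by
    unfold fixDim
    have h3 : {i | (∀ r : ℕ, i ≤ σ (g ^ r) i) ∧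
        ∀ r : ℕ, σ (g ^ r) i = i → ∀ z ∈ F i, ((g ^ r : G) : L ≃ₐ[k] L) z = z} = Set.univ := by
      ext i
      simp only [Set.mem_setOf_eq, Set.mem_univ, iff_true]
      exact ⟨fun r => by rw [hσpow], fun r _ => hpow r i⟩
    rw [h3, Set.ncard_univ]
    simp
  omega

/-- Different curves are not contained in each other. -/
theorem inj_F {n : ℕ} (F : Fin n → IntermediateField k L) (hF : ∀ i, IsFF k (F i)) (x : ∀ i, F i)
    (hind : AlgebraicIndependent k (fun i => (x i : L))) {i j : Fin n} (h : F i ≤ F j) : i = j := by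
  by_contra hne
  let y : Fin 2 → F j := ![⟨x i, h (x i).2⟩, x j]
  have h1 : AlgebraicIndependent k y := by
    refine AlgebraicIndependent.of_comp (F j).val ?_
    have h2 := hind.comp ![i, j] (by
      intro a b hab
      fin_cases a <;> fin_cases b <;> simp_all)
    have h3 : ((F j).val ∘ y : Fin 2 → L) = (fun i => (x i : L)) ∘ ![i, j] := by
      funext a
      fin_cases a <;> rfl
    change AlgebraicIndependent k ((F j).val ∘ y)
    rw [h3]
    exact h2
  have h4 := h1.lift_cardinalMk_le_trdeg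
  rw [(hF j).trdeg] at h4
  simp at h4

theorem sup_fixed (E : IntermediateField k L) (G : Subgroup (L ≃ₐ[k] L)) [Finite G]
    (hE : ∀ g : G, (∀ z ∈ E, (g : L ≃ₐ[k] L) z = z) → g = 1) : fixedField G ⊔ E = ⊤ := by
  have hGal : IsGaloisGroup G (fixedField G) L := isGaloisGroup_fixed G
  have hfin : FiniteDimensional (fixedField G) L := IsGaloisGroup.finiteDimensional G (fixedField G) L
  have hG2 : IsGalois (fixedField G) L := IsGaloisGroup.isGalois G (fixedField G) L
  let S : IntermediateField (fixedField G) L :=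
    extendScalars (le_sup_left : fixedField G ≤ fixedField G ⊔ E)
  have h1 : S.fixingSubgroup = ⊥ := by
    rw [eq_bot_iff]
    intro τ hτ
    obtain ⟨g, rfl⟩ := (IsGaloisGroup.mulEquivAlgEquiv G (fixedField G) L).surjective τ
    have hg : g = 1 := hE g fun z hz => by
      have h2 : z ∈ S := by
        rw [mem_extendScalars]
        exact (le_sup_right : E ≤ fixedField G ⊔ E) hz
      exact (mem_fixingSubgroup_iff S _).1 hτ z h2
    rw [hg, map_one]
    exact Subgroup.one_mem _
  have h3 : S = ⊤ := by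
    rw [← IsGalois.fixedField_fixingSubgroup S, h1]
    exact IntermediateField.fixedField_bot
  rw [eq_top_iff]
  intro z _
  have h4 : z ∈ S := by rw [h3]; trivial
  rwa [mem_extendScalars] at h4

/-- Subadditivity for fibrations over quotients of products of curves. -/
theorem iitaka (d n : ℕ) (hn : Algebra.trdeg k L = (d + n : ℕ)) (M : IntermediateField k L)
    [Algebra.EssFiniteType k M] (hM : Algebra.trdeg k M = d)
    (F : Fin n → IntermediateField k L) [hF : ∀ i, IsFF k (F i)]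
    (halg : Algebra.IsAlgebraic ↥(M ⊔ ⨆ i, F i) L)
    (G : Subgroup (L ≃ₐ[k] L)) [Finite G] (σ : G →* Equiv.Perm (Fin n))
    (hσ : ∀ (g : G) i, ∀ z ∈ F i, (g : L ≃ₐ[k] L) z ∈ F (σ g i))
    (h : MixedPos G σ F) :
    fixedField G ⊔ (⨆ i, F i) = ⊤ ∧
    (∀ b, KodTr k ↥((⨆ i, F i) ⊓ fixedField G) n b →
      (∀ i, ¬ ∃ t : F i, k⟮t⟯ = ⊤) ∧ b ≤ {i | ¬ IsElliptic (F i)}.ncard) ∧
    (∀ a b, KodTr k M d a → KodTr k ↥((⨆ i, F i) ⊓ fixedField G) n b →
      KodTr k (fixedField G) (d + n) (a + b)) := by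
  obtain ⟨h1, -⟩ := abM d n hn M hM F halg G σ hσ h
  obtain ⟨N, hN, hfree, -⟩ := h
  obtain ⟨x, hx, hind⟩ := exists_x d n hn M hM F halg
  have hnE := trdeg_E d n hn M hM F halg
  obtain ⟨b1, b2, b3⟩ := base_upper n F hF hnE G (stable_iSup F G σ hσ)
  have hc : CharZero ↥((⨆ i, F i) ⊓ fixedField G) := charZero_of_alg (k := k)
  have hb : ∀ b, KodTr k ↥((⨆ i, F i) ⊓ fixedField G) n b →
      (∀ i, ¬ ∃ t : F i, k⟮t⟯ = ⊤) ∧ b ≤ {i | ¬ IsElliptic (F i)}.ncard := by
    intro b hb
    have hirr : ∀ i, ¬ ∃ t : F i, k⟮t⟯ = ⊤ := by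
      intro i hi
      exact not_kodTr_of_numNeg b1 hb (b2 ⟨i, hi⟩)
    exact ⟨hirr, le_of_kodTr_numLe b1 hb (b3 hirr)⟩
  refine ⟨sup_fixed _ G fun g hg => ?_, hb, fun a b ha hb' => ?_⟩
  · have hgF : ∀ i, ∀ z ∈ F i, (g : L ≃ₐ[k] L) z = z := fun i z hz => hg z (le_iSup F i hz)
    refine faithful hN F G σ hfree g hgF fun i => ?_
    refine (inj_F F hF x hind (i := i) (j := σ g i) fun z hz => ?_).symm
    have := hσ g i z hz
    rwa [hgF i z hz] at this
  · obtain ⟨hirr, hle⟩ := hb b hb'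
    exact kodTr_mono (by omega) (h1 hirr a ha).1

end

end Pool.Agent.W316.Iit
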